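import Pool.Agent.K3h47.FU.Elem

/-! The three facts about the monomials in a class. -/

set_option autoImplicit false
set_option linter.unusedSectionVars false

namespace Pool.Agent.K3h47.FU

variable {r : ℕ} {R : AddSubgroup (ℤ × (Fin r → ℤ))} {δ e : Fin r → ℕ} {n : ℕ}

/-- prescribed values -/
theorem Dat.exists_pre (h : Dat R δ e n) (x : ∀ i, ZMod (e i)) (I : Finset (Fin r))
    (hI : I.card ≤ n) (b : ∀ i, ZMod (e i)) :
    ∃ z, z - x ∈ Lam R e ∧ ∀ i ∈ I, z i = b i := by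
  classical
  have hne := h.neZero
  have h1 := h.sur I hI
  choose! ρ hρ hρ1 hρ0 using h1
  refine ⟨x + ∑ i ∈ I, (b i - x i).val • ρ i, ?_, ?_⟩
  · rw [add_sub_cancel_left]
    exact (Lam R e).sum_mem fun i hi => (Lam R e).nsmul_mem (hρ i hi) _
  · intro i hi
    rw [Pi.add_apply, Finset.sum_apply, Finset.sum_eq_single i]
    · rw [Pi.smul_apply, hρ1 i hi, nsmul_eq_mul, mul_one, ZMod.natCast_zmod_val]
      ring
    · intro j hj hji
      rw [Pi.smul_apply, hρ0 j hj i hi hji.symm, smul_zero]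
    · intro h2
      exact absurd hi h2

theorem val_cast {k : ℕ} (b : ℕ) [NeZero k] :
    ((k - 1 - b : ℕ) : ZMod k).val = k - 1 - b := by
  rw [ZMod.val_natCast, Nat.mod_eq_of_lt]
  have := Nat.pos_of_ne_zero (NeZero.ne k)
  omega

theorem Dat.E12 (h : Dat R δ e n) {M : ℕ} (hM : M ≠ 0) (hd : ∀ j, e j ∣ M * δ j)
    (hF : ∀ p : ℕ, p.Prime → p ∣ M →
      n + 1 ≤ (Finset.univ.filter (fun j => p ^ M.factorization p ∣ e j)).card)
    (c : ℤ × (Fin r → ℤ)) (I : Finset (Fin r)) (hI : I.card ≤ n) (b : Fin r → ℕ)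
    (hb : ∀ i ∈ I, b i ≤ e i - 1) :
    ∃ (L : ℤ) (a : Fin r → ℕ), (∀ i ∈ I, a i = b i) ∧
      ((c.1 - L, fun i => c.2 i - (a i : ℤ)) : ℤ × (Fin r → ℤ)) ∈ R ∧
      M * bet δ e c + ∑ i ∈ I, (((e i - 1 - b i : ℕ) : ℚ) * wt e M i)
        + (∑ i ∈ I, ((wt e M i : ℚ) - 1) + ((n : ℚ) - I.card) * (M - 1)) ≤ M * L := by
  classical
  have hne := h.neZero
  obtain ⟨l, hnd, hlI, hlu, htot⟩ := exists_list M hM (Lam R e) n h.sur hF I hI
  obtain ⟨z, hz1, hz2⟩ := h.exists_pre (x0 e c) I hI (fun i => ((e i - 1 - b i : ℕ) : ZMod (e i)))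
  obtain ⟨y, hy1, hy2, hy3⟩ := exists_topOn (M := M) (Lam R e) l I z
  have hyx : y - x0 e c ∈ Lam R e := by
    have : y - x0 e c = (y - z) + (z - x0 e c) := by abel
    rw [this]
    exact (Lam R e).add_mem hy1 hz1
  obtain ⟨L, hL1, hL2⟩ := h.exists_L c y hyx
  have hval : ∀ i ∈ I, (y i).val = e i - 1 - b i := by
    intro i hi
    rw [hy2 i hi, hz2 i hi]
    exact val_cast _
  refine ⟨L, aOf y, ?_, hL1, ?_⟩
  · intro i hi
    rw [aOf, hval i hi]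
    have := hb i hi
    omega
  · have h1 := h.L_ge hM hd y I l hnd hlI
    have h2 := TopOn.sum l I hy3
    have h3 : ∑ i ∈ I, ((y i).val : ℚ) * wt e M i
        = ∑ i ∈ I, (((e i - 1 - b i : ℕ) : ℚ) * wt e M i) :=
      Finset.sum_congr rfl fun i hi => by rw [hval i hi]
    rw [h3] at h1
    rw [hL2, mul_add]
    linarith

theorem wt_sum_ge (h : Dat R δ e n) {M : ℕ} (i : Fin r) :
    (M : ℚ) - 1 ≤ ((e i - 1 : ℕ) : ℚ) * wt e M i + ((wt e M i : ℚ) - 1) := by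
  have hne := h.neZero i
  have h1 := wt_mul_ge (m := fun _ : Fin r => e i) M i
  have h2 : (M : ℚ) ≤ e i * wt e M i := by exact_mod_cast h1
  have h3 : ((e i - 1 : ℕ) : ℚ) = (e i : ℚ) - 1 := by
    have := h.two i
    rw [Nat.cast_sub (by omega)]
    norm_num
  rw [h3]
  linarith

theorem wt_ge_one (h : Dat R δ e n) {M : ℕ} (hM : M ≠ 0) (i : Fin r) : (1 : ℚ) ≤ wt e M i := by
  have hne := h.neZero i
  have h1 : 1 ≤ wt e M i := by
    rw [wt]
    exact Nat.div_pos (Nat.le_of_dvd (Nat.pos_of_ne_zero hM) (Nat.gcd_dvd_left _ _))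
      (Nat.gcd_pos_of_pos_left _ (Nat.pos_of_ne_zero hM))
  exact_mod_cast h1

/-- A monomial which does not vanish on `I`, with a coefficient of positive degree. -/
theorem Dat.E1 (h : Dat R δ e n) {M : ℕ} (hM : M ≠ 0) (hd : ∀ j, e j ∣ M * δ j)
    (hF : ∀ p : ℕ, p.Prime → p ∣ M →
      n + 1 ≤ (Finset.univ.filter (fun j => p ^ M.factorization p ∣ e j)).card)
    (c : ℤ × (Fin r → ℤ)) (hβ : -(n : ℚ) * M + n + 1 ≤ M * bet δ e c)
    (I : Finset (Fin r)) (hI : I.card ≤ n) :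
    ∃ (L : ℤ) (a : Fin r → ℕ), 1 ≤ L ∧ (∀ i ∈ I, a i = 0) ∧
      ((c.1 - L, fun i => c.2 i - (a i : ℤ)) : ℤ × (Fin r → ℤ)) ∈ R := by
  obtain ⟨L, a, h1, h2, h3⟩ := h.E12 hM hd hF c I hI (fun _ => 0) (fun i _ => Nat.zero_le _)
  refine ⟨L, a, ?_, h1, h2⟩
  have h4 : ∑ i ∈ I, (((e i - 1 - 0 : ℕ) : ℚ) * wt e M i) + ∑ i ∈ I, ((wt e M i : ℚ) - 1)
      ≥ I.card * ((M : ℚ) - 1) := by
    rw [← Finset.sum_add_distrib]
    have h5 : (I.card : ℚ) * ((M : ℚ) - 1) = ∑ i ∈ I, ((M : ℚ) - 1) := by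
      rw [Finset.sum_const, nsmul_eq_mul]
    rw [h5]
    refine Finset.sum_le_sum fun i _ => ?_
    simpa using wt_sum_ge h i
  have hMpos : (0 : ℚ) < M := by exact_mod_cast Nat.pos_of_ne_zero hM
  have h6 : (1 : ℚ) ≤ M * L := by nlinarith
  have h7 : (0 : ℚ) < L := by
    by_contra hcon
    push Not at hcon
    nlinarith
  exact_mod_cast (show (0 : ℤ) < L by exact_mod_cast h7)

/-- A monomial vanishing at exactly one of the divisors `D_i`, `i ∈ I`, to the first order. -/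
theorem Dat.E2 (h : Dat R δ e n) {M : ℕ} (hM : M ≠ 0) (hd : ∀ j, e j ∣ M * δ j)
    (hF : ∀ p : ℕ, p.Prime → p ∣ M →
      n + 1 ≤ (Finset.univ.filter (fun j => p ^ M.factorization p ∣ e j)).card)
    (c : ℤ × (Fin r → ℤ)) (hβ : -(n : ℚ) * M + n + 1 ≤ M * bet δ e c)
    (I : Finset (Fin r)) (hI : I.card ≤ n) (i₀ : Fin r) (hi₀ : i₀ ∈ I) :
    ∃ (L : ℤ) (a : Fin r → ℕ), 0 ≤ L ∧ a i₀ = 1 ∧ (∀ i ∈ I, i ≠ i₀ → a i = 0) ∧
      ((c.1 - L, fun i => c.2 i - (a i : ℤ)) : ℤ × (Fin r → ℤ)) ∈ R := by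
  classical
  obtain ⟨L, a, h1, h2, h3⟩ := h.E12 hM hd hF c I hI (fun i => if i = i₀ then 1 else 0)
    (fun i _ => by
      have := h.two i
      split_ifs <;> omega)
  refine ⟨L, a, ?_, by rw [h1 i₀ hi₀, if_pos rfl], fun i hi hne => by rw [h1 i hi, if_neg hne], h2⟩
  have hMpos : (0 : ℚ) < M := by exact_mod_cast Nat.pos_of_ne_zero hM
  have h4 : ((I.card : ℚ) - 1) * ((M : ℚ) - 1) ≤
      ∑ i ∈ I, (((e i - 1 - (if i = i₀ then 1 else 0) : ℕ) : ℚ) * wt e M i)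
        + ∑ i ∈ I, ((wt e M i : ℚ) - 1) := by
    rw [← Finset.sum_add_distrib, ← Finset.add_sum_erase _ _ hi₀]
    have h5 : ((I.card : ℚ) - 1) * ((M : ℚ) - 1) = ∑ i ∈ I.erase i₀, ((M : ℚ) - 1) := by
      rw [Finset.sum_const, nsmul_eq_mul, Finset.card_erase_of_mem hi₀,
        Nat.cast_sub (Finset.card_pos.2 ⟨i₀, hi₀⟩)]
      norm_num
    rw [h5]
    have h6 : (0 : ℚ) ≤ ((e i₀ - 1 - (if i₀ = i₀ then 1 else 0) : ℕ) : ℚ) * wt e M i₀
        + ((wt e M i₀ : ℚ) - 1) := by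
      have h7 := wt_ge_one h hM i₀
      have h8 : (0 : ℚ) ≤ ((e i₀ - 1 - (if i₀ = i₀ then 1 else 0) : ℕ) : ℚ) * wt e M i₀ := by
        positivity
      linarith
    have h7 : ∑ i ∈ I.erase i₀, ((M : ℚ) - 1) ≤ ∑ i ∈ I.erase i₀,
        (((e i - 1 - (if i = i₀ then 1 else 0) : ℕ) : ℚ) * wt e M i + ((wt e M i : ℚ) - 1)) := by
      refine Finset.sum_le_sum fun i hi => ?_
      rw [if_neg (Finset.ne_of_mem_erase hi)]
      simpa using wt_sum_ge h i
    linarith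
  have h6 : (2 : ℚ) - M ≤ M * L := by nlinarith
  have h7 : (-1 : ℚ) < L := by
    by_contra hcon
    push Not at hcon
    nlinarith
  have h8 : (-1 : ℤ) < L := by exact_mod_cast h7
  omega

/-- the classes of the monomials which do not vanish on `I` -/
def Good (R : AddSubgroup (ℤ × (Fin r → ℤ))) (e : Fin r → ℕ) (c : ℤ × (Fin r → ℤ))
    (I : Finset (Fin r)) (y : ∀ i, ZMod (e i)) : Prop :=
  (∀ i ∈ I, aOf y i = 0) ∧ ∃ L : ℤ, 0 ≤ L ∧
    ((c.1 - L, fun i => c.2 i - (aOf y i : ℤ)) : ℤ × (Fin r → ℤ)) ∈ R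

/-- The differences of the classes of the monomials generate. -/
theorem Dat.E3 (h : Dat R δ e n) {M : ℕ} (hM : M ≠ 0) (hd : ∀ j, e j ∣ M * δ j)
    (hF : ∀ p : ℕ, p.Prime → p ∣ M →
      n + 1 ≤ (Finset.univ.filter (fun j => p ^ M.factorization p ∣ e j)).card)
    (c : ℤ × (Fin r → ℤ)) (hβ : -(n : ℚ) * M + n + 1 ≤ M * bet δ e c)
    (I : Finset (Fin r)) (hI : I.card ≤ n) (Γ : AddSubgroup (∀ i, ZMod (e i)))
    (hΓ : ∀ y y', Good R e c I y → Good R e c I y' → y - y' ∈ Γ) :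
    ∀ x ∈ van (Lam R e) I 0, x ∈ Γ := by
  classical
  have hne := h.neZero
  have hMpos : (0 : ℚ) < M := by exact_mod_cast Nat.pos_of_ne_zero hM
  obtain ⟨l, hnd, hlI, hlu, htot⟩ := exists_list M hM (Lam R e) n h.sur hF I hI
  obtain ⟨z₀, hz1, hz2⟩ := h.exists_pre (x0 e c) I hI (fun i => ((e i - 1 - 0 : ℕ) : ZMod (e i)))
  obtain ⟨z, hy1, hy2, hy3⟩ := exists_topOn (M := M) (Lam R e) l I z₀
  have hzx : z - x0 e c ∈ Lam R e := by
    have : z - x0 e c = (z - z₀) + (z₀ - x0 e c) := by abel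
    rw [this]
    exact (Lam R e).add_mem hy1 hz1
  have hgood : ∀ y, y - z ∈ Lam R e → (∀ i ∈ I, y i = z i) →
      tot M (Lam R e) I l - M < (l.map fun j => ((y j).val * wt e M j : ℚ)).sum →
      Good R e c I y := by
    intro y hyz hyI hsum
    have hval : ∀ i ∈ I, (y i).val = e i - 1 - 0 := by
      intro i hi
      rw [hyI i hi, hy2 i hi, hz2 i hi]
      exact val_cast _
    have hyx : y - x0 e c ∈ Lam R e := by
      have : y - x0 e c = (y - z) + (z - x0 e c) := by abel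
      rw [this]
      exact (Lam R e).add_mem hyz hzx
    obtain ⟨L, hL1, hL2⟩ := h.exists_L c y hyx
    refine ⟨fun i hi => by rw [aOf, hval i hi]; omega, L, ?_, hL1⟩
    have h1 := h.L_ge hM hd y I l hnd hlI
    have h3 : ∑ i ∈ I, ((y i).val : ℚ) * wt e M i
        = ∑ i ∈ I, (((e i - 1 : ℕ) : ℚ) * wt e M i) :=
      Finset.sum_congr rfl fun i hi => by rw [hval i hi, Nat.sub_zero]
    rw [h3] at h1
    have h4 : ∑ i ∈ I, (((e i - 1 : ℕ) : ℚ) * wt e M i) + ∑ i ∈ I, ((wt e M i : ℚ) - 1)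
        ≥ I.card * ((M : ℚ) - 1) := by
      rw [← Finset.sum_add_distrib]
      have h5 : (I.card : ℚ) * ((M : ℚ) - 1) = ∑ i ∈ I, ((M : ℚ) - 1) := by
        rw [Finset.sum_const, nsmul_eq_mul]
      rw [h5]
      exact Finset.sum_le_sum fun i _ => wt_sum_ge h i
    have h6 : (1 : ℚ) - M < M * L := by
      rw [hL2, mul_add]
      nlinarith
    have h7 : (-1 : ℚ) < L := by
      by_contra hcon
      push Not at hcon
      nlinarith
    have h8 : (-1 : ℤ) < L := by exact_mod_cast h7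
    omega
  have hzgood : Good R e c I z := hgood z (by rw [sub_self]; exact (Lam R e).zero_mem)
    (fun _ _ => rfl) (by
      have := TopOn.sum l I hy3
      linarith)
  exact gen hM (Lam R e) z Γ l I hlu hy3 fun y h1 h2 h3 => hΓ y z (hgood y h1 h2 h3) hzgood

end Pool.Agent.K3h47.FU
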