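import Pool.Agent.K3h47.FU.Top2
import Pool.Agent.K3h47.FU.EE

/-! The facts about the monomials in a class of smaller degree. -/

set_option autoImplicit false
set_option linter.unusedSectionVars false

namespace Pool.Agent.K3h47.FU

variable {r : ℕ} {R : AddSubgroup (ℤ × (Fin r → ℤ))} {δ e : Fin r → ℕ} {n : ℕ}

/-- a list of the other coordinates -/
noncomputable def rest (I : Finset (Fin r)) : List (Fin r) := (Finset.univ \ I).toList

theorem rest_nodup (I : Finset (Fin r)) : (rest I).Nodup := Finset.nodup_toList _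

theorem rest_notMem (I : Finset (Fin r)) : ∀ j ∈ rest I, j ∉ I := by
  intro j hj
  rw [rest, Finset.mem_toList, Finset.mem_sdiff] at hj
  exact hj.2

theorem rest_union (I : Finset (Fin r)) : I ∪ (rest I).toFinset = Finset.univ := by
  rw [rest, Finset.toList_toFinset, Finset.union_sdiff_of_subset (Finset.subset_univ _)]

/-- a monomial in the given class, with given exponents on `I` and large `y` elsewhere -/
theorem Dat.exists_mon (h : Dat R δ e n) (c : ℤ × (Fin r → ℤ)) (I : Finset (Fin r))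
    (hI : I.card ≤ n) (b : Fin r → ℕ) (l : List (Fin r)) :
    ∃ (L : ℤ) (y : ∀ i, ZMod (e i)), (∀ i ∈ I, (y i).val = e i - 1 - b i) ∧
      y - x0 e c ∈ Lam R e ∧
      ((c.1 - L, fun i => c.2 i - (aOf y i : ℤ)) : ℤ × (Fin r → ℤ)) ∈ R ∧
      (haveI := h.neZero; TopE (Lam R e) y I l) ∧
      (L : ℚ) = bet δ e c + ∑ i, ((y i).val : ℚ) * (δ i / e i) := by
  classical
  have hne := h.neZero
  obtain ⟨z, hz1, hz2⟩ := h.exists_pre (x0 e c) I hI (fun i => ((e i - 1 - b i : ℕ) : ZMod (e i)))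
  obtain ⟨y, hy1, hy2, hy3⟩ := exists_topE (Lam R e) l I z
  have hyx : y - x0 e c ∈ Lam R e := by
    have : y - x0 e c = (y - z) + (z - x0 e c) := by abel
    rw [this]
    exact (Lam R e).add_mem hy1 hz1
  obtain ⟨L, hL1, hL2⟩ := h.exists_L c y hyx
  refine ⟨L, y, ?_, hyx, hL1, hy3, hL2⟩
  intro i hi
  rw [hy2 i hi, hz2 i hi]
  exact val_cast _

/-- The lower bound for the degree, with the exact contribution of a coordinate. -/
theorem Dat.L_ge1 (h : Dat R δ e n) {M : ℕ} (hM : M ≠ 0) (hd : ∀ j, e j ∣ M * δ j)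
    (y : ∀ i, ZMod (e i)) (I : Finset (Fin r)) (l : List (Fin r)) (hnd : l.Nodup)
    (hlI : ∀ j ∈ l, j ∉ I) (i₀ : Fin r) (hi₀ : i₀ ∈ I) :
    ∑ i ∈ I.erase i₀, ((y i).val : ℚ) * wt e M i + ((y i₀).val : ℚ) * (M * (δ i₀ / e i₀))
      + (l.map fun j => ((y j).val * wt e M j : ℚ)).sum ≤
      M * ∑ i, ((y i).val : ℚ) * (δ i / e i) := by
  classical
  have h1 : (l.map fun j => ((y j).val * wt e M j : ℚ)).sum
      = ∑ j ∈ l.toFinset, ((y j).val : ℚ) * wt e M j := by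
    rw [List.sum_toFinset _ hnd]
  have hdisj : Disjoint (I.erase i₀) l.toFinset := Finset.disjoint_left.2 fun i hi hi' =>
    hlI i (List.mem_toFinset.1 hi') (Finset.mem_of_mem_erase hi)
  rw [h1]
  have h2 : ∀ i, ((y i).val : ℚ) * wt e M i ≤ M * (((y i).val : ℚ) * (δ i / e i)) := by
    intro i
    have h3 := h.wt_le hM hd i
    have h4 : (0 : ℚ) ≤ (y i).val := by positivity
    nlinarith
  have h3 : ∑ i ∈ I.erase i₀, ((y i).val : ℚ) * wt e M i
      + ∑ j ∈ l.toFinset, ((y j).val : ℚ) * wt e M j ≤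
      ∑ i ∈ Finset.univ.erase i₀, M * (((y i).val : ℚ) * (δ i / e i)) := by
    rw [← Finset.sum_union hdisj]
    calc ∑ j ∈ I.erase i₀ ∪ l.toFinset, ((y j).val : ℚ) * wt e M j
        ≤ ∑ j ∈ Finset.univ.erase i₀, ((y j).val : ℚ) * wt e M j := by
          refine Finset.sum_le_sum_of_subset_of_nonneg ?_ fun i _ _ => by positivity
          intro j hj
          rcases Finset.mem_union.1 hj with hj1 | hj1
          · exact Finset.mem_erase.2 ⟨Finset.ne_of_mem_erase hj1, Finset.mem_univ _⟩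
          · refine Finset.mem_erase.2 ⟨fun hji => ?_, Finset.mem_univ _⟩
            rw [hji] at hj1
            exact hlI i₀ (List.mem_toFinset.1 hj1) hi₀
      _ ≤ _ := Finset.sum_le_sum fun i _ => h2 i
  rw [Finset.mul_sum, ← Finset.add_sum_erase _ _ (Finset.mem_univ i₀)]
  have h4 : ((y i₀).val : ℚ) * (M * (δ i₀ / e i₀)) = M * (((y i₀).val : ℚ) * (δ i₀ / e i₀)) := by
    ring
  linarith

theorem sum_top_ge (h : Dat R δ e n) {M : ℕ} (J : Finset (Fin r)) (y : ∀ i, ZMod (e i))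
    (hy : ∀ i ∈ J, (y i).val = e i - 1) :
    (J.card : ℚ) * (M - 1) ≤ ∑ i ∈ J, ((y i).val : ℚ) * wt e M i + ∑ i ∈ J, ((wt e M i : ℚ) - 1) := by
  rw [← Finset.sum_add_distrib]
  have h5 : (J.card : ℚ) * ((M : ℚ) - 1) = ∑ i ∈ J, ((M : ℚ) - 1) := by
    rw [Finset.sum_const, nsmul_eq_mul]
  rw [h5]
  refine Finset.sum_le_sum fun i hi => ?_
  rw [hy i hi]
  exact wt_sum_ge h i

/-- the numerical inequality used several times -/
theorem num_ge {M g e' : ℚ} (he : 2 ≤ e') (hg : g ≤ e') (hgM : g ≤ M) (hg0 : 0 < g) :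
    1 ≤ M * (1 - 2 / e') + 3 - g := by
  have he0 : (0 : ℚ) < e' := by linarith
  have h1 : (0 : ℚ) ≤ 1 - 2 / e' := by
    have : 2 / e' ≤ 1 := by rw [div_le_one he0]; exact he
    linarith
  have h2 : g * (1 - 2 / e') ≤ M * (1 - 2 / e') := mul_le_mul_of_nonneg_right hgM h1
  have h3 : g * (2 / e') ≤ 2 := by
    rw [mul_div_assoc', div_le_iff₀ he0]
    linarith
  nlinarith

section
variable (h : Dat R δ e n) {M : ℕ} (hM : M ≠ 0) (hd : ∀ j, e j ∣ M * δ j)
    (hF : ∀ p : ℕ, p.Prime → p ∣ M →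
      n + 1 ≤ (Finset.univ.filter (fun j => p ^ M.factorization p ∣ e j)).card)
    (c : ℤ × (Fin r → ℤ)) (hβ : -((n : ℚ) + 1) * M + n + 2 ≤ M * bet δ e c)
include h hM hd hF hβ

/-- A monomial which does not vanish on `I`. -/
theorem E0' (I : Finset (Fin r)) (hI : I.card ≤ n) :
    ∃ (L : ℤ) (a : Fin r → ℕ), 0 ≤ L ∧ (M = 1 → 1 ≤ L) ∧ (∀ i ∈ I, a i = 0) ∧
      ((c.1 - L, fun i => c.2 i - (a i : ℤ)) : ℤ × (Fin r → ℤ)) ∈ R := by
  classical
  have hne := h.neZero
  obtain ⟨L, y, hy, _, hR, htop, hL⟩ := h.exists_mon c I hI (fun _ => 0) (rest I)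
  have h1 := h.L_ge hM hd y I (rest I) (rest_nodup I) (rest_notMem I)
  have h2 := TopE.sum (M := M) _ _ htop
  have h3 := tot_ge0 hM (Lam R e) n h.sur hF I hI (rest I) (rest_union I)
  have h4 := sum_top_ge h (M := M) I y (fun i hi => by rw [hy i hi, Nat.sub_zero])
  have h5 : (2 : ℚ) - M ≤ M * L := by
    rw [hL, mul_add]
    have h6 : ∑ i ∈ I, (((M / Nat.gcd M (e i) : ℕ) : ℚ) - 1) = ∑ i ∈ I, ((wt e M i : ℚ) - 1) := rfl
    rw [h6] at h3
    nlinarith
  have hMpos : (0 : ℚ) < M := by exact_mod_cast Nat.pos_of_ne_zero hM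
  refine ⟨L, aOf y, ?_, ?_, ?_, hR⟩
  · have h7 : (-1 : ℚ) < L := by
      by_contra hcon
      push Not at hcon
      nlinarith
    have h8 : (-1 : ℤ) < L := by exact_mod_cast h7
    omega
  · intro hM1
    rw [hM1] at h5
    have h7 : (1 : ℚ) ≤ L := by push_cast at h5; linarith
    exact_mod_cast h7
  · intro i hi
    rw [aOf, hy i hi]
    omega

/-- The lower bound, refined at a coordinate of `I`. -/
theorem low (I : Finset (Fin r)) (hI : I.card ≤ n) (i₀ : Fin r) (hi₀ : i₀ ∈ I)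
    (l : List (Fin r)) (hnd : l.Nodup) (hlI : ∀ j ∈ l, j ∉ I) (hlu : I ∪ l.toFinset = Finset.univ)
    (y : ∀ i, ZMod (e i)) (hy : ∀ i ∈ I, i ≠ i₀ → (y i).val = e i - 1)
    (htop : haveI := h.neZero; tot M (Lam R e) I l ≤
      (l.map fun j => ((y j).val * wt e M j : ℚ)).sum)
    {L : ℤ} (hL : (L : ℚ) = bet δ e c + ∑ i, ((y i).val : ℚ) * (δ i / e i)) :
    -(M : ℚ) + 3 - Nat.gcd M (e i₀) + ((y i₀).val : ℚ) * (M * (δ i₀ / e i₀)) ≤ M * L := by
  classical
  have hne := h.neZero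
  have h1 := h.L_ge1 hM hd y I l hnd hlI i₀ hi₀
  have h3 := tot_ge1 hM (Lam R e) n h.sur hF I hI l hlu i₀ hi₀
  have h4 := sum_top_ge h (M := M) (I.erase i₀) y (fun i hi =>
    hy i (Finset.mem_of_mem_erase hi) (Finset.ne_of_mem_erase hi))
  have h6 : ∑ i ∈ I.erase i₀, (((M / Nat.gcd M (e i) : ℕ) : ℚ) - 1)
    = ∑ i ∈ I.erase i₀, ((wt e M i : ℚ) - 1) := rfl
  rw [h6] at h3
  rw [Finset.card_erase_of_mem hi₀, Nat.cast_sub (Finset.card_pos.2 ⟨i₀, hi₀⟩), Nat.cast_one] at h4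
  rw [hL, mul_add]
  nlinarith

theorem e_gcd (i₀ : Fin r) : (2 : ℚ) ≤ e i₀ ∧ ((Nat.gcd M (e i₀) : ℕ) : ℚ) ≤ e i₀ ∧
    ((Nat.gcd M (e i₀) : ℕ) : ℚ) ≤ M ∧ (0 : ℚ) < (Nat.gcd M (e i₀) : ℕ) := by
  have h2 := h.two i₀
  refine ⟨by exact_mod_cast h2, ?_, ?_, ?_⟩
  · exact_mod_cast Nat.gcd_le_right _ (by omega)
  · exact_mod_cast Nat.gcd_le_left _ (Nat.pos_of_ne_zero hM)
  · exact_mod_cast Nat.gcd_pos_of_pos_left _ (Nat.pos_of_ne_zero hM)

/-- A monomial which does not vanish on `I`, with a coefficient of positive degree, if `I` contains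
a divisor of degree at least two. -/
theorem E1' (I : Finset (Fin r)) (hI : I.card ≤ n) (i₀ : Fin r) (hi₀ : i₀ ∈ I) (hδ : 2 ≤ δ i₀) :
    ∃ (L : ℤ) (a : Fin r → ℕ), 1 ≤ L ∧ (∀ i ∈ I, a i = 0) ∧
      ((c.1 - L, fun i => c.2 i - (a i : ℤ)) : ℤ × (Fin r → ℤ)) ∈ R := by
  classical
  have hne := h.neZero
  obtain ⟨L, y, hy, _, hR, htop, hL⟩ := h.exists_mon c I hI (fun _ => 0) (rest I)
  have h1 := low h hM hd hF c hβ I hI i₀ hi₀ (rest I) (rest_nodup I) (rest_notMem I) (rest_union I)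
    y (fun i hi _ => by rw [hy i hi, Nat.sub_zero]) (TopE.sum (M := M) _ _ htop) hL
  obtain ⟨he2, hg1, hg2, hg0⟩ := e_gcd h hM hd hF c hβ i₀
  have hnum := num_ge he2 hg1 hg2 hg0
  have hMpos : (0 : ℚ) < M := by exact_mod_cast Nat.pos_of_ne_zero hM
  have he0 : (0 : ℚ) < e i₀ := by linarith
  have h2 : ((y i₀).val : ℚ) = e i₀ - 1 := by
    rw [hy i₀ hi₀, Nat.sub_zero, Nat.cast_sub (by have := h.two i₀; omega), Nat.cast_one]
  have h3 : (2 * M : ℚ) * (1 - 1 / e i₀) ≤ ((y i₀).val : ℚ) * (M * (δ i₀ / e i₀)) := by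
    rw [h2]
    have h4 : (2 : ℚ) ≤ δ i₀ := by exact_mod_cast hδ
    have h5 : ((e i₀ : ℚ) - 1) * (M * (δ i₀ / e i₀)) = δ i₀ * M * (1 - 1 / e i₀) := by
      field_simp
    rw [h5]
    have h6 : (0 : ℚ) ≤ 1 - 1 / e i₀ := by
      have : 1 / (e i₀ : ℚ) ≤ 1 := by rw [div_le_one he0]; linarith
      linarith
    exact mul_le_mul_of_nonneg_right (mul_le_mul_of_nonneg_right h4 hMpos.le) h6
  have h4 : (1 : ℚ) ≤ M * L := by
    have h5 : (2 * M : ℚ) * (1 - 1 / e i₀) = M + M * (1 - 2 / e i₀) := by ring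
    linarith
  refine ⟨L, aOf y, ?_, fun i hi => by rw [aOf, hy i hi]; omega, hR⟩
  have h7 : (0 : ℚ) < L := by
    by_contra hcon
    push Not at hcon
    nlinarith
  exact_mod_cast (show (0 : ℤ) < L by exact_mod_cast h7)

/-- A monomial vanishing at exactly one of the divisors `D_i`, `i ∈ I`, to the first order. -/
theorem E2' (I : Finset (Fin r)) (hI : I.card ≤ n) (i₀ : Fin r) (hi₀ : i₀ ∈ I) :
    ∃ (L : ℤ) (a : Fin r → ℕ), 0 ≤ L ∧ a i₀ = 1 ∧ (∀ i ∈ I, i ≠ i₀ → a i = 0) ∧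
      ((c.1 - L, fun i => c.2 i - (a i : ℤ)) : ℤ × (Fin r → ℤ)) ∈ R := by
  classical
  have hne := h.neZero
  obtain ⟨L, y, hy, _, hR, htop, hL⟩ := h.exists_mon c I hI (fun i => if i = i₀ then 1 else 0)
    (rest I)
  have h1 := low h hM hd hF c hβ I hI i₀ hi₀ (rest I) (rest_nodup I) (rest_notMem I) (rest_union I)
    y (fun i hi hne => by rw [hy i hi, if_neg hne, Nat.sub_zero])
    (TopE.sum (M := M) _ _ htop) hL
  obtain ⟨he2, hg1, hg2, hg0⟩ := e_gcd h hM hd hF c hβ i₀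
  have hnum := num_ge he2 hg1 hg2 hg0
  have hMpos : (0 : ℚ) < M := by exact_mod_cast Nat.pos_of_ne_zero hM
  have he0 : (0 : ℚ) < e i₀ := by linarith
  have h2 : ((y i₀).val : ℚ) = e i₀ - 2 := by
    have h3 := h.two i₀
    rw [hy i₀ hi₀, if_pos rfl, Nat.sub_sub, Nat.cast_sub (by omega)]
    norm_num
  have h3 : (M : ℚ) * (1 - 2 / e i₀) ≤ ((y i₀).val : ℚ) * (M * (δ i₀ / e i₀)) := by
    rw [h2]
    have h4 : (1 : ℚ) ≤ δ i₀ := by exact_mod_cast h.δpos i₀
    have h5 : ((e i₀ : ℚ) - 2) * (M * (δ i₀ / e i₀)) = δ i₀ * (M * (1 - 2 / e i₀)) := by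
      field_simp
    rw [h5]
    have h6 : (0 : ℚ) ≤ M * (1 - 2 / e i₀) := by
      refine mul_nonneg hMpos.le ?_
      have : 2 / (e i₀ : ℚ) ≤ 1 := by rw [div_le_one he0]; linarith
      linarith
    nlinarith
  have h4 : (1 : ℚ) - M ≤ M * L := by linarith
  refine ⟨L, aOf y, ?_, ?_, ?_, hR⟩
  · have h7 : (-1 : ℚ) < L := by
      by_contra hcon
      push Not at hcon
      nlinarith
    have h8 : (-1 : ℤ) < L := by exact_mod_cast h7
    omega
  · have := h.two i₀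
    rw [aOf, hy i₀ hi₀, if_pos rfl]
    omega
  · intro i hi hne
    rw [aOf, hy i hi, if_neg hne]
    omega

/-- The differences of the classes of the monomials generate. -/
theorem E3' (I : Finset (Fin r)) (hI : I.card ≤ n) (Γ : AddSubgroup (∀ i, ZMod (e i)))
    (hΓ : ∀ y y', Good R e c I y → Good R e c I y' → y - y' ∈ Γ) :
    ∀ x ∈ van (Lam R e) I 0, x ∈ Γ := by
  classical
  have hne := h.neZero
  have hMpos : (0 : ℚ) < M := by exact_mod_cast Nat.pos_of_ne_zero hM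
  obtain ⟨L₀, z, hz, hzx, hR, htop, hL₀⟩ := h.exists_mon c I hI (fun _ => 0) (rest I)
  have hgood : ∀ y, y - z ∈ Lam R e → (∀ i ∈ I, y i = z i) →
      (∑ i ∈ I, (((M / Nat.gcd M (e i) : ℕ) : ℚ) - 1) + ((n : ℚ) - I.card) * (M - 1) - 1 ≤
        ((rest I).map fun j => ((y j).val * wt e M j : ℚ)).sum) → Good R e c I y := by
    intro y hyz hyI hsum
    have hval : ∀ i ∈ I, (y i).val = e i - 1 := by
      intro i hi
      rw [hyI i hi, hz i hi, Nat.sub_zero]
    have hyx : y - x0 e c ∈ Lam R e := by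
      have : y - x0 e c = (y - z) + (z - x0 e c) := by abel
      rw [this]
      exact (Lam R e).add_mem hyz hzx
    obtain ⟨L, hL1, hL2⟩ := h.exists_L c y hyx
    refine ⟨fun i hi => by rw [aOf, hval i hi]; omega, L, ?_, hL1⟩
    have h1 := h.L_ge hM hd y I (rest I) (rest_nodup I) (rest_notMem I)
    have h4 := sum_top_ge h (M := M) I y hval
    have h6 : ∑ i ∈ I, (((M / Nat.gcd M (e i) : ℕ) : ℚ) - 1) = ∑ i ∈ I, ((wt e M i : ℚ) - 1) := rfl
    rw [h6] at hsum
    have h5 : (1 : ℚ) - M ≤ M * L := by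
      rw [hL2, mul_add]
      nlinarith
    have h7 : (-1 : ℚ) < L := by
      by_contra hcon
      push Not at hcon
      nlinarith
    have h8 : (-1 : ℤ) < L := by exact_mod_cast h7
    omega
  have hzgood : Good R e c I z := hgood z (by rw [sub_self]; exact (Lam R e).zero_mem)
    (fun _ _ => rfl) (by
      have h1 := TopE.sum (M := M) _ _ htop
      have h2 := tot_ge0 hM (Lam R e) n h.sur hF I hI (rest I) (rest_union I)
      linarith)
  refine gen2 (M := M) (Lam R e) z Γ (rest I) I (rest_union I) htop fun y h1 h2 h3 =>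
    hΓ y z (hgood y h1 h2 ?_) hzgood
  obtain ⟨l₁, j, l₂, hl, hg, hle⟩ := h3
  refine le_trans ?_ hle
  exact tot_second hM (Lam R e) n h.sur hF I hI l₁ l₂ j (by rw [← hl]; exact rest_union I) hg

/-- The good monomials of positive degree in the last case. -/
theorem E4' (I : Finset (Fin r)) (hI : I.card ≤ n) (t' : Fin r) (ht' : t' ∈ I) (t : Fin r)
    (ht : t ∉ I) (hδ' : δ t' = 1) (hδ : δ t = 1) (hee : e t' ≤ e t)
    (hvan : ∀ x ∈ van (Lam R e) I 0, x t = 0)
    (htop' : ∀ y, Good R e c I y → (y t).val = e t - 1) :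
    ∃ (L : ℤ) (a : Fin r → ℕ), 1 ≤ L ∧ (∀ i ∈ I, a i = 0) ∧
      ((c.1 - L, fun i => c.2 i - (a i : ℤ)) : ℤ × (Fin r → ℤ)) ∈ R := by
  classical
  have hne := h.neZero
  have hMpos : (0 : ℚ) < M := by exact_mod_cast Nat.pos_of_ne_zero hM
  set l' := rest (insert t I) with hl'
  have hnd : (t :: l').Nodup := by
    rw [List.nodup_cons]
    refine ⟨fun h1 => ?_, rest_nodup _⟩
    exact rest_notMem _ _ h1 (Finset.mem_insert_self _ _)
  have hlI : ∀ j ∈ t :: l', j ∉ I := by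
    intro j hj
    rcases List.mem_cons.1 hj with rfl | hj
    · exact ht
    · exact fun h1 => rest_notMem _ _ hj (Finset.mem_insert_of_mem h1)
  have hlu : I ∪ (t :: l').toFinset = Finset.univ := by
    rw [← rest_union (insert t I), List.toFinset_cons, hl']
    ext w
    simp only [Finset.mem_union, Finset.mem_insert]
    tauto
  obtain ⟨L, y, hy, hyx, hR, htop, hL⟩ := h.exists_mon c I hI (fun _ => 0) (t :: l')
  -- `y` is good
  have hgoodL : 0 ≤ L := by
    have h1 := h.L_ge hM hd y I (t :: l') hnd hlI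
    have h2 := TopE.sum (M := M) _ _ htop
    have h3 := tot_ge0 hM (Lam R e) n h.sur hF I hI (t :: l') hlu
    have h4 := sum_top_ge h (M := M) I y (fun i hi => by rw [hy i hi, Nat.sub_zero])
    have h5 : (2 : ℚ) - M ≤ M * L := by
      rw [hL, mul_add]
      have h6 : ∑ i ∈ I, (((M / Nat.gcd M (e i) : ℕ) : ℚ) - 1)
        = ∑ i ∈ I, ((wt e M i : ℚ) - 1) := rfl
      rw [h6] at h3
      nlinarith
    have h7 : (-1 : ℚ) < L := by
      by_contra hcon
      push Not at hcon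
      nlinarith
    have h8 : (-1 : ℤ) < L := by exact_mod_cast h7
    omega
  have hgood : Good R e c I y :=
    ⟨fun i hi => by rw [aOf, hy i hi]; omega, L, hgoodL, hR⟩
  have hyt := htop' y hgood
  -- the projection at `t` is trivial
  have hprj : Nat.card (prj (Lam R e) I 0 t) = 1 := by
    rw [AddSubgroup.card_eq_one, eq_bot_iff]
    rintro _ ⟨x, hx, rfl⟩
    rw [AddSubgroup.mem_bot]
    exact hvan x hx
  have htot : tot M (Lam R e) I (t :: l') = tot M (Lam R e) (insert t I) l' := by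
    rw [tot, hprj]
    simp
  have hsum' := TopE.sum (M := M) _ _ htop.2
  rw [← htot] at hsum'
  -- the weight of `t`
  have hwt : (wt e M t : ℚ) = M / e t := by
    have h1 : e t ∣ M := by
      have := hd t
      rwa [hδ, mul_one] at this
    rw [wt, Nat.gcd_eq_right h1, Nat.cast_div h1 (by exact_mod_cast (hne t).ne)]
  -- the modified `y`: the coordinate `t` does not contribute to `tot`
  have h1 := h.L_ge1 hM hd y I (t :: l') hnd hlI t' ht'
  rw [List.map_cons, List.sum_cons] at h1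
  have h3 := tot_ge1 hM (Lam R e) n h.sur hF I hI (t :: l') hlu t' ht'
  have h4 := sum_top_ge h (M := M) (I.erase t') y (fun i hi => by
    rw [hy i (Finset.mem_of_mem_erase hi), Nat.sub_zero])
  have h6 : ∑ i ∈ I.erase t', (((M / Nat.gcd M (e i) : ℕ) : ℚ) - 1)
    = ∑ i ∈ I.erase t', ((wt e M i : ℚ) - 1) := rfl
  rw [h6] at h3
  rw [Finset.card_erase_of_mem ht', Nat.cast_sub (Finset.card_pos.2 ⟨t', ht'⟩), Nat.cast_one] at h4
  obtain ⟨he2, hg1, hg2, hg0⟩ := e_gcd h hM hd hF c hβ t'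
  have hnum := num_ge he2 hg1 hg2 hg0
  have he0 : (0 : ℚ) < e t' := by linarith
  have het : (e t' : ℚ) ≤ e t := by exact_mod_cast hee
  have het0 : (0 : ℚ) < e t := by linarith
  have h7 : ((y t').val : ℚ) * (M * (δ t' / e t')) = M - M / e t' := by
    rw [hy t' ht', Nat.sub_zero, Nat.cast_sub (by have := h.two t'; omega), hδ']
    field_simp
    push_cast
    ring
  have h8 : ((y t).val : ℚ) * wt e M t = M - M / e t := by
    rw [hyt, Nat.cast_sub (by have := h.two t; omega), hwt]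
    field_simp
    push_cast
    ring
  have h9 : (M : ℚ) / e t ≤ M / e t' := div_le_div_of_nonneg_left hMpos.le he0 het
  have h10 : (1 : ℚ) ≤ M * L := by
    rw [hL, mul_add]
    have h11 : (M : ℚ) * (1 - 2 / e t') = M - 2 * (M / e t') := by ring
    rw [h11] at hnum
    rw [h7, h8] at h1
    nlinarith
  refine ⟨L, aOf y, ?_, fun i hi => by rw [aOf, hy i hi]; omega, hR⟩
  have h12 : (0 : ℚ) < L := by
    by_contra hcon
    push Not at hcon
    nlinarith
  exact_mod_cast (show (0 : ℤ) < L by exact_mod_cast h12)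

end

end Pool.Agent.K3h47.FU
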