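import Pool.Agent.K3h47.FU.Main
import Pool.Agent.K3h47.FU.EE2
import Pool.Agent.H952R2.Sextic.CommonZero

/-! Separation of points and of tangent vectors on an abelian cover of projective space. -/

set_option autoImplicit false
set_option linter.unusedSectionVars false

namespace Pool.Agent.K3h47.FU

open MvPolynomial

variable {n r : ℕ} {R : AddSubgroup (ℤ × (Fin r → ℤ))} {δ e : Fin r → ℕ}

/-- a form of degree one is linear -/
theorem lin_form {N : ℕ} {p : MvPolynomial (Fin (N + 1)) ℂ} (hp : p.IsHomogeneous 1) :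
    ∃ c : Fin (N + 1) → ℂ, (∀ x, eval x p = ∑ k, c k * x k) ∧
      ∀ x k, eval x (pderiv k p) = c k := by
  have h1 : ∀ k, ∃ c : ℂ, pderiv k p = C c := by
    intro k
    have h2 : (pderiv k p).IsHomogeneous 0 := by
      have := hp.pderiv (i := k)
      simpa using this
    have h3 : (pderiv k p).totalDegree = 0 := Nat.le_zero.1 h2.totalDegree_le
    exact ⟨_, (totalDegree_eq_zero_iff_eq_C).1 h3⟩
  choose c hc using h1
  refine ⟨c, fun x => ?_, fun x k => by rw [hc k, eval_C]⟩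
  have h2 := congrArg (eval x) hp.sum_X_mul_pderiv
  rw [map_sum, one_smul] at h2
  rw [← h2]
  refine Finset.sum_congr rfl fun k _ => ?_
  rw [map_mul, eval_X, hc k, eval_C, mul_comm]

/-- a point of the line through two points where a form vanishes -/
theorem exists_on_line {N : ℕ} {p : MvPolynomial (Fin (N + 1)) ℂ} {d : ℕ} (hd : 0 < d)
    (hp : p.IsHomogeneous d) (x u : Fin (N + 1) → ℂ) :
    ∃ α β : ℂ, (α ≠ 0 ∨ β ≠ 0) ∧ eval (fun k => α * x k + β * u k) p = 0 := by
  set g : Fin (N + 1) → MvPolynomial (Fin 2) ℂ := fun k => X 0 * C (x k) + X 1 * C (u k) with hg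
  have hev : ∀ v : Fin 2 → ℂ, eval v (bind₁ g p) = eval (fun k => v 0 * x k + v 1 * u k) p := by
    intro v
    have h1 : eval v (bind₁ g p) = eval (fun k => eval v (g k)) p := by
      have := eval₂Hom_bind₁ (RingHom.id ℂ) v g p
      simpa using this
    rw [h1]
    congr 2
    funext k
    simp [hg]
  obtain ⟨v, hv, h⟩ := Pool.Agent.H952R2.Sextic.exists_common_zero (K := ℂ) (ι := Fin 2)
    (κ := Unit) (by simp) (fun _ => bind₁ g p) (by
      intro _
      rw [hev]
      have := eval_hom hp 0 (0 : Fin (N + 1) → ℂ)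
      rw [zero_pow hd.ne', zero_mul] at this
      rw [← this]
      congr 2
      funext k
      simp)
  refine ⟨v 0, v 1, ?_, by rw [← hev]; exact h ()⟩
  by_contra hcon
  push Not at hcon
  exact hv (funext fun k => by fin_cases k; exacts [hcon.1, hcon.2])

section
variable (h : Dat R δ e n) {M : ℕ} (hM : M ≠ 0) (hd : ∀ j, e j ∣ M * δ j)
    (hF : ∀ p : ℕ, p.Prime → p ∣ M →
      n + 1 ≤ (Finset.univ.filter (fun j => p ^ M.factorization p ∣ e j)).card)
    (c : ℤ × (Fin r → ℤ)) (hβ : -((n : ℚ) + 1) * M + n + 2 ≤ M * bet δ e c)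
    (hex : M = 1 ∨ (∃ i, 2 ≤ δ i) ∨ ∀ I : Finset (Fin r), I.card + 1 ≤ n →
      ∃ (L : ℤ) (a : Fin r → ℕ), 1 ≤ L ∧ (∀ i ∈ I, a i = 0) ∧
        ((c.1 - L, fun i => c.2 i - (a i : ℤ)) : ℤ × (Fin r → ℤ)) ∈ R)
include h hM hd hF hβ hex

/-- monomials with coefficients of positive degree -/
theorem exists_pos (I : Finset (Fin r)) (hI : I.card ≤ n) :
    (∃ (L : ℤ) (a : Fin r → ℕ), 1 ≤ L ∧ (∀ i ∈ I, a i = 0) ∧
      ((c.1 - L, fun i => c.2 i - (a i : ℤ)) : ℤ × (Fin r → ℤ)) ∈ R) ∨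
    (M ≠ 1 ∧ I.card = n ∧ ∀ i ∈ I, δ i = 1) := by
  classical
  by_cases hM1 : M = 1
  · obtain ⟨L, a, _, h1, h2, h3⟩ := E0' h hM hd hF c hβ I hI
    exact Or.inl ⟨L, a, h1 hM1, h2, h3⟩
  have hex1 := hex.resolve_left hM1
  by_cases h1 : ∃ i ∈ I, 2 ≤ δ i
  · obtain ⟨i, hi, hδ⟩ := h1
    exact Or.inl (E1' h hM hd hF c hβ I hI i hi hδ)
  push Not at h1
  by_cases h2 : I.card = n
  · refine Or.inr ⟨hM1, h2, fun i hi => ?_⟩
    have := h1 i hi
    have := h.δpos i
    omega
  · rcases hex1 with ⟨i₁, hi₁⟩ | hex2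
    · obtain ⟨L, a, h3, h4, h5⟩ := E1' h hM hd hF c hβ (insert i₁ I) (by
        have := Finset.card_insert_le i₁ I
        omega) i₁ (Finset.mem_insert_self _ _) hi₁
      exact Or.inl ⟨L, a, h3, fun i hi => h4 i (Finset.mem_insert_of_mem hi), h5⟩
    · exact Or.inl (hex2 I (by omega))

omit h hM hd hF hβ hex in
theorem prod_ne' {z : Fin r → ℂ} {a : Fin r → ℕ}
    (ha : ∀ i ∈ Finset.univ.filter (fun i => z i = 0), a i = 0) : ∏ i, z i ^ a i ≠ 0 := by
  refine Finset.prod_ne_zero_iff.2 fun i _ => ?_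
  by_cases hi : z i = 0
  · rw [ha i (by simp [hi]), pow_zero]
    exact one_ne_zero
  · exact pow_ne_zero _ hi

omit h hM hd hF hβ hex in
theorem sec_mono {N : ℕ} {L : ℕ} {a : Fin r → ℕ} (v v' : Fin (N + 1) → ℂ)
    (hR : ((c.1 - (L + 1 : ℕ), fun i => c.2 i - (a i : ℤ)) : ℤ × (Fin r → ℤ)) ∈ R) :
    Sec R c (mono N a * (lf r v * lf r v' ^ L)) := by
  refine Bi.sec (L := L + 1) (a := a) ?_ hR
  have := (Bi.mono (N := N) a).mul ((Bi.lf (r := r) v).mul ((Bi.lf (r := r) v').pow L))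
  have h1 : 0 + (1 + 1 * L) = L + 1 := by omega
  rw [h1] at this
  simpa using this

omit h hM hd hF hβ hex in
/-- separation by a monomial with a coefficient of positive degree -/
theorem sep_pos {N : ℕ} (x x' : Fin (N + 1) → ℂ) (z z' : Fin r → ℂ)
    (hxx : ¬ ∃ s : ℂ, ∀ k, x' k = s * x k)
    (hmon : ∃ (L : ℤ) (a : Fin r → ℕ), 1 ≤ L ∧
      (∀ i ∈ Finset.univ.filter (fun i => z' i = 0), a i = 0) ∧
      ((c.1 - L, fun i => c.2 i - (a i : ℤ)) : ℤ × (Fin r → ℤ)) ∈ R) :
    ∃ Φ : MvPolynomial (Fin (N + 1) ⊕ Fin r) ℂ, Sec R c Φ ∧ eval (Sum.elim x z) Φ = 0 ∧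
      eval (Sum.elim x' z') Φ ≠ 0 := by
  obtain ⟨L, a, hL, ha, hR⟩ := hmon
  lift L to ℕ using (by omega)
  obtain ⟨L, rfl⟩ : ∃ L', L = L' + 1 := ⟨L - 1, by omega⟩
  obtain ⟨v, hv0, hv1⟩ := exists_lf hxx
  refine ⟨_, sec_mono c v v hR, ?_, ?_⟩
  · rw [map_mul, map_mul, eval_lf, hv0]
    ring
  · rw [map_mul, map_mul, map_pow, eval_mono, eval_lf]
    exact mul_ne_zero (prod_ne' ha) (mul_ne_zero hv1 (pow_ne_zero _ hv1))

/-- no base points -/
theorem bpf' {N : ℕ} (x : Fin (N + 1) → ℂ) (hx : x ≠ 0) (z : Fin r → ℂ)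
    (hI : (Finset.univ.filter (fun i => z i = 0)).card ≤ n) :
    ∃ Φ : MvPolynomial (Fin (N + 1) ⊕ Fin r) ℂ, Sec R c Φ ∧ eval (Sum.elim x z) Φ ≠ 0 := by
  obtain ⟨v, hv⟩ := exists_lf_one hx
  obtain ⟨L, a, hL, _, ha, hR⟩ := E0' h hM hd hF c hβ _ hI
  lift L to ℕ using hL
  refine ⟨mono N a * lf r v ^ L, ?_, ?_⟩
  · refine Bi.sec (L := L) (a := a) ?_ hR
    have := (Bi.mono (N := N) a).mul ((Bi.lf (r := r) v).pow L)
    simpa using this
  · rw [map_mul, map_pow, eval_mono, eval_lf]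
    exact mul_ne_zero (prod_ne' ha) (pow_ne_zero _ hv)

variable (f : Fin r → MvPolynomial (Fin (n + 1)) ℂ) (hf : ∀ i, (f i).IsHomogeneous (δ i))
  (hfew : ∀ (x : Fin (n + 1) → ℂ) (z : Fin r → ℂ), x ≠ 0 → (∀ i, z i ^ e i = eval x (f i)) →
    (Finset.univ.filter (fun i => z i = 0)).card ≤ n)
include hf hfew

/-- `n` hyperplanes meet in one point -/
theorem indep (hM1 : M ≠ 1) (I : Finset (Fin r)) (hIc : I.card = n) (hIδ : ∀ i ∈ I, δ i = 1)
    (x u : Fin (n + 1) → ℂ) (hx : x ≠ 0) (hxu : ¬ ∃ s : ℂ, ∀ k, u k = s * x k)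
    (hxI : ∀ i ∈ I, eval x (f i) = 0) (huI : ∀ i ∈ I, eval u (f i) = 0) : False := by
  classical
  -- another divisor
  obtain ⟨p, hp, hpM⟩ := Nat.exists_prime_and_dvd hM1
  have h1 := hF p hp hpM
  obtain ⟨j, _, hjI⟩ := Finset.exists_mem_notMem_of_card_lt_card
    (s := I) (t := Finset.univ.filter (fun j => p ^ M.factorization p ∣ e j)) (by omega)
  obtain ⟨α, β, hαβ, h2⟩ := exists_on_line (h.δpos j) (hf j) x u
  set y : Fin (n + 1) → ℂ := fun k => α * x k + β * u k with hy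
  have hy0 : y ≠ 0 := by
    intro h3
    by_cases hβ0 : β = 0
    · obtain ⟨k, hk⟩ := Function.ne_iff.1 hx
      have h4 := congrFun h3 k
      simp only [hy, hβ0, zero_mul, add_zero, Pi.zero_apply] at h4
      have hα : α ≠ 0 := hαβ.resolve_right (by simpa using hβ0)
      exact (mul_eq_zero.1 h4).elim hα hk
    · refine hxu ⟨-α / β, fun k => ?_⟩
      have h4 := congrFun h3 k
      simp only [hy, Pi.zero_apply] at h4
      field_simp
      linear_combination h4
  have hyI : ∀ i ∈ insert j I, eval y (f i) = 0 := by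
    intro i hi
    rcases Finset.mem_insert.1 hi with rfl | hi
    · exact h2
    · have h3 := hf i
      rw [hIδ i hi] at h3
      obtain ⟨w, hw, _⟩ := lin_form h3
      have h4 := hxI i hi
      have h5 := huI i hi
      rw [hw] at h4 h5 ⊢
      simp only [hy]
      have h6 : ∑ k, w k * (α * x k + β * u k) = α * ∑ k, w k * x k + β * ∑ k, w k * u k := by
        rw [Finset.mul_sum, Finset.mul_sum, ← Finset.sum_add_distrib]
        exact Finset.sum_congr rfl fun k _ => by ring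
      rw [h6, h4, h5]
      ring
  have hz : ∀ i, ∃ z : ℂ, z ^ e i = eval y (f i) := fun i =>
    IsAlgClosed.exists_pow_nat_eq _ (Nat.pos_of_ne_zero (h.neZero i).ne)
  choose z hz using hz
  have h7 := hfew y z hy0 hz
  have h8 : insert j I ⊆ Finset.univ.filter (fun i => z i = 0) := by
    intro i hi
    rw [Finset.mem_filter]
    refine ⟨Finset.mem_univ i, ?_⟩
    have h9 := hz i
    rw [hyI i hi] at h9
    exact (pow_eq_zero_iff (h.neZero i).ne).1 h9
  have h9 := Finset.card_le_card h8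
  rw [Finset.card_insert_of_notMem hjI, hIc] at h9
  omega

omit hf hfew in
/-- the last case -/
theorem key4 {N : ℕ} (x x' : Fin (N + 1) → ℂ) (hx' : x' ≠ 0) (z z' : Fin r → ℂ)
    (hxx : ¬ ∃ s : ℂ, ∀ k, x' k = s * x k)
    (hI' : (Finset.univ.filter (fun i => z' i = 0)).card ≤ n)
    (t t' : Fin r) (ht : z t = 0) (ht1 : z' t ≠ 0) (ht' : z' t' = 0)
    (hδ : δ t = 1) (hδ' : δ t' = 1) (hee : e t' ≤ e t)
    (hcon : ∀ Φ : MvPolynomial (Fin (N + 1) ⊕ Fin r) ℂ, Sec R c Φ → eval (Sum.elim x z) Φ = 0 →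
      eval (Sum.elim x' z') Φ = 0) : False := by
  classical
  set I' := Finset.univ.filter (fun i => z' i = 0) with hI'def
  have htI : t ∉ I' := by simp [hI'def, ht1]
  have htI' : t' ∈ I' := by simp [hI'def, ht']
  have htop : ∀ y, Good R e c I' y → (y t).val = e t - 1 := by
    rintro y ⟨hy, L, hL, hR⟩
    by_contra hne
    have hat : aOf y t ≠ 0 := by
      haveI := h.neZero t
      have := ZMod.val_lt (y t)
      rw [aOf]
      omega
    obtain ⟨v, hv⟩ := exists_lf_one hx'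
    lift L to ℕ using hL
    have hs : Sec R c (mono N (aOf y) * lf r v ^ L) := by
      refine Bi.sec (L := L) (a := aOf y) ?_ hR
      have := (Bi.mono (N := N) (aOf y)).mul ((Bi.lf (r := r) v).pow L)
      simpa using this
    have h1 := hcon _ hs (by
      rw [map_mul, eval_mono, Finset.prod_eq_zero (Finset.mem_univ t) (by
        rw [ht, zero_pow hat]), zero_mul])
    rw [map_mul, map_pow, eval_mono, eval_lf] at h1
    exact (mul_ne_zero (prod_ne' hy) (pow_ne_zero _ hv)) h1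
  let Γ : AddSubgroup (∀ i, ZMod (e i)) := (Pi.evalAddMonoidHom (fun i => ZMod (e i)) t).ker
  have hvan := E3' h hM hd hF c hβ I' hI' Γ (by
    intro y y' hy hy'
    haveI := h.neZero t
    rw [AddMonoidHom.mem_ker, Pi.evalAddMonoidHom_apply, Pi.sub_apply, sub_eq_zero]
    exact ZMod.val_injective _ (by rw [htop y hy, htop y' hy']))
  have hmon := E4' h hM hd hF c hβ I' hI' t' htI' t htI hδ' hδ hee (fun w hw => hvan w hw) htop
  obtain ⟨Φ, h1, h2, h3⟩ := sep_pos c x x' z z' hxx hmon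
  exact h3 (hcon Φ h1 h2)

theorem pts' (x x' : Fin (n + 1) → ℂ) (hx : x ≠ 0) (hx' : x' ≠ 0) (z z' : Fin r → ℂ)
    (hz : ∀ i, z i ^ e i = eval x (f i)) (hz' : ∀ i, z' i ^ e i = eval x' (f i))
    (hne : ¬ ∃ (s : ℂˣ) (t : Fin r → ℂˣ), (∀ ρ ∈ R, chi ρ s t = 1) ∧
      (∀ k, x' k = s * x k) ∧ ∀ i, z' i = t i * z i) :
    ∃ Φ : MvPolynomial (Fin (n + 1) ⊕ Fin r) ℂ, Sec R c Φ ∧ eval (Sum.elim x z) Φ = 0 ∧
      eval (Sum.elim x' z') Φ ≠ 0 := by
  classical
  have hI := hfew x z hx hz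
  have hI' := hfew x' z' hx' hz'
  by_cases hxx : ∃ s : ℂ, ∀ k, x' k = s * x k
  · obtain ⟨s, hs⟩ := hxx
    have hs0 : s ≠ 0 := by
      rintro rfl
      exact hx' (funext fun k => by rw [hs k, zero_mul]; rfl)
    obtain ⟨t, ht⟩ := exists_t (fun i => (h.neZero i).ne) h.deg (Units.mk0 s hs0)
    by_contra hcon
    push Not at hcon
    have hxe : (fun k => ((Units.mk0 s hs0 : ℂˣ) : ℂ) * x k) = x' := by
      funext k
      rw [hs k, Units.val_mk0]
    set w : Fin r → ℂ := fun i => (t i : ℂ) * z i with hw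
    have hwe : ∀ i, w i ^ e i = eval x' (f i) := by
      intro i
      have h1 := ht _ (h.rel i)
      have h2 : (t i) ^ e i = (Units.mk0 s hs0) ^ δ i := by
        rw [chi, Finset.prod_eq_single i] at h1
        · simp only [Pi.single_eq_same, zpow_neg, zpow_natCast] at h1
          rw [inv_mul_eq_one] at h1
          exact h1.symm
        · intro j _ hj
          simp only
          rw [Pi.single_eq_of_ne hj, zpow_zero]
        · intro h3
          exact absurd (Finset.mem_univ i) h3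
      have h3 : (t i : ℂ) ^ e i = s ^ δ i := by
        have := congrArg (Units.val) h2
        simpa using this
      rw [hw]
      simp only
      rw [mul_pow, h3, hz i]
      rw [show x' = fun k => s * x k from funext hs, eval_hom (hf i)]
    have hIe : Finset.univ.filter (fun i => w i = 0) = Finset.univ.filter (fun i => z' i = 0) := by
      ext i
      simp only [Finset.mem_filter, Finset.mem_univ, true_and]
      rw [← pow_eq_zero_iff (h.neZero i).ne, hwe i, ← hz' i, pow_eq_zero_iff (h.neZero i).ne]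
    obtain ⟨t', ht', hzt⟩ := same_fibre h c x' hx' w z' (fun i => by rw [hz' i, hwe i])
      (by rw [hIe]; exact hI')
      (by
        rw [hIe]
        exact fun Γ hΓ => E3' h hM hd hF c hβ _ hI' Γ hΓ)
      (fun Φ hΦ h0 => by
        refine hcon Φ hΦ ?_
        have h1 := hΦ _ _ ht x z
        rw [hxe] at h1
        rw [show (fun i => (t i : ℂ) * z i) = w from rfl, h0] at h1
        exact (mul_eq_zero.1 h1.symm).resolve_left (Units.ne_zero _))
    refine hne ⟨Units.mk0 s hs0, fun i => t' i * t i, ?_, fun k => by rw [hs k, Units.val_mk0], ?_⟩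
    · intro ρ hρ
      have h1 := ht ρ hρ
      have h2 := ht' ρ hρ
      rw [chi] at h1 h2 ⊢
      rw [one_zpow, one_mul] at h2
      simp only [mul_zpow, Finset.prod_mul_distrib]
      rw [h2, one_mul, h1]
    · intro i
      rw [hzt i, hw]
      push_cast
      ring
  · -- different points of the base
    by_contra hcon
    push Not at hcon
    have hxx' : ¬ ∃ s : ℂ, ∀ k, x k = s * x' k := by
      rintro ⟨s, hs⟩
      have hs0 : s ≠ 0 := by
        rintro rfl
        exact hx (funext fun k => by rw [hs k, zero_mul]; rfl)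
      exact hxx ⟨s⁻¹, fun k => by rw [hs k]; field_simp⟩
    -- the symmetric statement
    have hsym : ∀ Φ : MvPolynomial (Fin (n + 1) ⊕ Fin r) ℂ, Sec R c Φ →
        eval (Sum.elim x' z') Φ = 0 → eval (Sum.elim x z) Φ = 0 := by
      intro Φ hΦ h0
      by_contra h1
      obtain ⟨Ψ, hΨ, hΨ1⟩ := bpf' h hM hd hF c hβ hex x' hx' z' hI'
      have h2 := hcon _ (hΨ.add hΦ (eval (Sum.elim x z) Φ) (- eval (Sum.elim x z) Ψ)) (by
        rw [map_add, map_mul, map_mul, eval_C, eval_C]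
        ring)
      rw [map_add, map_mul, map_mul, eval_C, eval_C, h0, mul_zero, add_zero] at h2
      exact (mul_ne_zero h1 hΨ1) h2
    rcases exists_pos h hM hd hF c hβ hex _ hI' with hmon | ⟨hM1, hIc', hIδ'⟩
    · obtain ⟨Φ, h1, h2, h3⟩ := sep_pos c x x' z z' hxx hmon
      exact h3 (hcon Φ h1 h2)
    rcases exists_pos h hM hd hF c hβ hex _ hI with hmon | ⟨_, hIc, hIδ⟩
    · obtain ⟨Φ, h1, h2, h3⟩ := sep_pos c x' x z' z hxx' hmon
      exact h3 (hsym Φ h1 h2)
    set I := Finset.univ.filter (fun i => z i = 0) with hIdef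
    set I' := Finset.univ.filter (fun i => z' i = 0) with hI'def
    have hxI : ∀ i ∈ I, eval x (f i) = 0 := by
      intro i hi
      rw [← hz i, (Finset.mem_filter.1 hi).2, zero_pow (h.neZero i).ne]
    have hxI' : ∀ i ∈ I', eval x' (f i) = 0 := by
      intro i hi
      rw [← hz' i, (Finset.mem_filter.1 hi).2, zero_pow (h.neZero i).ne]
    have hII : I ≠ I' := by
      intro hII
      refine indep h hM hd hF c hβ hex f hf hfew hM1 I hIc hIδ x x' hx hxx hxI ?_
      rw [hII]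
      exact hxI'
    obtain ⟨t, ht, ht1⟩ : ∃ t ∈ I, t ∉ I' := by
      by_contra h1
      push Not at h1
      exact hII (Finset.eq_of_subset_of_card_le h1 (by rw [hIc, hIc']))
    obtain ⟨t', ht', ht1'⟩ : ∃ t ∈ I', t ∉ I := by
      by_contra h1
      push Not at h1
      exact hII (Finset.eq_of_subset_of_card_le h1 (by rw [hIc, hIc'])).symm
    rw [hIdef, Finset.mem_filter] at ht ht1'
    rw [hI'def, Finset.mem_filter] at ht' ht1
    have ht2 : z' t ≠ 0 := fun h1 => ht1 ⟨Finset.mem_univ _, h1⟩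
    have ht2' : z t' ≠ 0 := fun h1 => ht1' ⟨Finset.mem_univ _, h1⟩
    have hδt : δ t = 1 := hIδ t (Finset.mem_filter.2 ht)
    have hδt' : δ t' = 1 := hIδ' t' (Finset.mem_filter.2 ht')
    rcases le_total (e t') (e t) with hle | hle
    · exact key4 h hM hd hF c hβ hex x x' hx' z z' hxx hI' t t' ht.2 ht2 ht'.2 hδt hδt' hle hcon
    · exact key4 h hM hd hF c hβ hex x' x hx z' z hxx' hI t' t ht'.2 ht2' ht.2 hδt' hδt hle hsym

theorem tan' (x u : Fin (n + 1) → ℂ) (hx : x ≠ 0) (z v : Fin r → ℂ)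
    (hz : ∀ i, z i ^ e i = eval x (f i))
    (hv : ∀ i, e i * z i ^ (e i - 1) * v i = ∑ k, eval x (pderiv k (f i)) * u k)
    (hne : ¬ ∃ σ : ℂ, (∀ k, u k = σ * x k) ∧ ∀ i, v i = σ * (δ i / e i) * z i) :
    ∃ Φ : MvPolynomial (Fin (n + 1) ⊕ Fin r) ℂ, Sec R c Φ ∧ eval (Sum.elim x z) Φ = 0 ∧
      dd (Sum.elim x z) (Sum.elim u v) Φ ≠ 0 := by
  classical
  have hI := hfew x z hx hz
  by_cases hxu : ∃ σ : ℂ, ∀ k, u k = σ * x k
  · obtain ⟨σ, hσ⟩ := hxu
    obtain ⟨i₀, hi₀⟩ : ∃ i, v i ≠ σ * (δ i / e i) * z i := by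
      by_contra hcon
      push Not at hcon
      exact hne ⟨σ, hσ, hcon⟩
    have hz0 : z i₀ = 0 := by
      by_contra h0
      apply hi₀
      have h1 := hv i₀
      have h2 : ∑ k, eval x (pderiv k (f i₀)) * u k = σ * (δ i₀ * z i₀ ^ e i₀) := by
        have h3 := congrArg (eval x) (hf i₀).sum_X_mul_pderiv
        rw [map_sum, map_nsmul, nsmul_eq_mul, ← hz i₀] at h3
        rw [← h3, Finset.mul_sum]
        refine Finset.sum_congr rfl fun k _ => ?_
        rw [hσ k, map_mul, eval_X]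
        ring
      rw [h2] at h1
      have h3 : e i₀ = e i₀ - 1 + 1 := by have := h.two i₀; omega
      have h4 : z i₀ ^ e i₀ = z i₀ ^ (e i₀ - 1) * z i₀ := by rw [← pow_succ, ← h3]
      rw [h4] at h1
      have h5 : (e i₀ : ℂ) ≠ 0 := by exact_mod_cast (h.neZero i₀).ne
      have h6 : z i₀ ^ (e i₀ - 1) ≠ 0 := pow_ne_zero _ h0
      have h7 : (e i₀ : ℂ) * v i₀ = σ * (δ i₀ * z i₀) := by
        refine mul_left_cancel₀ h6 ?_
        linear_combination h1
      field_simp
      linear_combination h7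
    have hv0 : v i₀ ≠ 0 := by
      rw [hz0, mul_zero] at hi₀
      exact hi₀
    obtain ⟨L, a, hL, ha1, ha0, hR⟩ := E2' h hM hd hF c hβ _ hI i₀ (by simp [hz0])
    lift L to ℕ using hL
    obtain ⟨q, hq⟩ := exists_lf_one hx
    set a' : Fin r → ℕ := Function.update a i₀ 0 with ha'
    have hmono : mono n a = X (Sum.inr i₀) * mono n a' := by
      rw [mono, mono, ← Finset.mul_prod_erase _ _ (Finset.mem_univ i₀), ha1, pow_one,
        ← Finset.mul_prod_erase _ _ (Finset.mem_univ i₀)]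
      rw [ha', Function.update_self, pow_zero, one_mul]
      congr 1
      refine Finset.prod_congr rfl fun i hi => ?_
      rw [Function.update_of_ne (Finset.ne_of_mem_erase hi)]
    have hs : Sec R c (mono n a * lf r q ^ L) := by
      refine Bi.sec (L := L) (a := a) ?_ hR
      have := (Bi.mono (N := n) a).mul ((Bi.lf (r := r) q).pow L)
      simpa using this
    refine ⟨_, hs, ?_, ?_⟩
    · rw [hmono, map_mul, map_mul, eval_X, Sum.elim_inr, hz0]
      ring
    · rw [hmono, mul_assoc, dd_mul, dd_X, eval_X, Sum.elim_inr, Sum.elim_inr, hz0, zero_mul,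
        add_zero, map_mul, map_pow, eval_mono, eval_lf]
      refine mul_ne_zero hv0 (mul_ne_zero ?_ (pow_ne_zero _ hq))
      refine prod_ne' fun i hi => ?_
      by_cases hii : i = i₀
      · rw [hii, ha', Function.update_self]
      · rw [ha', Function.update_of_ne hii]
        exact ha0 i hi hii
  · rcases exists_pos h hM hd hF c hβ hex _ hI with hmon | ⟨hM1, hIc, hIδ⟩
    · obtain ⟨L, a, hL, ha, hR⟩ := hmon
      lift L to ℕ using (by omega)
      obtain ⟨L, rfl⟩ : ∃ L', L = L' + 1 := ⟨L - 1, by omega⟩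
      obtain ⟨q, hq0, hq1⟩ := exists_lf hxu
      obtain ⟨q', hq'⟩ := exists_lf_one hx
      refine ⟨_, sec_mono c q q' hR, ?_, ?_⟩
      · rw [map_mul, map_mul, eval_lf, hq0]
        ring
      · rw [dd_mul, dd_mul, map_mul, eval_lf, hq0, dd_lf, map_pow, eval_mono, eval_lf]
        simp only [Sum.elim_inl]
        rw [zero_mul, mul_zero, zero_add, zero_mul, add_zero]
        exact mul_ne_zero (prod_ne' ha) (mul_ne_zero hq1 (pow_ne_zero _ hq'))
    · exfalso
      refine indep h hM hd hF c hβ hex f hf hfew hM1 _ hIc hIδ x u hx hxu ?_ ?_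
      · intro i hi
        rw [← hz i, (Finset.mem_filter.1 hi).2, zero_pow (h.neZero i).ne]
      · intro i hi
        have h1 := hv i
        have h3 := hf i
        rw [hIδ i hi] at h3
        obtain ⟨w, hw, hw'⟩ := lin_form h3
        rw [(Finset.mem_filter.1 hi).2, zero_pow (by have := h.two i; omega), mul_zero,
          zero_mul] at h1
        rw [hw, h1]
        exact Finset.sum_congr rfl fun k _ => by rw [hw' x k]

end

end Pool.Agent.K3h47.FU
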