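import Pool.Agent.K3h47.FU.Top

/-! The arithmetic of the classes of line bundles on an abelian cover. -/

set_option autoImplicit false
set_option linter.unusedSectionVars false

namespace Pool.Agent.K3h47.FU

variable {r : ℕ}

/-- reduction modulo the ramification indices -/
def red (e : Fin r → ℕ) : (ℤ × (Fin r → ℤ)) →+ (∀ i, ZMod (e i)) where
  toFun ρ := fun i => (ρ.2 i : ZMod (e i))
  map_zero' := by funext i; simp
  map_add' a b := by funext i; simp

/-- the image of `R` -/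
def Lam (R : AddSubgroup (ℤ × (Fin r → ℤ))) (e : Fin r → ℕ) : AddSubgroup (∀ i, ZMod (e i)) :=
  R.map (red e)

/-- the standing assumptions -/
structure Dat (R : AddSubgroup (ℤ × (Fin r → ℤ))) (δ e : Fin r → ℕ) (n : ℕ) : Prop where
  δpos : ∀ i, 0 < δ i
  two : ∀ i, 2 ≤ e i
  rel : ∀ i, ((-(δ i : ℤ), Pi.single i (e i : ℤ)) : ℤ × (Fin r → ℤ)) ∈ R
  deg : ∀ ρ ∈ R, (ρ.1 : ℚ) + ∑ i, (ρ.2 i : ℚ) * (δ i / e i) = 0
  sur : ∀ I : Finset (Fin r), I.card ≤ n → ∀ i ∈ I,
    ∃ ρ ∈ Lam R e, ρ i = 1 ∧ ∀ i' ∈ I, i' ≠ i → ρ i' = 0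

variable {R : AddSubgroup (ℤ × (Fin r → ℤ))} {δ e : Fin r → ℕ} {n : ℕ}

theorem Dat.neZero (h : Dat R δ e n) (i : Fin r) : NeZero (e i) := ⟨by have := h.two i; omega⟩

/-- The common denominator `M` of the numbers `δ / e`. -/
theorem Dat.exists_M (h : Dat R δ e n) : ∃ M : ℕ, M ≠ 0 ∧ (∀ j, e j ∣ M * δ j) ∧
    ∀ p : ℕ, p.Prime → p ∣ M →
      n + 1 ≤ (Finset.univ.filter (fun j => p ^ M.factorization p ∣ e j)).card := by
  classical
  have hex : ∃ M : ℕ, M ≠ 0 ∧ ∀ j, e j ∣ M * δ j := by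
    refine ⟨∏ j, e j, ?_, fun j => ?_⟩
    · exact Finset.prod_ne_zero_iff.2 fun j _ => (h.neZero j).ne
    · exact Dvd.dvd.mul_right (Finset.dvd_prod_of_mem e (Finset.mem_univ j)) _
  set M := Nat.find hex with hMdef
  obtain ⟨hM0, hM⟩ := Nat.find_spec hex
  rw [← hMdef] at hM0 hM
  refine ⟨M, hM0, hM, fun p hp hpM => ?_⟩
  choose W hW using hM
  -- the set of the `j` with `p ∤ W j`
  set B := Finset.univ.filter (fun j => ¬ p ∣ W j) with hB
  have hBN : B ⊆ Finset.univ.filter (fun j => p ^ M.factorization p ∣ e j) := by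
    intro j hj
    rw [hB, Finset.mem_filter] at hj
    rw [Finset.mem_filter]
    refine ⟨Finset.mem_univ j, ?_⟩
    have h1 : p ^ M.factorization p ∣ e j * W j := by
      rw [← hW j]
      exact (Nat.ordProj_dvd M p).mul_right _
    exact (Nat.Coprime.pow_left _ ((Nat.Prime.coprime_iff_not_dvd hp).2 hj.2)).dvd_of_dvd_mul_right h1
  refine le_trans ?_ (Finset.card_le_card hBN)
  by_contra hcon
  push Not at hcon
  have hBn : B.card ≤ n := by omega
  rcases B.eq_empty_or_nonempty with hemp | ⟨i, hi⟩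
  · -- `M` is not minimal
    obtain ⟨t, ht⟩ := hpM
    have ht0 : t ≠ 0 := by
      rintro rfl
      rw [mul_zero] at ht
      exact hM0 ht
    have hlt : t < M := by
      rw [ht]
      exact lt_mul_of_one_lt_left (Nat.pos_of_ne_zero ht0) hp.one_lt
    refine Nat.find_min hex hlt ⟨ht0, fun j => ?_⟩
    have h1 : p ∣ W j := by
      by_contra h2
      have : j ∈ B := by
        rw [hB, Finset.mem_filter]
        exact ⟨Finset.mem_univ j, h2⟩
      rw [hemp] at this
      exact absurd this (Finset.notMem_empty j)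
    obtain ⟨c, hc⟩ := h1
    refine ⟨c, ?_⟩
    have h2 := hW j
    rw [ht, hc] at h2
    have h3 : p * (t * δ j) = p * (e j * c) := by linarith
    exact Nat.eq_of_mul_eq_mul_left hp.pos h3
  · obtain ⟨ρ, ⟨σ, hσ, rfl⟩, hρ1, hρ0⟩ := h.sur B hBn i hi
    have hdeg := h.deg σ hσ
    -- multiply by `M`
    have h1 : (M : ℤ) * σ.1 + ∑ j, σ.2 j * (W j : ℤ) = 0 := by
      have h2 : (M : ℚ) * σ.1 + ∑ j, (σ.2 j : ℚ) * (W j : ℚ) = 0 := by
        have h3 : ∀ j, (σ.2 j : ℚ) * (W j : ℚ) = M * ((σ.2 j : ℚ) * (δ j / e j)) := by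
          intro j
          have h4 : (M : ℚ) * δ j = e j * W j := by exact_mod_cast hW j
          have h5 : (e j : ℚ) ≠ 0 := by
            have := (h.neZero j).ne
            exact_mod_cast this
          field_simp
          linear_combination (-(σ.2 j : ℚ)) * h4
        simp only [h3]
        rw [← Finset.mul_sum, ← mul_add, hdeg, mul_zero]
      exact_mod_cast h2
    -- modulo `p`
    have h2 : (p : ℤ) ∣ ∑ j, σ.2 j * (W j : ℤ) := by
      have h3 : (p : ℤ) ∣ M := by exact_mod_cast hpM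
      have h4 : ∑ j, σ.2 j * (W j : ℤ) = -((M : ℤ) * σ.1) := by linarith
      rw [h4]
      exact (h3.mul_right _).neg_right
    have h3 : ∀ j ∈ Finset.univ.erase i, (p : ℤ) ∣ σ.2 j * (W j : ℤ) := by
      intro j hj
      by_cases hjB : j ∈ B
      · have h4 := hρ0 j hjB (Finset.ne_of_mem_erase hj)
        have h5 : ((e j : ℕ) : ℤ) ∣ σ.2 j := (ZMod.intCast_zmod_eq_zero_iff_dvd _ _).1 h4
        have h6 : (p : ℤ) ∣ (e j : ℤ) := by
          have h7 := (Finset.mem_filter.1 (hBN hjB)).2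
          have h8 : p ∣ p ^ M.factorization p := by
            refine dvd_pow_self p ?_
            exact (hp.factorization_pos_of_dvd hM0 hpM).ne'
          exact_mod_cast h8.trans h7
        exact ((h6.trans h5).mul_right _)
      · have h4 : p ∣ W j := by
          by_contra h5
          exact hjB (by rw [hB, Finset.mem_filter]; exact ⟨Finset.mem_univ j, h5⟩)
        have h5 : (p : ℤ) ∣ (W j : ℤ) := by exact_mod_cast h4
        exact h5.mul_left _
    have h4 : (p : ℤ) ∣ σ.2 i * (W i : ℤ) := by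
      rw [← Finset.add_sum_erase _ _ (Finset.mem_univ i)] at h2
      exact (dvd_add_left (Finset.dvd_sum h3)).1 h2
    -- `σ i ≡ 1` modulo `e i`, and `p ∣ e i`
    have h5 : ((e i : ℕ) : ℤ) ∣ σ.2 i - 1 := by
      have h6 : ((σ.2 i : ℤ) : ZMod (e i)) = ((1 : ℤ) : ZMod (e i)) := by
        rw [Int.cast_one]
        exact hρ1
      rw [ZMod.intCast_eq_intCast_iff_dvd_sub] at h6
      rw [← neg_sub]
      exact h6.neg_right
    have h6 : (p : ℤ) ∣ (e i : ℤ) := by
      have h7 := (Finset.mem_filter.1 (hBN hi)).2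
      have h8 : p ∣ p ^ M.factorization p := by
        refine dvd_pow_self p ?_
        exact (hp.factorization_pos_of_dvd hM0 hpM).ne'
      exact_mod_cast h8.trans h7
    have h7 : (p : ℤ) ∣ (W i : ℤ) := by
      have h8 : (W i : ℤ) = σ.2 i * W i - (σ.2 i - 1) * W i := by ring
      rw [h8]
      exact dvd_sub h4 ((h6.trans h5).mul_right _)
    have h8 : p ∣ W i := by exact_mod_cast h7
    exact (Finset.mem_filter.1 hi).2 h8

end Pool.Agent.K3h47.FU
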