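import Pool.Agent.K3h47.FU.EE2

/-! Averages over a coset. -/

set_option autoImplicit false
set_option linter.unusedSectionVars false

namespace Pool.Agent.K3h47.FU

theorem sum_val (k : ℕ) [NeZero k] : 2 * ∑ x : ZMod k, (x.val : ℚ) = k * (k - 1) := by
  obtain ⟨l, rfl⟩ := Nat.exists_eq_succ_of_ne_zero (NeZero.ne k)
  have h1 : ∑ x : ZMod (l + 1), x.val = ∑ i ∈ Finset.range (l + 1), i :=
    Fin.sum_univ_eq_sum_range (fun i => i) (l + 1)
  have h2 := Finset.sum_range_id_mul_two (l + 1)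
  rw [← h1] at h2
  have h3 : ((∑ x : ZMod (l + 1), x.val : ℕ) : ℚ) * 2 = (l + 1 : ℕ) * (l + 1 - 1 : ℕ) := by
    exact_mod_cast h2
  push_cast at h3 ⊢
  rw [mul_comm, h3]
  simp

variable {r : ℕ} {R : AddSubgroup (ℤ × (Fin r → ℤ))} {δ e : Fin r → ℕ} {n : ℕ}

/-- an element of a coset with at least the average value -/
theorem Dat.exists_avg (h : Dat R δ e n) (J : Finset (Fin r)) (hJ : J.card + 1 ≤ n)
    (z : ∀ i, ZMod (e i)) (w : Fin r → ℚ) :
    ∃ y, y - z ∈ Lam R e ∧ (∀ i ∈ J, y i = z i) ∧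
      ∑ j ∈ Finset.univ \ J, ((e j : ℚ) - 1) / 2 * w j ≤
        ∑ j ∈ Finset.univ \ J, ((y j).val : ℚ) * w j := by
  classical
  have hne := h.neZero
  set Λ := van (Lam R e) J 0 with hΛ
  haveI : Fintype Λ := Fintype.ofFinite Λ
  have hpos : 0 < Fintype.card Λ := Fintype.card_pos
  -- the average of one coordinate
  have key : ∀ j, j ∉ J → 2 * ∑ x : Λ, (((z j + x.1 j).val : ℕ) : ℚ)
      = Fintype.card Λ * ((e j : ℚ) - 1) := by
    intro j hj
    obtain ⟨ρ, hρ, hρ1, hρ0⟩ := h.sur (insert j J) (by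
      rw [Finset.card_insert_of_notMem hj]; exact hJ) j (Finset.mem_insert_self _ _)
    have hρΛ : ρ ∈ Λ := ⟨hρ, fun i hi => hρ0 i (Finset.mem_insert_of_mem hi) (by
      rintro rfl; exact hj hi), by rw [zero_smul]⟩
    have h1 : ∀ t : ZMod (e j), ∑ x : Λ, (((z j + x.1 j).val : ℕ) : ℚ)
        = ∑ x : Λ, (((z j + x.1 j + t).val : ℕ) : ℚ) := by
      intro t
      rw [← Equiv.sum_comp (Equiv.addRight (t.val • (⟨ρ, hρΛ⟩ : Λ)))]
      refine Finset.sum_congr rfl fun x _ => ?_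
      have h5 : z j + (Equiv.addRight (t.val • (⟨ρ, hρΛ⟩ : Λ)) x).1 j = z j + x.1 j + t := by
        change z j + (x.1 j + (t.val • ρ) j) = z j + x.1 j + t
        rw [Pi.smul_apply, hρ1, nsmul_eq_mul, mul_one, ZMod.natCast_zmod_val, add_assoc]
      rw [h5]
    have h2 : (e j : ℚ) * ∑ x : Λ, (((z j + x.1 j).val : ℕ) : ℚ)
        = Fintype.card Λ * ∑ t : ZMod (e j), (t.val : ℚ) := by
      have h3 : ∑ t : ZMod (e j), ∑ x : Λ, (((z j + x.1 j).val : ℕ) : ℚ)
          = ∑ t : ZMod (e j), ∑ x : Λ, (((z j + x.1 j + t).val : ℕ) : ℚ) :=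
        Finset.sum_congr rfl fun t _ => h1 t
      rw [Finset.sum_const, Finset.card_univ, ZMod.card, nsmul_eq_mul, Finset.sum_comm] at h3
      rw [h3]
      have h4 : ∀ x : Λ, ∑ t : ZMod (e j), (((z j + x.1 j + t).val : ℕ) : ℚ)
          = ∑ t : ZMod (e j), (t.val : ℚ) := fun x =>
        Equiv.sum_comp (Equiv.addLeft (z j + x.1 j)) (fun t : ZMod (e j) => (t.val : ℚ))
      rw [Finset.sum_congr rfl fun x _ => h4 x, Finset.sum_const, Finset.card_univ, nsmul_eq_mul]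
    have h3 := sum_val (e j)
    have he : (e j : ℚ) ≠ 0 := by exact_mod_cast (hne j).ne
    refine mul_left_cancel₀ he ?_
    linear_combination 2 * h2 + (Fintype.card Λ : ℚ) * h3
  have hsum : ∑ x : Λ, ∑ j ∈ Finset.univ \ J, ((e j : ℚ) - 1) / 2 * w j ≤
      ∑ x : Λ, ∑ j ∈ Finset.univ \ J, (((z j + x.1 j).val : ℕ) : ℚ) * w j := by
    rw [Finset.sum_const, Finset.card_univ, nsmul_eq_mul, Finset.sum_comm, Finset.mul_sum]
    refine Finset.sum_le_sum fun j hj => le_of_eq ?_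
    rw [← Finset.sum_mul]
    have h1 := key j (Finset.mem_sdiff.1 hj).2
    linear_combination -(w j / 2) * h1
  obtain ⟨x, _, hx⟩ := Finset.exists_le_of_sum_le (Finset.univ_nonempty) hsum
  refine ⟨z + x.1, ?_, fun i hi => ?_, ?_⟩
  · rw [add_sub_cancel_left]
    exact x.2.1
  · rw [Pi.add_apply, x.2.2.1 i hi, add_zero]
  · exact hx

/-- A monomial with a coefficient of positive degree, in the case of hyperplanes. -/
theorem Dat.E5 (h : Dat R δ e n) {M : ℕ} (hM : M ≠ 0) (c : ℤ × (Fin r → ℤ)) (hδ : ∀ i, δ i = 1)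
    (hr : n ≤ r) (hB : ∀ J : Finset (Fin r), J.card + 1 = n →
      0 < (M : ℚ) * bet δ e c + ∑ i ∈ J, ((M : ℚ) - M / e i)
        + ∑ i ∈ Finset.univ \ J, ((M : ℚ) - M / e i) / 2)
    (I : Finset (Fin r)) (hI : I.card + 1 ≤ n) :
    ∃ (L : ℤ) (a : Fin r → ℕ), 1 ≤ L ∧ (∀ i ∈ I, a i = 0) ∧
      ((c.1 - L, fun i => c.2 i - (a i : ℤ)) : ℤ × (Fin r → ℤ)) ∈ R := by
  classical
  have hne := h.neZero
  have hMpos : (0 : ℚ) < M := by exact_mod_cast Nat.pos_of_ne_zero hM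
  -- enlarge `I`
  obtain ⟨J, hIJ, hJc⟩ := Finset.exists_superset_card_eq (s := I) (n := n - 1) (by omega) (by
    rw [Fintype.card_fin]; omega)
  have hJn : J.card + 1 ≤ n := by omega
  obtain ⟨z, hz1, hz2⟩ := h.exists_pre (x0 e c) J (by omega)
    (fun i => ((e i - 1 - 0 : ℕ) : ZMod (e i)))
  obtain ⟨y, hy1, hy2, hy3⟩ := h.exists_avg J hJn z (fun j => M * (δ j / e j))
  have hyx : y - x0 e c ∈ Lam R e := by
    have : y - x0 e c = (y - z) + (z - x0 e c) := by abel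
    rw [this]
    exact (Lam R e).add_mem hy1 hz1
  obtain ⟨L, hL1, hL2⟩ := h.exists_L c y hyx
  have hval : ∀ i ∈ J, (y i).val = e i - 1 := by
    intro i hi
    rw [hy2 i hi, hz2 i hi, val_cast, Nat.sub_zero]
  have hterm : ∀ i, ((e i : ℚ) - 1) * (M * (δ i / e i)) = M - M / e i := by
    intro i
    have he0 : (e i : ℚ) ≠ 0 := by exact_mod_cast (hne i).ne
    rw [hδ i]
    field_simp
    push_cast
    ring
  have h1 : ∑ i ∈ J, ((M : ℚ) - M / e i) = ∑ i ∈ J, ((y i).val : ℚ) * (M * (δ i / e i)) := by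
    refine Finset.sum_congr rfl fun i hi => ?_
    have h2 := h.two i
    rw [hval i hi, Nat.cast_sub (by omega), Nat.cast_one, hterm]
  have h2 : ∑ i ∈ Finset.univ \ J, ((M : ℚ) - M / e i) / 2 =
      ∑ j ∈ Finset.univ \ J, ((e j : ℚ) - 1) / 2 * (M * (δ j / e j)) :=
    Finset.sum_congr rfl fun i _ => by linear_combination -(1 / 2 : ℚ) * hterm i
  have h3 : (M : ℚ) * ∑ i, ((y i).val : ℚ) * (δ i / e i)
      = ∑ i ∈ J, ((y i).val : ℚ) * (M * (δ i / e i))
        + ∑ i ∈ Finset.univ \ J, ((y i).val : ℚ) * (M * (δ i / e i)) := by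
    rw [add_comm, Finset.sum_sdiff (Finset.subset_univ J), Finset.mul_sum]
    exact Finset.sum_congr rfl fun i _ => by ring
  refine ⟨L, aOf y, ?_, fun i hi => by rw [aOf, hval i (hIJ hi)]; omega, hL1⟩
  have h4 : (0 : ℚ) < M * L := by
    have h5 := hB J (by omega)
    rw [hL2, mul_add, h3]
    rw [h1, h2] at h5
    linarith
  have h7 : (0 : ℚ) < L := by
    by_contra hcon
    push Not at hcon
    nlinarith
  exact_mod_cast (show (0 : ℤ) < L by exact_mod_cast h7)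

/-- the condition if the degree of the ample class is large -/
theorem Dat.cond1 (h : Dat R δ e n) {M : ℕ} (c : ℤ × (Fin r → ℤ))
    (hr : n + 3 ≤ r) (a : ℚ) (ha : 0 < a) (hea : ∀ i, (M : ℚ) / e i ≤ a)
    (hβ : -((n : ℚ) + 1) * M + (n + 2) * a ≤ M * bet δ e c)
    (J : Finset (Fin r)) (hJ : J.card + 1 = n) :
    0 < (M : ℚ) * bet δ e c + ∑ i ∈ J, ((M : ℚ) - M / e i)
        + ∑ i ∈ Finset.univ \ J, ((M : ℚ) - M / e i) / 2 := by
  classical
  have hterm : ∀ i, (0 : ℚ) ≤ M - M / e i := by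
    intro i
    have h2 : (2 : ℚ) ≤ e i := by exact_mod_cast h.two i
    have he0 : (0 : ℚ) < e i := by linarith
    have h3 : (0 : ℚ) ≤ M := by positivity
    have : (M : ℚ) / e i ≤ M := by
      rw [div_le_iff₀ he0]
      nlinarith
    linarith
  have h1 : ((J.card : ℕ) : ℚ) * (M - a) ≤ ∑ i ∈ J, ((M : ℚ) - M / e i) := by
    rw [← nsmul_eq_mul, ← Finset.sum_const]
    exact Finset.sum_le_sum fun i _ => by linarith [hea i]
  have hcard : 4 ≤ (Finset.univ \ J).card := by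
    rw [Finset.card_sdiff_of_subset (Finset.subset_univ _), Finset.card_univ, Fintype.card_fin]
    omega
  obtain ⟨K, hK, hKc⟩ := Finset.exists_subset_card_eq hcard
  have h2 : 2 * ((M : ℚ) - a) ≤ ∑ j ∈ Finset.univ \ J, ((M : ℚ) - M / e j) / 2 := by
    calc 2 * ((M : ℚ) - a) = ∑ j ∈ K, ((M : ℚ) - a) / 2 := by
          rw [Finset.sum_const, hKc, nsmul_eq_mul]
          push_cast
          ring
      _ ≤ ∑ j ∈ K, ((M : ℚ) - M / e j) / 2 :=
          Finset.sum_le_sum fun j _ => by linarith [hea j]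
      _ ≤ _ := Finset.sum_le_sum_of_subset_of_nonneg hK fun j _ _ => by
            linarith [hterm j]
  have hJq : ((J.card : ℕ) : ℚ) = n - 1 := by
    rw [← hJ]
    push_cast
    ring
  rw [hJq] at h1
  nlinarith

/-- the condition if there are many hyperplanes -/
theorem Dat.cond2 (h : Dat R δ e n) {M : ℕ} (hM : M ≠ 0) (c : ℤ × (Fin r → ℤ))
    (hr : 3 * n + 5 ≤ r) (hβ : -((n : ℚ) + 1) * M + n + 2 ≤ M * bet δ e c)
    (J : Finset (Fin r)) (hJ : J.card + 1 = n) :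
    0 < (M : ℚ) * bet δ e c + ∑ i ∈ J, ((M : ℚ) - M / e i)
        + ∑ i ∈ Finset.univ \ J, ((M : ℚ) - M / e i) / 2 := by
  classical
  have hMpos : (0 : ℚ) < M := by exact_mod_cast Nat.pos_of_ne_zero hM
  have hterm : ∀ i, (M : ℚ) / 2 ≤ M - M / e i := by
    intro i
    have h2 : (2 : ℚ) ≤ e i := by exact_mod_cast h.two i
    have he0 : (0 : ℚ) < e i := by linarith
    have : (M : ℚ) / e i ≤ M / 2 := div_le_div_of_nonneg_left hMpos.le (by norm_num) h2
    linarith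
  have h1 : ((J.card : ℕ) : ℚ) * (M / 2) ≤ ∑ i ∈ J, ((M : ℚ) - M / e i) := by
    rw [← nsmul_eq_mul, ← Finset.sum_const]
    exact Finset.sum_le_sum fun i _ => hterm i
  have h2 : (((Finset.univ \ J).card : ℕ) : ℚ) * (M / 4) ≤
      ∑ j ∈ Finset.univ \ J, ((M : ℚ) - M / e j) / 2 := by
    rw [← nsmul_eq_mul, ← Finset.sum_const]
    exact Finset.sum_le_sum fun i _ => by linarith [hterm i]
  have hJq : ((J.card : ℕ) : ℚ) = n - 1 := by
    rw [← hJ]
    push_cast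
    ring
  have hKq : (2 * (n : ℚ) + 6) ≤ ((Finset.univ \ J).card : ℕ) := by
    have : 2 * n + 6 ≤ (Finset.univ \ J).card := by
      rw [Finset.card_sdiff_of_subset (Finset.subset_univ _), Finset.card_univ, Fintype.card_fin]
      omega
    exact_mod_cast this
  rw [hJq] at h1
  nlinarith

end Pool.Agent.K3h47.FU
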