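import Mathlib

/-! An inequality between products over subsets of a finite set of prime factors. -/

set_option autoImplicit false

namespace Pool.Agent.K3h47.FU

variable {U : Type} [DecidableEq U]

/-- If each `u ∈ V` is in at least as many members of the list `Ts` as there are `i ∈ I` with
`u ∈ S i`, then the sum of `∏_{S i} q - 1` is at most the sum of `∏_V q - ∏_{V \ T} q`. -/
theorem ineq {ι : Type} (q : U → ℤ) (hq : ∀ u, 1 ≤ q u) (I : Finset ι) (S : ι → Finset U)
    (Ts : List (Finset U)) (V : Finset U)
    (hc : ∀ u ∈ V, (I.filter (fun i => u ∈ S i)).card ≤ Ts.countP (fun T => decide (u ∈ T))) :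
    ∑ i ∈ I, (∏ u ∈ V.filter (· ∈ S i), q u - 1) ≤
      (Ts.map fun T => ∏ u ∈ V, q u - ∏ u ∈ V.filter (· ∉ T), q u).sum := by
  classical
  induction V using Finset.induction_on with
  | empty => simp
  | insert u V hu ih =>
    have ih' := ih fun w hw => hc w (Finset.mem_insert_of_mem hw)
    have hcu := hc u (Finset.mem_insert_self u V)
    have hpos : ∀ W : Finset U, 1 ≤ ∏ w ∈ W, q w := by
      intro W
      induction W using Finset.induction_on with
      | empty => simp
      | insert a W ha ihW =>
        rw [Finset.prod_insert ha]
        nlinarith [hq a]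
    have hmono : ∀ P : U → Prop, ∀ [DecidablePred P], ∏ w ∈ V.filter P, q w ≤ ∏ w ∈ V, q w := by
      intro P _
      rw [← Finset.prod_filter_mul_prod_filter_not V P]
      have h1 := hpos (V.filter P)
      have h2 := hpos (V.filter (fun x => ¬ P x))
      nlinarith
    set Q : ℤ := ∏ w ∈ V, q w with hQ
    have hQ1 : 1 ≤ Q := hpos V
    have hqu := hq u
    -- left side
    have hL : ∑ i ∈ I, (∏ w ∈ (insert u V).filter (· ∈ S i), q w - 1) ≤
        ∑ i ∈ I, (∏ w ∈ V.filter (· ∈ S i), q w - 1)
          + (q u - 1) * Q * ((I.filter (fun i => u ∈ S i)).card : ℤ) := by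
      have h1 : (q u - 1) * Q * ((I.filter (fun i => u ∈ S i)).card : ℤ)
          = ∑ i ∈ I, (if u ∈ S i then (q u - 1) * Q else 0) := by
        rw [Finset.sum_ite, Finset.sum_const_zero, add_zero, Finset.sum_const, nsmul_eq_mul]
        ring
      rw [h1, ← Finset.sum_add_distrib]
      refine Finset.sum_le_sum fun i _ => ?_
      by_cases hi : u ∈ S i
      · rw [if_pos hi, Finset.filter_insert, if_pos hi, Finset.prod_insert (by simp [hu])]
        have h2 := hmono (fun w => w ∈ S i)
        have h3 := hpos (V.filter (fun w => w ∈ S i))
        nlinarith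
      · rw [if_neg hi, Finset.filter_insert, if_neg hi]
        simp
    -- right side
    have hR : ∀ L : List (Finset U),
        (L.map fun T => Q - ∏ w ∈ V.filter (· ∉ T), q w).sum
          + (q u - 1) * Q * (L.countP (fun T => decide (u ∈ T)) : ℤ) ≤
        (L.map fun T => ∏ w ∈ insert u V, q w - ∏ w ∈ (insert u V).filter (· ∉ T), q w).sum := by
      intro L
      induction L with
      | nil => simp
      | cons T L ihL =>
        rw [List.map_cons, List.sum_cons, List.map_cons, List.sum_cons, List.countP_cons]
        have h4 : Q - ∏ w ∈ V.filter (· ∉ T), q w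
            + (q u - 1) * Q * ((if decide (u ∈ T) = true then 1 else 0 : ℕ) : ℤ) ≤
            ∏ w ∈ insert u V, q w - ∏ w ∈ (insert u V).filter (· ∉ T), q w := by
          by_cases hT : u ∈ T
          · have h5 : (insert u V).filter (· ∉ T) = V.filter (· ∉ T) := by
              rw [Finset.filter_insert, if_neg (by simpa using hT)]
            rw [Finset.prod_insert hu, h5, if_pos (by simpa using hT)]
            push_cast
            linarith
          · have h5 : (insert u V).filter (· ∉ T) = insert u (V.filter (· ∉ T)) := by
              rw [Finset.filter_insert, if_pos hT]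
            rw [Finset.prod_insert hu, h5, Finset.prod_insert (by simp [hu]),
              if_neg (by simpa using hT)]
            push_cast
            have h6 := hmono (fun w => w ∉ T)
            nlinarith
        push_cast at h4 ⊢
        linarith
    refine hL.trans (le_trans ?_ (hR Ts))
    have h6 : (q u - 1) * Q * ((I.filter (fun i => u ∈ S i)).card : ℤ)
        ≤ (q u - 1) * Q * (Ts.countP (fun T => decide (u ∈ T)) : ℤ) := by
      refine mul_le_mul_of_nonneg_left (by exact_mod_cast hcu) ?_
      have : 0 ≤ q u - 1 := by linarith
      positivity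
    linarith

end Pool.Agent.K3h47.FU
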