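import Pool.Agent.K3h47.FU.Count
import Pool.Agent.K3h47.FU.Ineq

/-! The sum over the coordinates outside `I` of `M - M/g`. -/

set_option autoImplicit false
set_option linter.unusedSectionVars false

namespace Pool.Agent.K3h47.FU

variable {ι : Type} [DecidableEq ι] {m : ι → ℕ}

/-- the pairs `(p, a)` with `p ^ a ∣ M`, `p` prime, `a ≥ 1` -/
def dig (M : ℕ) : Finset (Σ _ : ℕ, ℕ) :=
  M.primeFactors.sigma fun p => Finset.Icc 1 (M.factorization p)

theorem mem_dig {M : ℕ} {u : Σ _ : ℕ, ℕ} :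
    u ∈ dig M ↔ u.1 ∈ M.primeFactors ∧ 1 ≤ u.2 ∧ u.2 ≤ M.factorization u.1 := by
  simp [dig]

theorem prod_dig (M : ℕ) (P : (Σ _ : ℕ, ℕ) → Prop) [DecidablePred P] :
    ∏ u ∈ (dig M).filter P, (u.1 : ℤ) = ∏ p ∈ M.primeFactors,
      ((p ^ ((Finset.Icc 1 (M.factorization p)).filter (fun a => P ⟨p, a⟩)).card : ℕ) : ℤ) := by
  rw [Finset.prod_filter, dig, Finset.prod_sigma]
  refine Finset.prod_congr rfl fun p _ => ?_
  rw [← Finset.prod_filter]
  change ∏ a ∈ (Finset.Icc 1 (M.factorization p)).filter (fun a => P ⟨p, a⟩), (p : ℤ) = _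
  rw [Finset.prod_const]
  push_cast
  rfl

theorem prod_dig_all (M : ℕ) (hM : M ≠ 0) : ∏ u ∈ dig M, (u.1 : ℤ) = M := by
  have h := prod_dig M (fun _ => True)
  rw [Finset.filter_true] at h
  rw [h]
  have h2 : ∀ p ∈ M.primeFactors, ((p ^ ((Finset.Icc 1 (M.factorization p)).filter
      (fun a => True)).card : ℕ) : ℤ) = ((p ^ M.factorization p : ℕ) : ℤ) := by
    intro p _
    rw [Finset.filter_true, Nat.card_Icc, Nat.add_sub_cancel]
  rw [Finset.prod_congr rfl h2, ← Nat.cast_prod]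
  congr 1
  exact Nat.prod_factorization_pow_eq_self hM

/-- `∏` over the pairs `(p, a)` with `p ^ (v - a + 1) ∤ k` is `M / gcd(M, k)` -/
theorem prod_dig_gcd (M k : ℕ) (hM : M ≠ 0) (hk : k ≠ 0) :
    ∏ u ∈ (dig M).filter (fun u => ¬ u.1 ^ (M.factorization u.1 - (u.2 - 1)) ∣ k), (u.1 : ℤ)
      = ((M / Nat.gcd M k : ℕ) : ℤ) := by
  rw [prod_dig, ← Nat.cast_prod]
  congr 1
  have h1 : ∀ p ∈ M.primeFactors, p ^ ((Finset.Icc 1 (M.factorization p)).filter
      (fun a => ¬ p ^ (M.factorization p - (a - 1)) ∣ k)).card =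
      p ^ (M / Nat.gcd M k).factorization p := by
    intro p hp
    have hpp := Nat.prime_of_mem_primeFactors hp
    congr 1
    rw [Nat.factorization_div (Nat.gcd_dvd_left M k), Nat.factorization_gcd hM hk]
    set v := M.factorization p
    set w := k.factorization p with hw
    have h2 : (Finset.Icc 1 v).filter (fun a => ¬ p ^ (v - (a - 1)) ∣ k) = Finset.Icc 1 (v - w) := by
      ext a
      rw [Finset.mem_filter, Finset.mem_Icc, Finset.mem_Icc, hpp.pow_dvd_iff_le_factorization hk]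
      omega
    rw [h2, Nat.card_Icc]
    simp only [Finsupp.coe_tsub, Pi.sub_apply, Finsupp.inf_apply]
    change v - w + 1 - 1 = v - min v w
    omega
  rw [Finset.prod_congr rfl h1]
  have h3 : M / Nat.gcd M k ≠ 0 := by
    have := Nat.div_pos (Nat.le_of_dvd (Nat.pos_of_ne_zero hM) (Nat.gcd_dvd_left M k))
      (Nat.gcd_pos_of_pos_left k (Nat.pos_of_ne_zero hM))
    omega
  have h4 : (M / Nat.gcd M k).primeFactors ⊆ M.primeFactors :=
    Nat.primeFactors_mono (Nat.div_dvd_of_dvd (Nat.gcd_dvd_left M k)) hM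
  rw [← Finset.prod_subset h4 (f := fun p => p ^ (M / Nat.gcd M k).factorization p)]
  · exact Nat.prod_factorization_pow_eq_self h3
  · intro p _ hp
    have : (M / Nat.gcd M k).factorization p = 0 := by
      rw [← Finsupp.notMem_support_iff]
      exact hp
    rw [this, pow_zero]

/-- the projection of the `p ^ v`-torsion -/
theorem card_prj [∀ j, NeZero (m j)] (Λ : AddSubgroup (∀ j, ZMod (m j))) (I : Finset ι) (j : ι)
    {p : ℕ} (hp : p.Prime) (v : ℕ) :
    Nat.card (prj Λ I (p ^ v) j) = p ^ ((Finset.Icc 1 v).filter (fun a =>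
      Nat.card (prj Λ I (p ^ a) j) ≠ Nat.card (prj Λ I (p ^ (a - 1)) j))).card := by
  induction v with
  | zero =>
    have h1 : prj Λ I (p ^ 0) j = ⊥ := by
      rw [eq_bot_iff]
      rintro _ ⟨x, ⟨_, _, h3⟩, rfl⟩
      rw [pow_zero, one_smul] at h3
      rw [h3, map_zero]
      exact AddSubgroup.zero_mem _
    rw [h1]
    simp
  | succ v ih =>
    have h1 : Finset.Icc 1 (v + 1) = insert (v + 1) (Finset.Icc 1 v) := by
      ext x
      simp only [Finset.mem_Icc, Finset.mem_insert]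
      omega
    rw [h1, Finset.filter_insert]
    have h2 := prj_step Λ I j hp v
    by_cases h3 : Nat.card (prj Λ I (p ^ (v + 1)) j) = Nat.card (prj Λ I (p ^ v) j)
    · rw [if_neg (by simp [h3]), ← ih, h3]
    · rw [if_pos (by simpa using h3), Finset.card_insert_of_notMem (by simp),
        h2.resolve_left h3, ih, pow_succ, mul_comm]

theorem prod_card_dvd [∀ j, NeZero (m j)] (Λ : AddSubgroup (∀ j, ZMod (m j))) (I : Finset ι)
    (j : ι) (M : ℕ) :
    ∏ p ∈ M.primeFactors, Nat.card (prj Λ I (p ^ M.factorization p) j) ∣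
      Nat.card (prj Λ I 0 j) := by
  refine Finset.prod_dvd_of_isRelPrime ?_ ?_
  · intro p hp q hq hpq
    have hp' := Nat.prime_of_mem_primeFactors hp
    have hq' := Nat.prime_of_mem_primeFactors hq
    rw [Function.onFun, card_prj Λ I j hp', card_prj Λ I j hq', ← Nat.coprime_iff_isRelPrime]
    exact Nat.Coprime.pow _ _ ((Nat.coprime_primes hp' hq').2 hpq)
  · intro p _
    exact AddSubgroup.card_dvd_of_le (prj_mono Λ I (dvd_zero _) j)

/-- the sum of `M - M/g` over a list of coordinates, `g` being the order of the projection of the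
elements vanishing at the preceding coordinates -/
noncomputable def tot (M : ℕ) (Λ : AddSubgroup (∀ j, ZMod (m j))) : Finset ι → List ι → ℚ
  | _, [] => 0
  | I, j :: l => (M - M / Nat.card (prj Λ I 0 j)) + tot M Λ (insert j I) l

theorem sum_TT_le [∀ j, NeZero (m j)] (M : ℕ) (hM : M ≠ 0)
    (Λ : AddSubgroup (∀ j, ZMod (m j))) : ∀ (l : List ι) (I : Finset ι),
    ((((TT (dig M) Λ I l).map fun T => ∏ u ∈ dig M, (u.1 : ℤ)
      - ∏ u ∈ (dig M).filter (· ∉ T), (u.1 : ℤ)).sum : ℤ) : ℚ) ≤ tot M Λ I l := by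
  intro l
  induction l with
  | nil => intro I; simp [TT, tot]
  | cons j l ih =>
    intro I
    rw [TT, tot, List.map_cons, List.sum_cons, Int.cast_add]
    refine add_le_add ?_ (ih _)
    set T := (dig M).filter (fun u => Nat.card (prj Λ I (u.1 ^ u.2) j) ≠
      Nat.card (prj Λ I (u.1 ^ (u.2 - 1)) j)) with hT
    set g := Nat.card (prj Λ I 0 j) with hg
    have h1 : (∏ u ∈ (dig M).filter (· ∈ T), (u.1 : ℤ)) * ∏ u ∈ (dig M).filter (· ∉ T), (u.1 : ℤ)
        = M := by
      rw [Finset.prod_filter_mul_prod_filter_not, prod_dig_all M hM]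
    have h2 : (∏ u ∈ (dig M).filter (· ∈ T), (u.1 : ℤ))
        = ((∏ p ∈ M.primeFactors, Nat.card (prj Λ I (p ^ M.factorization p) j) : ℕ) : ℤ) := by
      have h3 : (dig M).filter (· ∈ T) = T := by
        rw [hT]
        ext u
        simp only [Finset.mem_filter]
        tauto
      rw [h3, hT, prod_dig, Nat.cast_prod]
      refine Finset.prod_congr rfl fun p hp => ?_
      rw [card_prj Λ I j (Nat.prime_of_mem_primeFactors hp)]
    obtain ⟨t, ht⟩ := prod_card_dvd Λ I j M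
    set G := ∏ p ∈ M.primeFactors, Nat.card (prj Λ I (p ^ M.factorization p) j) with hG
    have hgpos : 0 < g := Nat.card_pos
    have hGpos : 0 < G := by
      rcases Nat.eq_zero_or_pos G with h | h
      · rw [h, zero_mul] at ht
        omega
      · exact h
    have hle : G ≤ g := Nat.le_of_dvd hgpos ⟨t, ht⟩
    rw [h2] at h1
    clear_value G g
    set Q : ℤ := ∏ u ∈ (dig M).filter (· ∉ T), (u.1 : ℤ) with hQ
    rw [prod_dig_all M hM, Int.cast_sub, Int.cast_natCast]
    have hG0 : (G : ℚ) ≠ 0 := by exact_mod_cast hGpos.ne'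
    have h4 : (Q : ℚ) = M / G := by
      rw [eq_div_iff hG0, mul_comm]
      exact_mod_cast h1
    rw [h4]
    have h6 : (M : ℚ) / g ≤ M / G := by
      apply div_le_div_of_nonneg_left (by positivity) (by exact_mod_cast hGpos)
      exact_mod_cast hle
    linarith

/-- The main inequality. -/
theorem tot_ge [Fintype ι] [∀ j, NeZero (m j)] (M : ℕ) (hM : M ≠ 0)
    (Λ : AddSubgroup (∀ j, ZMod (m j))) (n : ℕ)
    (hS : ∀ I : Finset ι, I.card ≤ n → ∀ i ∈ I, ∃ ρ ∈ Λ, ρ i = 1 ∧ ∀ i' ∈ I, i' ≠ i → ρ i' = 0)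
    (hF : ∀ p : ℕ, p.Prime → p ∣ M →
      n + 1 ≤ (Finset.univ.filter (fun j => p ^ M.factorization p ∣ m j)).card)
    (I : Finset ι) (hI : I.card ≤ n) (l : List ι) (hl : I ∪ l.toFinset = Finset.univ) :
    ∑ i ∈ I, (((M / Nat.gcd M (m i) : ℕ) : ℚ) - 1) ≤ tot M Λ I l := by
  refine le_trans ?_ (sum_TT_le M hM Λ l I)
  have h1 := ineq (fun u : (Σ _ : ℕ, ℕ) => ((max 1 u.1 : ℕ) : ℤ))
    (fun u => by exact_mod_cast le_max_left _ _) I
    (fun i => (dig M).filter (fun u => ¬ u.1 ^ (M.factorization u.1 - (u.2 - 1)) ∣ m i))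
    (TT (dig M) Λ I l) (dig M) (by
      rintro ⟨p, a⟩ hu
      have hu' := mem_dig.1 hu
      have hp := Nat.prime_of_mem_primeFactors hu'.1
      have h2 := count_le (dig M) Λ n hS p a (M.factorization p) hu hp hu'.2.1 hu'.2.2
        (hF p hp (Nat.dvd_of_mem_primeFactors hu'.1)) I hI l hl
      refine le_trans (Finset.card_le_card ?_) h2
      intro i hi
      rw [Finset.mem_filter, Finset.mem_filter] at hi
      rw [Finset.mem_filter]
      exact ⟨hi.1, hi.2.2⟩)
  have h3 : ∀ W : Finset (Σ _ : ℕ, ℕ), W ⊆ dig M →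
      ∏ u ∈ W, ((max 1 u.1 : ℕ) : ℤ) = ∏ u ∈ W, (u.1 : ℤ) := by
    intro W hW
    refine Finset.prod_congr rfl fun u hu => ?_
    have h4 := (Nat.prime_of_mem_primeFactors (mem_dig.1 (hW hu)).1).one_lt
    rw [max_eq_right h4.le]
  have h5 : ∑ i ∈ I, (∏ u ∈ (dig M).filter (· ∈ (dig M).filter
      (fun u => ¬ u.1 ^ (M.factorization u.1 - (u.2 - 1)) ∣ m i)), ((max 1 u.1 : ℕ) : ℤ) - 1)
      = ∑ i ∈ I, (((M / Nat.gcd M (m i) : ℕ) : ℤ) - 1) := by
    refine Finset.sum_congr rfl fun i _ => ?_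
    rw [h3 _ (Finset.filter_subset _ _), ← prod_dig_gcd M (m i) hM (NeZero.ne (m i))]
    congr 2
    ext u
    simp only [Finset.mem_filter]
    tauto
  rw [h5] at h1
  have h6 : ((TT (dig M) Λ I l).map fun T => ∏ u ∈ dig M, ((max 1 u.1 : ℕ) : ℤ)
      - ∏ u ∈ (dig M).filter (· ∉ T), ((max 1 u.1 : ℕ) : ℤ))
      = ((TT (dig M) Λ I l).map fun T => ∏ u ∈ dig M, (u.1 : ℤ)
      - ∏ u ∈ (dig M).filter (· ∉ T), (u.1 : ℤ)) := by
    refine List.map_congr_left fun T _ => ?_
    rw [h3 _ (Finset.Subset.refl _), h3 _ (Finset.filter_subset _ _)]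
  rw [h6] at h1
  exact_mod_cast h1

end Pool.Agent.K3h47.FU
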