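import Mathlib

/-! Inequalities between products over subsets of a finite set of prime factors, by expansion into
sums over the subsets. -/

set_option autoImplicit false

namespace Pool.Agent.K3h47.FU

variable {U : Type} [DecidableEq U]

/-- the weight of a subset -/
def mu (q : U → ℤ) (Z : Finset U) : ℤ := ∏ u ∈ Z, (q u - 1)

theorem mu_nonneg {q : U → ℤ} (hq : ∀ u, 1 ≤ q u) (Z : Finset U) : 0 ≤ mu q Z :=
  Finset.prod_nonneg fun u _ => by linarith [hq u]

theorem prod_eq_mu (q : U → ℤ) (V : Finset U) :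
    ∏ u ∈ V, q u = ∑ Z ∈ V.powerset, mu q Z := by
  have h := Finset.prod_add (fun u => q u - 1) (fun _ => (1 : ℤ)) V
  simp only [sub_add_cancel, Finset.prod_const_one, mul_one] at h
  exact h

theorem prod_filter_eq_mu (q : U → ℤ) (V : Finset U) (P : U → Prop) [DecidablePred P] :
    ∏ u ∈ V.filter P, q u = ∑ Z ∈ V.powerset, mu q Z * (if ∀ u ∈ Z, P u then 1 else 0) := by
  classical
  rw [prod_eq_mu]
  have h : (V.filter P).powerset = V.powerset.filter (fun Z => ∀ u ∈ Z, P u) := by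
    ext Z
    simp only [Finset.mem_powerset, Finset.mem_filter, Finset.subset_iff]
    exact ⟨fun h => ⟨fun u hu => (h hu).1, fun u hu => (h hu).2⟩,
      fun h u hu => ⟨h.1 hu, h.2 u hu⟩⟩
  rw [h, Finset.sum_filter]
  refine Finset.sum_congr rfl fun Z _ => ?_
  split_ifs <;> simp

/-- the number of the `T` in the list which meet `Z` -/
def hit (Ts : List (Finset U)) (Z : Finset U) : ℤ :=
  (Ts.map fun T => if ∃ u ∈ Z, u ∈ T then (1 : ℤ) else 0).sum

theorem hit_mono (Ts : List (Finset U)) {Z W : Finset U} (h : Z ⊆ W) : hit Ts Z ≤ hit Ts W := by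
  induction Ts with
  | nil => simp [hit]
  | cons T Ts ih =>
    simp only [hit, List.map_cons, List.sum_cons] at ih ⊢
    refine add_le_add ?_ ih
    by_cases h1 : ∃ u ∈ Z, u ∈ T
    · obtain ⟨u, hu, huT⟩ := h1
      rw [if_pos ⟨u, hu, huT⟩, if_pos ⟨u, h hu, huT⟩]
    · rw [if_neg h1]
      split_ifs <;> norm_num

theorem count_le_hit (Ts : List (Finset U)) {Z : Finset U} {u : U} (hu : u ∈ Z) :
    ((Ts.countP (fun T => decide (u ∈ T)) : ℕ) : ℤ) ≤ hit Ts Z := by
  induction Ts with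
  | nil => simp [hit]
  | cons T Ts ih =>
    rw [List.countP_cons]
    simp only [hit, List.map_cons, List.sum_cons] at ih ⊢
    by_cases h1 : u ∈ T
    · have h2 : (if decide (u ∈ T) = true then 1 else 0 : ℕ) = 1 := by simp [h1]
      have h3 : (if ∃ u ∈ Z, u ∈ T then (1 : ℤ) else 0) = 1 := if_pos ⟨u, hu, h1⟩
      rw [h2, h3]
      push_cast
      linarith
    · have h2 : (if decide (u ∈ T) = true then 1 else 0 : ℕ) = 0 := by simp [h1]
      have h3 : (0 : ℤ) ≤ if ∃ u ∈ Z, u ∈ T then (1 : ℤ) else 0 := by split_ifs <;> norm_num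
      rw [h2]
      push_cast
      linarith

theorem hit_append (A B : List (Finset U)) (Z : Finset U) :
    hit (A ++ B) Z = hit A Z + hit B Z := by
  simp [hit]

theorem hit_cons (T : Finset U) (B : List (Finset U)) (Z : Finset U) :
    hit (T :: B) Z = (if ∃ u ∈ Z, u ∈ T then (1 : ℤ) else 0) + hit B Z := by
  simp [hit]

theorem sum_hit (q : U → ℤ) (V : Finset U) (Ts : List (Finset U)) :
    (Ts.map fun T => ∏ u ∈ V, q u - ∏ u ∈ V.filter (· ∉ T), q u).sum
      = ∑ Z ∈ V.powerset, mu q Z * hit Ts Z := by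
  induction Ts with
  | nil => simp [hit]
  | cons T Ts ih =>
    rw [List.map_cons, List.sum_cons, ih, prod_eq_mu, prod_filter_eq_mu, ← Finset.sum_sub_distrib,
      ← Finset.sum_add_distrib]
    refine Finset.sum_congr rfl fun Z _ => ?_
    rw [hit_cons]
    by_cases h1 : ∃ u ∈ Z, u ∈ T
    · rw [if_pos h1, if_neg (by
        obtain ⟨u, hu, huT⟩ := h1
        exact fun h => h u hu huT)]
      ring
    · rw [if_neg h1, if_pos (fun u hu huT => h1 ⟨u, hu, huT⟩)]
      ring

section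
variable {ι : Type} [DecidableEq ι] (q : U → ℤ) (I : Finset ι) (S : ι → Finset U) (k : ℕ)
  (Ts : List (Finset U)) (V : Finset U)

theorem one_eq (q : U → ℤ) (V : Finset U) :
    ∑ Z ∈ V.powerset, mu q Z * (if Z = ∅ then 1 else 0) = 1 := by
  rw [Finset.sum_eq_single ∅]
  · simp [mu]
  · intro Z _ hZ
    rw [if_neg hZ, mul_zero]
  · intro h
    exact absurd (Finset.empty_mem_powerset V) h

/-- the left hand side, expanded -/
theorem sum_left : ∑ i ∈ I, (∏ u ∈ V.filter (· ∈ S i), q u - 1) + k * (∏ u ∈ V, q u - 1)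
      = ∑ Z ∈ V.powerset, mu q Z *
        (if Z = ∅ then 0 else ((I.filter (fun i => Z ⊆ S i)).card : ℤ) + k) := by
  classical
  have h1 := one_eq q V
  have h2 : ∀ i, ∏ u ∈ V.filter (· ∈ S i), q u - 1
      = ∑ Z ∈ V.powerset, mu q Z * (if Z = ∅ then 0 else if Z ⊆ S i then 1 else 0) := by
    intro i
    rw [prod_filter_eq_mu, sub_eq_iff_eq_add]
    refine Eq.trans ?_ (congrArg (_ + ·) h1)
    rw [← Finset.sum_add_distrib]
    refine Finset.sum_congr rfl fun Z _ => ?_
    by_cases hZ : Z = ∅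
    · subst hZ
      simp
    · rw [if_neg hZ, if_neg hZ, mul_zero, add_zero]
      rfl
  have h3 : ∏ u ∈ V, q u - 1 = ∑ Z ∈ V.powerset, mu q Z * (if Z = ∅ then 0 else 1) := by
    rw [prod_eq_mu, sub_eq_iff_eq_add]
    refine Eq.trans ?_ (congrArg (_ + ·) h1)
    rw [← Finset.sum_add_distrib]
    refine Finset.sum_congr rfl fun Z _ => ?_
    split_ifs <;> ring
  rw [Finset.sum_congr rfl fun i _ => h2 i, Finset.sum_comm, h3, Finset.mul_sum,
    ← Finset.sum_add_distrib]
  refine Finset.sum_congr rfl fun Z _ => ?_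
  rw [← Finset.mul_sum]
  by_cases hZ : Z = ∅
  · simp [hZ]
  · simp only [if_neg hZ]
    rw [Finset.sum_boole]
    ring

variable (hq : ∀ u, 1 ≤ q u)
include hq

/-- The basic inequality, with an additional set `S₀`. -/
theorem ineq1 (S₀ : Finset U)
    (hc : ∀ u ∈ V, (I.filter (fun i => u ∈ S i)).card + k + (if u ∈ S₀ then 1 else 0) ≤
      Ts.countP (fun T => decide (u ∈ T))) :
    ∑ i ∈ I, (∏ u ∈ V.filter (· ∈ S i), q u - 1) + k * (∏ u ∈ V, q u - 1)
      + (∏ u ∈ V, q u - ∏ u ∈ V.filter (· ∉ S₀), q u) ≤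
      (Ts.map fun T => ∏ u ∈ V, q u - ∏ u ∈ V.filter (· ∉ T), q u).sum := by
  classical
  have h0 : ∏ u ∈ V, q u - ∏ u ∈ V.filter (· ∉ S₀), q u
      = ∑ Z ∈ V.powerset, mu q Z * (if ∃ u ∈ Z, u ∈ S₀ then 1 else 0) := by
    have := sum_hit q V [S₀]
    simp only [List.map_cons, List.map_nil, List.sum_cons, List.sum_nil, add_zero, hit] at this
    exact this
  rw [sum_left, sum_hit, h0, ← Finset.sum_add_distrib]
  refine Finset.sum_le_sum fun Z hZ => ?_
  rw [← mul_add]
  refine mul_le_mul_of_nonneg_left ?_ (mu_nonneg hq Z)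
  rw [Finset.mem_powerset] at hZ
  by_cases hZ0 : Z = ∅
  · subst hZ0
    have h1 : (0 : ℤ) ≤ hit Ts ∅ := by
      rw [hit]
      refine List.sum_nonneg fun x hx => ?_
      rw [List.mem_map] at hx
      obtain ⟨T, _, rfl⟩ := hx
      split_ifs <;> norm_num
    simpa using h1
  · rw [if_neg hZ0]
    have key : ∀ u ∈ Z, ((I.filter (fun i => Z ⊆ S i)).card : ℤ) + k +
        (if u ∈ S₀ then 1 else 0) ≤ hit Ts Z := by
      intro u hu
      refine le_trans ?_ (count_le_hit Ts hu)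
      have h1 : (I.filter (fun i => Z ⊆ S i)).card ≤ (I.filter (fun i => u ∈ S i)).card := by
        refine Finset.card_le_card fun i hi => ?_
        rw [Finset.mem_filter] at hi ⊢
        exact ⟨hi.1, hi.2 hu⟩
      have h2 := hc u (hZ hu)
      have h3 : ((I.filter (fun i => Z ⊆ S i)).card : ℤ) ≤ (I.filter (fun i => u ∈ S i)).card := by
        exact_mod_cast h1
      have h4 : ((I.filter (fun i => u ∈ S i)).card : ℤ) + k + (if u ∈ S₀ then 1 else 0) ≤
          Ts.countP (fun T => decide (u ∈ T)) := by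
        exact_mod_cast h2
      linarith
    by_cases h1 : ∃ u ∈ Z, u ∈ S₀
    · obtain ⟨u, hu, hu0⟩ := h1
      have h2 := key u hu
      rw [if_pos hu0] at h2
      rw [if_pos ⟨u, hu, hu0⟩]
      exact h2
    · obtain ⟨u, hu⟩ := Finset.nonempty_iff_ne_empty.2 hZ0
      have h2 := key u hu
      have h3 : u ∉ S₀ := fun h => h1 ⟨u, hu, h⟩
      rw [if_neg h3] at h2
      rw [if_neg h1]
      exact h2

/-- The inequality for the second best element. -/
theorem ineq2 (A B : List (Finset U)) (T₀ : Finset U) (u₀ : U) (hu₀ : u₀ ∈ V) (hu₀T : u₀ ∈ T₀)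
    (hq₀ : 2 ≤ q u₀) (hTs : Ts = A ++ T₀ :: B)
    (hc : ∀ u ∈ V, (I.filter (fun i => u ∈ S i)).card + k ≤
      Ts.countP (fun T => decide (u ∈ T))) :
    ∑ i ∈ I, (∏ u ∈ V.filter (· ∈ S i), q u - 1) + k * (∏ u ∈ V, q u - 1) - 1
      + ∏ u ∈ V.filter (· ∉ T₀), q u ≤
      (Ts.map fun T => ∏ u ∈ V, q u - ∏ u ∈ V.filter (· ∉ T), q u).sum := by
  classical
  have h1 := one_eq q V
  rw [sum_left, sum_hit, prod_filter_eq_mu]
  have h2 : ∑ Z ∈ V.powerset, mu q Z *
        (if Z = ∅ then 0 else ((I.filter (fun i => Z ⊆ S i)).card : ℤ) + k) - 1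
      + ∑ Z ∈ V.powerset, mu q Z * (if ∀ u ∈ Z, u ∉ T₀ then 1 else 0)
      = ∑ Z ∈ V.powerset, mu q Z *
        ((if Z = ∅ then 0 else ((I.filter (fun i => Z ⊆ S i)).card : ℤ) + k)
          - (if Z = ∅ then 1 else 0) + (if ∀ u ∈ Z, u ∉ T₀ then 1 else 0)) := by
    rw [sub_add_eq_add_sub, sub_eq_iff_eq_add]
    refine Eq.trans ?_ (congrArg (_ + ·) h1)
    rw [← Finset.sum_add_distrib, ← Finset.sum_add_distrib]
    exact Finset.sum_congr rfl fun Z _ => by ring
  rw [h2, ← sub_nonneg, ← Finset.sum_sub_distrib]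
  obtain ⟨V', hV', rfl⟩ : ∃ V', u₀ ∉ V' ∧ V = insert u₀ V' :=
    ⟨V.erase u₀, Finset.notMem_erase _ _, (Finset.insert_erase hu₀).symm⟩
  rw [Finset.sum_powerset_insert hV', ← Finset.sum_add_distrib]
  refine Finset.sum_nonneg fun Z hZ => ?_
  rw [Finset.mem_powerset] at hZ
  have hZu : u₀ ∉ Z := fun h => hV' (hZ h)
  have hmu : mu q (insert u₀ Z) = (q u₀ - 1) * mu q Z := by
    rw [mu, Finset.prod_insert hZu]
    rfl
  have hmu0 := mu_nonneg hq Z
  -- the bounds by counting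
  have key : ∀ (W : Finset U), W ⊆ insert u₀ V' → W.Nonempty →
      ((I.filter (fun i => W ⊆ S i)).card : ℤ) + k ≤ hit Ts W := by
    rintro W hW ⟨u, hu⟩
    refine le_trans ?_ (count_le_hit Ts hu)
    have h1 : (I.filter (fun i => W ⊆ S i)).card ≤ (I.filter (fun i => u ∈ S i)).card := by
      refine Finset.card_le_card fun i hi => ?_
      rw [Finset.mem_filter] at hi ⊢
      exact ⟨hi.1, hi.2 hu⟩
    have h2 := hc u (hW hu)
    exact_mod_cast (Nat.add_le_add_right h1 k).trans h2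
  have hne : insert u₀ Z ≠ ∅ := (Finset.insert_nonempty _ _).ne_empty
  have hex : ¬ ∀ u ∈ insert u₀ Z, u ∉ T₀ := fun h => h u₀ (Finset.mem_insert_self _ _) hu₀T
  have hins := key (insert u₀ Z) (Finset.insert_subset_insert _ hZ) (Finset.insert_nonempty _ _)
  rw [if_neg hne, if_neg hne, if_neg hex, hmu]
  -- compare the hits
  have hcmp : hit Ts Z + (if ∀ u ∈ Z, u ∉ T₀ then 1 else 0) ≤ hit Ts (insert u₀ Z) := by
    rw [hTs, hit_append, hit_append, hit_cons, hit_cons,
      if_pos (⟨u₀, Finset.mem_insert_self _ _, hu₀T⟩ : ∃ u ∈ insert u₀ Z, u ∈ T₀)]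
    have h3 := hit_mono A (Finset.subset_insert u₀ Z)
    have h4 := hit_mono B (Finset.subset_insert u₀ Z)
    by_cases h5 : ∃ u ∈ Z, u ∈ T₀
    · rw [if_pos h5, if_neg (by
        obtain ⟨u, hu, huT⟩ := h5
        exact fun h => h u hu huT)]
      linarith
    · rw [if_neg h5, if_pos (fun u hu huT => h5 ⟨u, hu, huT⟩)]
      linarith
  by_cases hZ0 : Z = ∅
  · subst hZ0
    have h6 : hit Ts ∅ = 0 := by simp [hit]
    rw [h6]
    simp only [if_true, Finset.notMem_empty, false_imp_iff, implies_true]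
    have h7 : (0 : ℤ) ≤ (q u₀ - 1) * mu q ∅ := mul_nonneg (by linarith) hmu0
    nlinarith
  · have hZn := key Z (hZ.trans (Finset.subset_insert _ _)) (Finset.nonempty_iff_ne_empty.2 hZ0)
    rw [if_neg hZ0, if_neg hZ0]
    -- the terms
    have hsub : ((I.filter (fun i => insert u₀ Z ⊆ S i)).card : ℤ) ≤
        (I.filter (fun i => Z ⊆ S i)).card := by
      exact_mod_cast Finset.card_le_card fun i hi => by
        rw [Finset.mem_filter] at hi ⊢
        exact ⟨hi.1, (Finset.subset_insert _ _).trans hi.2⟩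
    set ε : ℤ := (if ∀ u ∈ Z, u ∉ T₀ then 1 else 0) with hε
    have hε0 : 0 ≤ ε := by rw [hε]; split_ifs <;> norm_num
    set a : ℤ := hit Ts Z - (((I.filter (fun i => Z ⊆ S i)).card : ℤ) + k) with ha
    set b : ℤ := hit Ts (insert u₀ Z) - (((I.filter (fun i => insert u₀ Z ⊆ S i)).card : ℤ) + k)
      with hb
    have h8 : 0 ≤ a := by linarith
    have h9 : ε ≤ b := by linarith
    have h10 : ε ≤ (q u₀ - 1) * b := by nlinarith
    nlinarith
end

end Pool.Agent.K3h47.FU
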