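import Pool.Agent.K3h47.FU.Comp
import Pool.Agent.K3h47.FU.Ineq2

/-! The number of coordinates at which the torsion of level `a` grows: the refined count, and the
refined lower bounds for the sum of the `M - M/g`. -/

set_option autoImplicit false
set_option linter.unusedSectionVars false

namespace Pool.Agent.K3h47.FU

variable {ι : Type} [DecidableEq ι] {m : ι → ℕ}

/-- The rank bound for the elements vanishing on `I`. -/
theorem rank_van2 [Fintype ι] [∀ j, NeZero (m j)] (Λ : AddSubgroup (∀ j, ZMod (m j))) (n : ℕ)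
    (hS : ∀ I : Finset ι, I.card ≤ n → ∀ i ∈ I, ∃ ρ ∈ Λ, ρ i = 1 ∧ ∀ i' ∈ I, i' ≠ i → ρ i' = 0)
    {p : ℕ} (hp : p.Prime) (v : ℕ)
    (hF : n + 1 ≤ (Finset.univ.filter (fun j => p ^ v ∣ m j)).card)
    (I : Finset ι) (hI : I.card ≤ n) (a : ℕ) (ha : a < v) :
    Nat.card (van Λ I (p ^ a)) *
        p ^ ((I.filter (fun i => ¬ p ^ (v - a) ∣ m i)).card + (n - I.card)) ≤
      Nat.card (van Λ I (p ^ (a + 1))) := by
  classical
  set N := Finset.univ.filter (fun j => p ^ v ∣ m j) with hN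
  set Ia := I.filter (fun i => ¬ p ^ (v - a) ∣ m i) with hIa
  set Ib := I.filter (fun i => p ^ (v - a) ∣ m i) with hIb
  have hab : Ib.card + Ia.card = I.card := Finset.card_filter_add_card_filter_not _
  -- the coordinates outside `I`
  have h1 : Ia.card + (n - I.card) ≤ (N \ I).card := by
    have h2 : (N ∩ I).card ≤ Ib.card := by
      refine Finset.card_le_card fun j hj => ?_
      rw [Finset.mem_inter, hN, Finset.mem_filter] at hj
      rw [hIb, Finset.mem_filter]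
      exact ⟨hj.2, (pow_dvd_pow p (Nat.sub_le v a)).trans hj.1.2⟩
    have h3 := Finset.card_sdiff_add_card_inter N I
    omega
  obtain ⟨J, hJN, hJc⟩ := Finset.exists_subset_card_eq h1
  have hJI : Disjoint Ib J := by
    rw [Finset.disjoint_left]
    intro j hj hj'
    exact (Finset.mem_sdiff.1 (hJN hj')).2 (Finset.mem_filter.1 hj).1
  have hcard : (Ib ∪ J).card ≤ n := by
    rw [Finset.card_union_of_disjoint hJI, hJc]
    omega
  have hpm : ∀ j ∈ J, p ^ v ∣ m j := fun j hj =>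
    (Finset.mem_filter.1 (Finset.mem_sdiff.1 (hJN hj)).1).2
  -- the vectors
  have h4 : ∀ j ∈ J, ∃ ρ ∈ Λ, ρ j = 1 ∧ ∀ i' ∈ Ib ∪ J, i' ≠ j → ρ i' = 0 := fun j hj =>
    hS (Ib ∪ J) hcard j (Finset.mem_union_right _ hj)
  choose! ρ hρΛ hρ1 hρ0 using h4
  -- the multiplier
  set P : ℕ := ∏ i, (m i / p ^ (m i).factorization p) with hP
  have hPc : Nat.Coprime P (p ^ v) := by
    refine Nat.Coprime.pow_right _ ?_
    rw [hP]
    refine Nat.Coprime.prod_left fun i _ => ?_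
    exact (Nat.coprime_ordCompl hp (NeZero.ne (m i))).symm
  obtain ⟨z, hz1, hz2⟩ := Nat.chineseRemainder hPc 0 1
  have hz1' : P ∣ z := (Nat.modEq_zero_iff_dvd).1 hz1
  have hc : ∀ j ∈ J, m j / p ^ (a + 1) * p ^ (a + 1) = m j := fun j hj =>
    Nat.div_mul_cancel ((pow_dvd_pow p ha).trans (hpm j hj))
  have h5 := rank_bound Λ I J hp a (fun j => m j / p ^ (a + 1))
    (fun j => (z * (m j / p ^ (a + 1))) • ρ j)
    (fun j hj => Λ.nsmul_mem (hρΛ j hj) _) ?_ ?_ hc ?_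
  · rw [hJc] at h5
    exact h5
  · -- vanishing on `I`
    intro j hj i hi
    by_cases hib : i ∈ Ib
    · have hij : i ≠ j := by
        rintro rfl
        exact (Finset.mem_sdiff.1 (hJN hj)).2 hi
      rw [Pi.smul_apply, hρ0 j hj i (Finset.mem_union_left _ hib) hij, smul_zero]
    · have hia : ¬ p ^ (v - a) ∣ m i := by
        intro h
        exact hib (Finset.mem_filter.2 ⟨hi, h⟩)
      -- `m i` divides the multiplier
      have h6 : (m i).factorization p ≤ v - a - 1 := by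
        by_contra hcon
        push Not at hcon
        refine hia ((pow_dvd_pow p (by omega)).trans (Nat.ordProj_dvd (m i) p))
      have h7 : p ^ (v - a - 1) ∣ m j / p ^ (a + 1) := by
        obtain ⟨t, ht⟩ := hpm j hj
        have h8 : m j = p ^ (v - a - 1) * t * p ^ (a + 1) := by
          rw [ht]
          have : v = (v - a - 1) + (a + 1) := by omega
          conv_lhs => rw [this, pow_add]
          ring
        rw [h8, Nat.mul_div_cancel _ (pow_pos hp.pos _)]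
        exact dvd_mul_right _ _
      have h9 : m i / p ^ (m i).factorization p ∣ z := by
        refine dvd_trans ?_ hz1'
        rw [hP]
        exact Finset.dvd_prod_of_mem (fun i => m i / p ^ (m i).factorization p)
          (Finset.mem_univ i)
      have h10 : m i ∣ z * (m j / p ^ (a + 1)) := by
        calc m i = (m i / p ^ (m i).factorization p) * p ^ (m i).factorization p :=
              (Nat.div_mul_cancel (Nat.ordProj_dvd _ _)).symm
          _ ∣ z * (m j / p ^ (a + 1)) :=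
              mul_dvd_mul h9 ((pow_dvd_pow p h6).trans h7)
      rw [Pi.smul_apply, nsmul_eq_mul, (ZMod.natCast_eq_zero_iff _ _).2 h10, zero_mul]
  · intro j hj i hi hij
    rw [Pi.smul_apply, hρ0 j hj i (Finset.mem_union_right _ hi) hij, smul_zero]
  · intro j hj
    rw [Pi.smul_apply, hρ1 j hj, nsmul_eq_mul, mul_one, ZMod.natCast_eq_natCast_iff]
    -- `z ≡ 1` modulo `p ^ (a+1)`
    have h6 : z ≡ 1 [MOD p ^ (a + 1)] := hz2.of_dvd (pow_dvd_pow p ha)
    have h7 := h6.mul_right' (m j / p ^ (a + 1))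
    rw [mul_comm (p ^ (a + 1)), hc j hj, one_mul] at h7
    exact h7

theorem count_le2 [Fintype ι] [∀ j, NeZero (m j)] (U : Finset (Σ _ : ℕ, ℕ))
    (Λ : AddSubgroup (∀ j, ZMod (m j))) (n : ℕ)
    (hS : ∀ I : Finset ι, I.card ≤ n → ∀ i ∈ I, ∃ ρ ∈ Λ, ρ i = 1 ∧ ∀ i' ∈ I, i' ≠ i → ρ i' = 0)
    (p a v : ℕ) (hu : (⟨p, a⟩ : Σ _ : ℕ, ℕ) ∈ U) (hp : p.Prime) (ha : 1 ≤ a) (hav : a ≤ v)
    (hF : n + 1 ≤ (Finset.univ.filter (fun j => p ^ v ∣ m j)).card)
    (I : Finset ι) (hI : I.card ≤ n) (l : List ι) (hl : I ∪ l.toFinset = Finset.univ) :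
    (I.filter (fun i => ¬ p ^ (v - (a - 1)) ∣ m i)).card + (n - I.card) ≤
      (TT U Λ I l).countP (fun T => decide ((⟨p, a⟩ : Σ _ : ℕ, ℕ) ∈ T)) := by
  have h1 := rank_van2 Λ n hS hp v hF I hI (a - 1) (by omega)
  rw [Nat.sub_add_cancel ha] at h1
  have h2 := card_TT U Λ ⟨p, a⟩ hu hp ha l I hl
  simp only at h2
  rw [h2] at h1
  have h3 : 0 < Nat.card (van Λ I (p ^ (a - 1))) := Nat.card_pos
  have h4 := Nat.le_of_mul_le_mul_left h1 h3
  exact (Nat.pow_le_pow_iff_right hp.one_lt).1 h4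


/-- the exponents of `M` prime to `m i` -/
def Sd (m : ι → ℕ) (M : ℕ) (i : ι) : Finset (Σ _ : ℕ, ℕ) :=
  (dig M).filter (fun u => ¬ u.1 ^ (M.factorization u.1 - (u.2 - 1)) ∣ m i)

/-- the prime of a pair -/
def qd (u : Σ _ : ℕ, ℕ) : ℤ := ((max 1 u.1 : ℕ) : ℤ)

theorem qd_ge (u : Σ _ : ℕ, ℕ) : 1 ≤ qd u := by
  rw [qd]
  exact_mod_cast le_max_left _ _

theorem prod_qd {M : ℕ} (W : Finset (Σ _ : ℕ, ℕ)) (hW : W ⊆ dig M) :
    ∏ u ∈ W, qd u = ∏ u ∈ W, (u.1 : ℤ) := by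
  refine Finset.prod_congr rfl fun u hu => ?_
  have h4 := (Nat.prime_of_mem_primeFactors (mem_dig.1 (hW hu)).1).one_lt
  rw [qd, max_eq_right h4.le]

theorem prod_qd_all {M : ℕ} (hM : M ≠ 0) : ∏ u ∈ dig M, qd u = M := by
  rw [prod_qd _ (Finset.Subset.refl _), prod_dig_all M hM]

theorem prod_qd_S [∀ j, NeZero (m j)] {M : ℕ} (hM : M ≠ 0) (i : ι) :
    ∏ u ∈ (dig M).filter (· ∈ Sd m M i), qd u = ((M / Nat.gcd M (m i) : ℕ) : ℤ) := by
  rw [prod_qd _ (Finset.filter_subset _ _), ← prod_dig_gcd M (m i) hM (NeZero.ne (m i))]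
  congr 1
  ext u
  simp only [Sd, Finset.mem_filter]
  tauto

theorem prod_qd_S' [∀ j, NeZero (m j)] {M : ℕ} (hM : M ≠ 0) (i : ι) :
    ∏ u ∈ (dig M).filter (· ∉ Sd m M i), qd u = ((Nat.gcd M (m i) : ℕ) : ℤ) := by
  have h1 := prod_qd_S (m := m) hM i
  have h2 := Finset.prod_filter_mul_prod_filter_not (dig M) (· ∈ Sd m M i) qd
  rw [h1, prod_qd_all hM] at h2
  have h3 : ((M / Nat.gcd M (m i) : ℕ) : ℤ) * ((Nat.gcd M (m i) : ℕ) : ℤ) = M := by
    exact_mod_cast Nat.div_mul_cancel (Nat.gcd_dvd_left M (m i))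
  have h4 : ((M / Nat.gcd M (m i) : ℕ) : ℤ) ≠ 0 := by
    intro h
    rw [h, zero_mul] at h3
    exact hM (by exact_mod_cast h3.symm)
  exact mul_left_cancel₀ h4 (h2.trans h3.symm)

theorem TT_sub (U : Finset (Σ _ : ℕ, ℕ)) (Λ : AddSubgroup (∀ j, ZMod (m j))) :
    ∀ (l : List ι) (I : Finset ι), ∀ T ∈ TT U Λ I l, T ⊆ U := by
  intro l
  induction l with
  | nil => intro I T hT; simp [TT] at hT
  | cons j l ih =>
    intro I T hT
    rw [TT, List.mem_cons] at hT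
    rcases hT with rfl | hT
    · exact Finset.filter_subset _ _
    · exact ih _ T hT

theorem sum_TT_le' [∀ j, NeZero (m j)] {M : ℕ} (hM : M ≠ 0)
    (Λ : AddSubgroup (∀ j, ZMod (m j))) (l : List ι) (I : Finset ι) :
    ((((TT (dig M) Λ I l).map fun T => ∏ u ∈ dig M, qd u
      - ∏ u ∈ (dig M).filter (· ∉ T), qd u).sum : ℤ) : ℚ) ≤ tot M Λ I l := by
  refine le_trans (le_of_eq ?_) (sum_TT_le M hM Λ l I)
  congr 2
  refine List.map_congr_left fun T _ => ?_
  rw [prod_qd _ (Finset.Subset.refl _), prod_qd _ (Finset.filter_subset _ _)]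

section
variable [Fintype ι] [∀ j, NeZero (m j)] {M : ℕ} (hM : M ≠ 0)
    (Λ : AddSubgroup (∀ j, ZMod (m j))) (n : ℕ)
    (hS : ∀ I : Finset ι, I.card ≤ n → ∀ i ∈ I, ∃ ρ ∈ Λ, ρ i = 1 ∧ ∀ i' ∈ I, i' ≠ i → ρ i' = 0)
    (hF : ∀ p : ℕ, p.Prime → p ∣ M →
      n + 1 ≤ (Finset.univ.filter (fun j => p ^ M.factorization p ∣ m j)).card)
    (I : Finset ι) (hI : I.card ≤ n) (l : List ι) (hl : I ∪ l.toFinset = Finset.univ)
include hM hS hF hI hl

theorem count_dig (u : Σ _ : ℕ, ℕ) (hu : u ∈ dig M) :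
    (I.filter (fun i => u ∈ Sd m M i)).card + (n - I.card) ≤
      (TT (dig M) Λ I l).countP (fun T => decide (u ∈ T)) := by
  obtain ⟨p, a⟩ := u
  have hu' := mem_dig.1 hu
  have hp := Nat.prime_of_mem_primeFactors hu'.1
  have h2 := count_le2 (dig M) Λ n hS p a (M.factorization p) hu hp hu'.2.1 hu'.2.2
    (hF p hp (Nat.dvd_of_mem_primeFactors hu'.1)) I hI l hl
  refine le_trans (Nat.add_le_add_right (Finset.card_le_card ?_) _) h2
  intro i hi
  rw [Finset.mem_filter, Sd, Finset.mem_filter] at hi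
  rw [Finset.mem_filter]
  exact ⟨hi.1, hi.2.2⟩

/-- The lower bound for the sum of the `M - M/g`. -/
theorem tot_ge0 : ∑ i ∈ I, (((M / Nat.gcd M (m i) : ℕ) : ℚ) - 1)
      + ((n : ℚ) - I.card) * (M - 1) ≤ tot M Λ I l := by
  refine le_trans ?_ (sum_TT_le' hM Λ l I)
  have h1 := ineq1 qd I (Sd m M) (n - I.card) (TT (dig M) Λ I l) (dig M) qd_ge ∅ (by
    intro u hu
    rw [if_neg (Finset.notMem_empty u), add_zero]
    exact count_dig hM Λ n hS hF I hI l hl u hu)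
  simp only [Finset.notMem_empty, not_false_eq_true, Finset.filter_true, sub_self, add_zero]
    at h1
  rw [Finset.sum_congr rfl fun i _ => by rw [prod_qd_S hM i], prod_qd_all hM] at h1
  have h2 : ∀ W : ι → ℕ, (((∑ i ∈ I, ((W i : ℤ) - 1) + ((n - I.card : ℕ) : ℤ) * ((M : ℤ) - 1)
      : ℤ)) : ℚ) = ∑ i ∈ I, ((W i : ℚ) - 1) + ((n : ℚ) - I.card) * (M - 1) := by
    intro W
    push_cast [Nat.cast_sub hI]
    ring
  refine le_trans (le_of_eq (h2 (fun i => M / Nat.gcd M (m i))).symm) ?_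
  simp only [prod_qd_all hM]
  exact Int.cast_le.2 h1

/-- The lower bound, refined at `i₀ ∈ I`. -/
theorem tot_ge1 (i₀ : ι) (hi₀ : i₀ ∈ I) :
    ∑ i ∈ I.erase i₀, (((M / Nat.gcd M (m i) : ℕ) : ℚ) - 1)
      + ((n : ℚ) - I.card) * (M - 1) + (M - Nat.gcd M (m i₀)) ≤ tot M Λ I l := by
  refine le_trans ?_ (sum_TT_le' hM Λ l I)
  have h1 := ineq1 qd (I.erase i₀) (Sd m M) (n - I.card) (TT (dig M) Λ I l) (dig M) qd_ge
    (Sd m M i₀) (by
    intro u hu
    refine le_trans (le_of_eq ?_) (count_dig hM Λ n hS hF I hI l hl u hu)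
    have h2 : I.filter (fun i => u ∈ Sd m M i) = if u ∈ Sd m M i₀ then
        insert i₀ ((I.erase i₀).filter (fun i => u ∈ Sd m M i))
        else (I.erase i₀).filter (fun i => u ∈ Sd m M i) := by
      conv_lhs => rw [← Finset.insert_erase hi₀, Finset.filter_insert]
    rw [h2]
    split_ifs with h3
    · rw [Finset.card_insert_of_notMem (by simp)]
      ring
    · ring)
  rw [Finset.sum_congr rfl fun i _ => by rw [prod_qd_S hM i], prod_qd_all hM,
    prod_qd_S' hM i₀] at h1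
  have h2 : ∀ W : ι → ℕ, (((∑ i ∈ I.erase i₀, ((W i : ℤ) - 1)
      + ((n - I.card : ℕ) : ℤ) * ((M : ℤ) - 1) + ((M : ℤ) - (Nat.gcd M (m i₀) : ℕ))
      : ℤ)) : ℚ) = ∑ i ∈ I.erase i₀, ((W i : ℚ) - 1)
      + ((n : ℚ) - I.card) * (M - 1) + (M - Nat.gcd M (m i₀)) := by
    intro W
    push_cast [Nat.cast_sub hI]
    ring
  refine le_trans (le_of_eq (h2 (fun i => M / Nat.gcd M (m i))).symm) ?_
  simp only [prod_qd_all hM]
  exact Int.cast_le.2 h1

end

end Pool.Agent.K3h47.FU
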