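import Pool.Agent.K3h47.FU.Arith

/-! Monomials in a given class: existence and generation. -/

set_option autoImplicit false
set_option linter.unusedSectionVars false

namespace Pool.Agent.K3h47.FU

section
variable {ι : Type} [DecidableEq ι] {m : ι → ℕ} [∀ j, NeZero (m j)]

theorem tot_append (M : ℕ) (Λ : AddSubgroup (∀ j, ZMod (m j))) : ∀ (l₁ l₂ : List ι) (I : Finset ι),
    tot M Λ I (l₁ ++ l₂) = tot M Λ I l₁ + tot M Λ (I ∪ l₁.toFinset) l₂ := by
  intro l₁
  induction l₁ with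
  | nil => intro l₂ I; simp [tot]
  | cons j l₁ ih =>
    intro l₂ I
    rw [List.cons_append, tot, tot, ih]
    have : insert j I ∪ l₁.toFinset = I ∪ (j :: l₁).toFinset := by
      rw [List.toFinset_cons]
      ext w
      simp only [Finset.mem_union, Finset.mem_insert]
      tauto
    rw [this, add_assoc]

theorem wt_mul_ge (M : ℕ) (j : ι) : M ≤ m j * wt m M j := by
  rw [wt]
  have h6 := Nat.div_mul_cancel (Nat.gcd_dvd_left M (m j))
  calc M = (M / Nat.gcd M (m j)) * Nat.gcd M (m j) := h6.symm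
    _ ≤ (M / Nat.gcd M (m j)) * m j :=
        Nat.mul_le_mul_left _ (Nat.gcd_le_right _ (Nat.pos_of_ne_zero (NeZero.ne _)))
    _ = m j * (M / Nat.gcd M (m j)) := mul_comm _ _

theorem tot_free (M : ℕ) (Λ : AddSubgroup (∀ j, ZMod (m j))) (n : ℕ)
    (hS : ∀ I : Finset ι, I.card ≤ n → ∀ i ∈ I, ∃ ρ ∈ Λ, ρ i = 1 ∧ ∀ i' ∈ I, i' ≠ i → ρ i' = 0) :
    ∀ (l : List ι) (I : Finset ι), l.Nodup → (∀ j ∈ l, j ∉ I) → (I ∪ l.toFinset).card ≤ n →
      (l.map fun j => ((M : ℚ) - wt m M j)).sum ≤ tot M Λ I l := by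
  intro l
  induction l with
  | nil => intro I _ _ _; simp [tot]
  | cons j l ih =>
    intro I hnd hI hc
    rw [tot, List.map_cons, List.sum_cons]
    have hjI : j ∉ I := hI j List.mem_cons_self
    have hset : I ∪ (j :: l).toFinset = insert j I ∪ l.toFinset := by
      rw [List.toFinset_cons]
      ext w
      simp only [Finset.mem_union, Finset.mem_insert]
      tauto
    refine add_le_add ?_ (ih (insert j I) (List.nodup_cons.1 hnd).2 ?_ (by rw [← hset]; exact hc))
    · have h1 : (insert j I).card ≤ n := by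
        refine le_trans (Finset.card_le_card ?_) hc
        rw [hset]
        exact Finset.subset_union_left
      obtain ⟨ρ, hρ, hρ1, hρ0⟩ := hS (insert j I) h1 j (Finset.mem_insert_self _ _)
      have h2 : prj Λ I 0 j = ⊤ := by
        rw [eq_top_iff]
        rintro x -
        refine ⟨x.val • ρ, ⟨Λ.nsmul_mem hρ _, ?_, by rw [zero_smul]⟩, ?_⟩
        · intro i hi
          rw [Pi.smul_apply, hρ0 i (Finset.mem_insert_of_mem hi) (by rintro rfl; exact hjI hi),
            smul_zero]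
        · change x.val • ρ j = x
          rw [hρ1, nsmul_eq_mul, mul_one, ZMod.natCast_zmod_val]
      have h3 : Nat.card (prj Λ I 0 j) = m j := by
        rw [h2, AddSubgroup.card_top, Nat.card_zmod]
      rw [h3]
      have h4 : (M : ℚ) / m j ≤ wt m M j := by
        rw [div_le_iff₀ (by exact_mod_cast Nat.pos_of_ne_zero (NeZero.ne (m j)))]
        have := wt_mul_ge (m := m) M j
        rw [mul_comm]
        exact_mod_cast this
      linarith
    · intro k hk hk'
      rcases Finset.mem_insert.1 hk' with rfl | h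
      · exact (List.nodup_cons.1 hnd).1 hk
      · exact hI k (List.mem_cons_of_mem _ hk) h

/-- A good order of the coordinates outside `I`. -/
theorem exists_list [Fintype ι] (M : ℕ) (hM : M ≠ 0) (Λ : AddSubgroup (∀ j, ZMod (m j))) (n : ℕ)
    (hS : ∀ I : Finset ι, I.card ≤ n → ∀ i ∈ I, ∃ ρ ∈ Λ, ρ i = 1 ∧ ∀ i' ∈ I, i' ≠ i → ρ i' = 0)
    (hF : ∀ p : ℕ, p.Prime → p ∣ M →
      n + 1 ≤ (Finset.univ.filter (fun j => p ^ M.factorization p ∣ m j)).card)
    (I : Finset ι) (hI : I.card ≤ n) :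
    ∃ l : List ι, l.Nodup ∧ (∀ j ∈ l, j ∉ I) ∧ I ∪ l.toFinset = Finset.univ ∧
      ∑ i ∈ I, ((wt m M i : ℚ) - 1) + ((n : ℚ) - I.card) * (M - 1) ≤ tot M Λ I l := by
  classical
  by_cases h1 : M = 1
  · refine ⟨(Finset.univ \ I).toList, Finset.nodup_toList _, ?_, ?_, ?_⟩
    · intro j hj
      rw [Finset.mem_toList, Finset.mem_sdiff] at hj
      exact hj.2
    · rw [Finset.toList_toFinset]
      ext w
      simp only [Finset.mem_union, Finset.mem_sdiff, Finset.mem_univ, true_and, iff_true]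
      tauto
    · have h2 := tot_ge M hM Λ n hS hF I hI (Finset.univ \ I).toList (by
        rw [Finset.toList_toFinset]
        ext w
        simp only [Finset.mem_union, Finset.mem_sdiff, Finset.mem_univ, true_and, iff_true]
        tauto)
      have h3 : ((M : ℚ) - 1) = 0 := by rw [h1]; norm_num
      rw [h3, mul_zero, add_zero]
      exact h2
  · obtain ⟨p, hp, hpM⟩ := Nat.exists_prime_and_dvd h1
    have h2 : n ≤ Fintype.card ι := by
      have h3 := hF p hp hpM
      have h4 := Finset.card_le_univ (Finset.univ.filter (fun j => p ^ M.factorization p ∣ m j))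
      omega
    obtain ⟨I₁, hI₁, hc₁⟩ := Finset.exists_superset_card_eq hI h2
    set l₁ := (I₁ \ I).toList with hl₁
    set l₂ := (Finset.univ \ I₁).toList with hl₂
    have hl₁s : I ∪ l₁.toFinset = I₁ := by
      rw [hl₁, Finset.toList_toFinset, Finset.union_sdiff_of_subset hI₁]
    refine ⟨l₁ ++ l₂, ?_, ?_, ?_, ?_⟩
    · refine List.Nodup.append (Finset.nodup_toList _) (Finset.nodup_toList _) ?_
      intro j hj hj'
      rw [hl₁, Finset.mem_toList, Finset.mem_sdiff] at hj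
      rw [hl₂, Finset.mem_toList, Finset.mem_sdiff] at hj'
      exact hj'.2 hj.1
    · intro j hj
      rcases List.mem_append.1 hj with hj | hj
      · rw [hl₁, Finset.mem_toList, Finset.mem_sdiff] at hj
        exact hj.2
      · rw [hl₂, Finset.mem_toList, Finset.mem_sdiff] at hj
        exact fun h => hj.2 (hI₁ h)
    · rw [List.toFinset_append, ← Finset.union_assoc, hl₁s, hl₂, Finset.toList_toFinset,
        Finset.union_sdiff_of_subset (Finset.subset_univ _)]
    · rw [tot_append, hl₁s]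
      have h3 := tot_free M Λ n hS l₁ I (Finset.nodup_toList _) (by
        intro j hj
        rw [hl₁, Finset.mem_toList, Finset.mem_sdiff] at hj
        exact hj.2) (by rw [hl₁s, hc₁])
      have h4 := tot_ge M hM Λ n hS hF I₁ hc₁.le l₂ (by
        rw [hl₂, Finset.toList_toFinset, Finset.union_sdiff_of_subset (Finset.subset_univ _)])
      have h5 : (l₁.map fun j => ((M : ℚ) - wt m M j)).sum = ∑ j ∈ I₁ \ I, ((M : ℚ) - wt m M j) := by
        rw [hl₁, Finset.sum_map_toList]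
      rw [h5] at h3
      have h6 : ∑ i ∈ I₁, (((M / Nat.gcd M (m i) : ℕ) : ℚ) - 1)
          = ∑ i ∈ I, ((wt m M i : ℚ) - 1) + ∑ j ∈ I₁ \ I, ((wt m M j : ℚ) - 1) := by
        rw [add_comm, Finset.sum_sdiff hI₁]
        rfl
      rw [h6] at h4
      have h7 : ∑ j ∈ I₁ \ I, ((M : ℚ) - wt m M j) + ∑ j ∈ I₁ \ I, ((wt m M j : ℚ) - 1)
          = ((n : ℚ) - I.card) * (M - 1) := by
        rw [← Finset.sum_add_distrib]
        have h8 : ∀ j ∈ I₁ \ I, ((M : ℚ) - wt m M j) + ((wt m M j : ℚ) - 1) = M - 1 := by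
          intro j _; ring
        rw [Finset.sum_congr rfl h8, Finset.sum_const, nsmul_eq_mul,
          Finset.cast_card_sdiff hI₁, hc₁]
      linarith

end

variable {r : ℕ} {R : AddSubgroup (ℤ × (Fin r → ℤ))} {δ e : Fin r → ℕ} {n : ℕ}

/-- the class modulo the ramification indices to which the numbers `e - 1 - a` belong -/
def x0 (e : Fin r → ℕ) (c : ℤ × (Fin r → ℤ)) : ∀ i, ZMod (e i) :=
  fun i => ((e i - 1 - c.2 i : ℤ) : ZMod (e i))

/-- the exponents -/
def aOf {e : Fin r → ℕ} (y : ∀ i, ZMod (e i)) (i : Fin r) : ℕ := e i - 1 - (y i).val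

/-- the degree of the class `c - (e - 1)` -/
noncomputable def bet (δ e : Fin r → ℕ) (c : ℤ × (Fin r → ℤ)) : ℚ :=
  c.1 + ∑ i, ((c.2 i : ℚ) - (e i - 1)) * (δ i / e i)

theorem Dat.exists_L (h : Dat R δ e n) (c : ℤ × (Fin r → ℤ)) (y : ∀ i, ZMod (e i))
    (hy : y - x0 e c ∈ Lam R e) :
    ∃ L : ℤ, ((c.1 - L, fun i => c.2 i - (aOf y i : ℤ)) : ℤ × (Fin r → ℤ)) ∈ R ∧
      (L : ℚ) = bet δ e c + ∑ i, ((y i).val : ℚ) * (δ i / e i) := by
  classical
  have hne := h.neZero
  obtain ⟨ρ, hρ, hρy⟩ := hy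
  have h1 : ∀ i, ∃ q : ℤ, c.2 i - (aOf y i : ℤ) = ρ.2 i + q * e i := by
    intro i
    have h2 := congrFun hρy i
    have h3 : ((ρ.2 i : ℤ) : ZMod (e i)) = y i - ((e i - 1 - c.2 i : ℤ) : ZMod (e i)) := h2
    have h4 : (aOf y i : ℤ) = e i - 1 - (y i).val := by
      have h5 := ZMod.val_lt (y i)
      rw [aOf]
      omega
    have h5 : ((c.2 i - (aOf y i : ℤ) : ℤ) : ZMod (e i)) = ((ρ.2 i : ℤ) : ZMod (e i)) := by
      rw [h3, h4]
      push_cast
      rw [ZMod.natCast_zmod_val]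
      ring
    rw [ZMod.intCast_eq_intCast_iff_dvd_sub] at h5
    obtain ⟨q, hq⟩ := h5
    exact ⟨-q, by linarith⟩
  choose q hq using h1
  set σ : ℤ × (Fin r → ℤ) := ρ + ∑ i, q i • ((-(δ i : ℤ), Pi.single i (e i : ℤ)) :
    ℤ × (Fin r → ℤ)) with hσ
  have hσR : σ ∈ R := R.add_mem hρ (R.sum_mem fun i _ => R.zsmul_mem (h.rel i) _)
  have hσ2 : ∀ i, σ.2 i = c.2 i - (aOf y i : ℤ) := by
    intro i
    rw [hq i, hσ, Prod.snd_add, Pi.add_apply, Prod.snd_sum, Finset.sum_apply,
      Finset.sum_eq_single i]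
    · simp
    · intro j _ hji
      simp [hji.symm]
    · intro hi; exact absurd (Finset.mem_univ i) hi
  refine ⟨c.1 - σ.1, ?_, ?_⟩
  · have h2 : ((c.1 - (c.1 - σ.1), fun i => c.2 i - (aOf y i : ℤ)) : ℤ × (Fin r → ℤ)) = σ := by
      refine Prod.ext ?_ ?_
      · simp
      · funext i
        exact (hσ2 i).symm
    rw [h2]
    exact hσR
  · have h2 := h.deg σ hσR
    rw [bet]
    push_cast
    have h3 : ∑ i, ((c.2 i : ℚ) - (e i - 1)) * (δ i / e i) + ∑ i, ((y i).val : ℚ) * (δ i / e i)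
        = ∑ i, (σ.2 i : ℚ) * (δ i / e i) := by
      rw [← Finset.sum_add_distrib]
      refine Finset.sum_congr rfl fun i _ => ?_
      rw [hσ2 i]
      have h4 : ((aOf y i : ℕ) : ℚ) = e i - 1 - (y i).val := by
        have h5 := ZMod.val_lt (y i)
        have h6 : aOf y i + 1 + (y i).val = e i := by rw [aOf]; omega
        have h7 : ((aOf y i : ℕ) : ℚ) + 1 + (y i).val = e i := by exact_mod_cast h6
        linarith
      push_cast
      rw [h4]
      ring
    linarith

theorem Dat.wt_le (h : Dat R δ e n) {M : ℕ} (hM : M ≠ 0) (hd : ∀ j, e j ∣ M * δ j) (j : Fin r) :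
    (wt e M j : ℚ) ≤ M * (δ j / e j) := by
  have hne := h.neZero j
  have he : 0 < e j := Nat.pos_of_ne_zero hne.ne
  set g := Nat.gcd M (e j) with hg
  have hgpos : 0 < g := Nat.gcd_pos_of_pos_right _ he
  have h1 : e j / g ∣ δ j := by
    have h2 : e j / g ∣ (M / g) * δ j := by
      obtain ⟨t, ht⟩ := hd j
      refine ⟨t, ?_⟩
      have h3 : g * ((M / g) * δ j) = g * (e j / g * t) := by
        rw [← mul_assoc, Nat.mul_div_cancel' (Nat.gcd_dvd_left _ _), ht, ← mul_assoc,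
          Nat.mul_div_cancel' (Nat.gcd_dvd_right _ _)]
      exact Nat.eq_of_mul_eq_mul_left hgpos h3
    exact (Nat.Coprime.symm (Nat.coprime_div_gcd_div_gcd hgpos)).dvd_of_dvd_mul_left h2
  have h2 : e j ≤ g * δ j := by
    calc e j = g * (e j / g) := (Nat.mul_div_cancel' (Nat.gcd_dvd_right _ _)).symm
      _ ≤ g * δ j := Nat.mul_le_mul_left _ (Nat.le_of_dvd (h.δpos j) h1)
  have h3 : (wt e M j : ℚ) = M / g := by
    rw [wt, Nat.cast_div (Nat.gcd_dvd_left _ _) (by exact_mod_cast hgpos.ne')]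
  rw [h3, mul_div_assoc', div_le_div_iff₀ (by exact_mod_cast hgpos) (by exact_mod_cast he)]
  have h4 : (e j : ℚ) ≤ g * δ j := by exact_mod_cast h2
  have h5 : (0 : ℚ) ≤ M := by positivity
  nlinarith

/-- The lower bound for the degree of the coefficient. -/
theorem Dat.L_ge (h : Dat R δ e n) {M : ℕ} (hM : M ≠ 0) (hd : ∀ j, e j ∣ M * δ j)
    (y : ∀ i, ZMod (e i)) (I : Finset (Fin r)) (l : List (Fin r)) (hnd : l.Nodup)
    (hlI : ∀ j ∈ l, j ∉ I) :
    ∑ i ∈ I, ((y i).val : ℚ) * wt e M i + (l.map fun j => ((y j).val * wt e M j : ℚ)).sum ≤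
      M * ∑ i, ((y i).val : ℚ) * (δ i / e i) := by
  classical
  have h1 : (l.map fun j => ((y j).val * wt e M j : ℚ)).sum
      = ∑ j ∈ l.toFinset, ((y j).val : ℚ) * wt e M j := by
    rw [List.sum_toFinset _ hnd]
  rw [h1, ← Finset.sum_union (Finset.disjoint_left.2 fun i hi hi' =>
    hlI i (List.mem_toFinset.1 hi') hi), Finset.mul_sum]
  have h2 : ∀ i, ((y i).val : ℚ) * wt e M i ≤ M * (((y i).val : ℚ) * (δ i / e i)) := by
    intro i
    have h3 := h.wt_le hM hd i
    have h4 : (0 : ℚ) ≤ (y i).val := by positivity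
    nlinarith
  calc ∑ j ∈ I ∪ l.toFinset, ((y j).val : ℚ) * wt e M j
      ≤ ∑ j, ((y j).val : ℚ) * wt e M j :=
        Finset.sum_le_sum_of_subset_of_nonneg (Finset.subset_univ _) fun i _ _ => by positivity
    _ ≤ ∑ i, M * (((y i).val : ℚ) * (δ i / e i)) := Finset.sum_le_sum fun i _ => h2 i

end Pool.Agent.K3h47.FU
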