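import Pool.Agent.K3h47.FU.Comp2
import Pool.Agent.K3h47.FU.Elem

/-! The lower bound for the second best elements. -/

set_option autoImplicit false
set_option linter.unusedSectionVars false

namespace Pool.Agent.K3h47.FU

variable {ι : Type} [DecidableEq ι] {m : ι → ℕ}

theorem TT_append (U : Finset (Σ _ : ℕ, ℕ)) (Λ : AddSubgroup (∀ j, ZMod (m j))) :
    ∀ (l₁ l₂ : List ι) (I : Finset ι),
      TT U Λ I (l₁ ++ l₂) = TT U Λ I l₁ ++ TT U Λ (I ∪ l₁.toFinset) l₂ := by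
  intro l₁
  induction l₁ with
  | nil => intro l₂ I; simp [TT]
  | cons j l₁ ih =>
    intro l₂ I
    rw [List.cons_append, TT, TT, ih]
    have : insert j I ∪ l₁.toFinset = I ∪ (j :: l₁).toFinset := by
      rw [List.toFinset_cons]
      ext w
      simp only [Finset.mem_union, Finset.mem_insert]
      tauto
    rw [this, List.cons_append]

variable [Fintype ι] [∀ j, NeZero (m j)] {M : ℕ} (hM : M ≠ 0)
    (Λ : AddSubgroup (∀ j, ZMod (m j))) (n : ℕ)
    (hS : ∀ I : Finset ι, I.card ≤ n → ∀ i ∈ I, ∃ ρ ∈ Λ, ρ i = 1 ∧ ∀ i' ∈ I, i' ≠ i → ρ i' = 0)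
    (hF : ∀ p : ℕ, p.Prime → p ∣ M →
      n + 1 ≤ (Finset.univ.filter (fun j => p ^ M.factorization p ∣ m j)).card)
    (I : Finset ι) (hI : I.card ≤ n)
include hM hS hF hI

theorem tot_second (l₁ l₂ : List ι) (j : ι) (hl : I ∪ (l₁ ++ j :: l₂).toFinset = Finset.univ)
    (hg : 2 ≤ Nat.card (prj Λ (I ∪ l₁.toFinset) 0 j)) :
    ∑ i ∈ I, (((M / Nat.gcd M (m i) : ℕ) : ℚ) - 1)
      + ((n : ℚ) - I.card) * (M - 1) - 1 ≤
      tot M Λ I l₁ + (M - 2 * (M / Nat.card (prj Λ (I ∪ l₁.toFinset) 0 j)))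
        + tot M Λ (insert j (I ∪ l₁.toFinset)) l₂ := by
  classical
  set g := Nat.card (prj Λ (I ∪ l₁.toFinset) 0 j) with hgdef
  have hgpos : (0 : ℚ) < g := by exact_mod_cast (by omega : 0 < g)
  have hg2 : (2 : ℚ) ≤ g := by exact_mod_cast hg
  set F : Finset (Σ _ : ℕ, ℕ) → ℤ := fun T => ∏ u ∈ dig M, qd u
      - ∏ u ∈ (dig M).filter (· ∉ T), qd u with hFdef
  set T₀ := (dig M).filter (fun u => Nat.card (prj Λ (I ∪ l₁.toFinset) (u.1 ^ u.2) j) ≠
      Nat.card (prj Λ (I ∪ l₁.toFinset) (u.1 ^ (u.2 - 1)) j)) with hT₀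
  have hTT : TT (dig M) Λ I (l₁ ++ j :: l₂) = TT (dig M) Λ I l₁ ++
      T₀ :: TT (dig M) Λ (insert j (I ∪ l₁.toFinset)) l₂ := by
    rw [TT_append, TT]
  have hs1 := sum_TT_le' hM Λ l₁ I
  have hs2 := sum_TT_le' hM Λ l₂ (insert j (I ∪ l₁.toFinset))
  have hs0 := sum_TT_le' hM Λ [j] (I ∪ l₁.toFinset)
  rw [tot, tot, add_zero, TT, TT, List.map_cons, List.map_nil, List.sum_cons, List.sum_nil,
    add_zero, ← hT₀, ← hgdef] at hs0
  have hcount := count_dig hM Λ n hS hF I hI (l₁ ++ j :: l₂) hl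
  have h2 : ∀ W : ι → ℕ, (((∑ i ∈ I, ((W i : ℤ) - 1) + ((n - I.card : ℕ) : ℤ) * ((M : ℤ) - 1)
      : ℤ)) : ℚ) = ∑ i ∈ I, ((W i : ℚ) - 1) + ((n : ℚ) - I.card) * (M - 1) := by
    intro W
    push_cast [Nat.cast_sub hI]
    ring
  have h3 := h2 (fun i => M / Nat.gcd M (m i))
  rw [← h3]
  have hsum : ((TT (dig M) Λ I (l₁ ++ j :: l₂)).map F).sum
      = ((TT (dig M) Λ I l₁).map F).sum + (F T₀ +
        ((TT (dig M) Λ (insert j (I ∪ l₁.toFinset)) l₂).map F).sum) := by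
    rw [hTT, List.map_append, List.sum_append, List.map_cons, List.sum_cons]
  rcases T₀.eq_empty_or_nonempty with hemp | ⟨u₀, hu₀⟩
  · have h1 := ineq1 qd I (Sd m M) (n - I.card) (TT (dig M) Λ I (l₁ ++ j :: l₂)) (dig M) qd_ge ∅ (by
      intro u hu
      rw [if_neg (Finset.notMem_empty u), add_zero]
      exact hcount u hu)
    change _ ≤ ((TT (dig M) Λ I (l₁ ++ j :: l₂)).map F).sum at h1
    rw [hsum] at h1
    have hF0 : F T₀ = 0 := by
      rw [hemp, hFdef]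
      simp
    rw [hF0, zero_add] at h1
    simp only [Finset.notMem_empty, not_false_eq_true, Finset.filter_true, sub_self, add_zero]
      at h1
    rw [Finset.sum_congr rfl fun i _ => by rw [prod_qd_S hM i], prod_qd_all hM] at h1
    have h4 := (Int.cast_le (R := ℚ)).2 h1
    rw [Int.cast_add (((TT (dig M) Λ I l₁).map F).sum)] at h4
    have h5 : (0 : ℚ) ≤ M - 2 * (M / g) := by
      have h6 : (0 : ℚ) ≤ M := by positivity
      have h7 : 2 * ((M : ℚ) / g) ≤ M := by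
        rw [mul_div_assoc', div_le_iff₀ hgpos]
        nlinarith
      linarith
    linarith
  · have hu₀' : u₀ ∈ dig M := (Finset.filter_subset _ _) hu₀
    have hq2 : 2 ≤ qd u₀ := by
      have h4 := (Nat.prime_of_mem_primeFactors (mem_dig.1 hu₀').1).two_le
      rw [qd, max_eq_right (by omega)]
      exact_mod_cast h4
    have h1 := ineq2 qd I (Sd m M) (n - I.card) (TT (dig M) Λ I (l₁ ++ j :: l₂)) (dig M) qd_ge
      _ _ T₀ u₀ hu₀' hu₀ hq2 hTT hcount
    change _ ≤ ((TT (dig M) Λ I (l₁ ++ j :: l₂)).map F).sum at h1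
    rw [hsum, Finset.sum_congr rfl fun i _ => by rw [prod_qd_S hM i], prod_qd_all hM] at h1
    have hFT : F T₀ = M - ∏ u ∈ (dig M).filter (· ∉ T₀), qd u := by
      rw [hFdef]
      simp only [prod_qd_all hM]
    rw [prod_qd_all hM] at hs0
    rw [hFT] at h1
    set Q : ℤ := ∏ u ∈ (dig M).filter (· ∉ T₀), qd u with hQ
    clear_value Q
    have h4 : ∑ i ∈ I, (((M / Nat.gcd M (m i) : ℕ) : ℤ) - 1)
        + ((n - I.card : ℕ) : ℤ) * ((M : ℤ) - 1) - 1 ≤
        ((TT (dig M) Λ I l₁).map F).sum + ((M : ℤ) - Q - Q) +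
        ((TT (dig M) Λ (insert j (I ∪ l₁.toFinset)) l₂).map F).sum := by linarith
    have h5 := (Int.cast_le (R := ℚ)).2 h4
    rw [Int.cast_sub _ 1, Int.cast_add (((TT (dig M) Λ I l₁).map F).sum + _),
      Int.cast_add (((TT (dig M) Λ I l₁).map F).sum)] at h5
    push_cast at h5 hs0
    have h6 : (Q : ℚ) ≥ M / g := by linarith
    push_cast
    push_cast at hs1 hs2
    linarith

end Pool.Agent.K3h47.FU
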