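import Pool.Agent.K3h47.FU.Rank

/-! The number of coordinates at which the torsion of level `a` grows. -/

set_option autoImplicit false
set_option linter.unusedSectionVars false

namespace Pool.Agent.K3h47.FU

variable {ι : Type} [DecidableEq ι] {m : ι → ℕ}

/-- The rank bound for the elements vanishing on `I`. -/
theorem rank_van [Fintype ι] [∀ j, NeZero (m j)] (Λ : AddSubgroup (∀ j, ZMod (m j))) (n : ℕ)
    (hS : ∀ I : Finset ι, I.card ≤ n → ∀ i ∈ I, ∃ ρ ∈ Λ, ρ i = 1 ∧ ∀ i' ∈ I, i' ≠ i → ρ i' = 0)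
    {p : ℕ} (hp : p.Prime) (v : ℕ)
    (hF : n + 1 ≤ (Finset.univ.filter (fun j => p ^ v ∣ m j)).card)
    (I : Finset ι) (hI : I.card ≤ n) (a : ℕ) (ha : a < v) :
    Nat.card (van Λ I (p ^ a)) * p ^ (I.filter (fun i => ¬ p ^ (v - a) ∣ m i)).card ≤
      Nat.card (van Λ I (p ^ (a + 1))) := by
  classical
  set N := Finset.univ.filter (fun j => p ^ v ∣ m j) with hN
  set Ia := I.filter (fun i => ¬ p ^ (v - a) ∣ m i) with hIa
  set Ib := I.filter (fun i => p ^ (v - a) ∣ m i) with hIb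
  have hab : Ib.card + Ia.card = I.card := Finset.card_filter_add_card_filter_not _
  -- the coordinates outside `I`
  have h1 : Ia.card ≤ (N \ I).card := by
    have h2 : (N ∩ I).card ≤ Ib.card := by
      refine Finset.card_le_card fun j hj => ?_
      rw [Finset.mem_inter, hN, Finset.mem_filter] at hj
      rw [hIb, Finset.mem_filter]
      exact ⟨hj.2, (pow_dvd_pow p (Nat.sub_le v a)).trans hj.1.2⟩
    have h3 := Finset.card_sdiff_add_card_inter N I
    omega
  obtain ⟨J, hJN, hJc⟩ := Finset.exists_subset_card_eq h1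
  have hJI : Disjoint Ib J := by
    rw [Finset.disjoint_left]
    intro j hj hj'
    exact (Finset.mem_sdiff.1 (hJN hj')).2 (Finset.mem_filter.1 hj).1
  have hcard : (Ib ∪ J).card ≤ n := by
    rw [Finset.card_union_of_disjoint hJI, hJc, hab]
    exact hI
  have hpm : ∀ j ∈ J, p ^ v ∣ m j := fun j hj =>
    (Finset.mem_filter.1 (Finset.mem_sdiff.1 (hJN hj)).1).2
  -- the vectors
  have h4 : ∀ j ∈ J, ∃ ρ ∈ Λ, ρ j = 1 ∧ ∀ i' ∈ Ib ∪ J, i' ≠ j → ρ i' = 0 := fun j hj =>
    hS (Ib ∪ J) hcard j (Finset.mem_union_right _ hj)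
  choose! ρ hρΛ hρ1 hρ0 using h4
  -- the multiplier
  set P : ℕ := ∏ i, (m i / p ^ (m i).factorization p) with hP
  have hPc : Nat.Coprime P (p ^ v) := by
    refine Nat.Coprime.pow_right _ ?_
    rw [hP]
    refine Nat.Coprime.prod_left fun i _ => ?_
    exact (Nat.coprime_ordCompl hp (NeZero.ne (m i))).symm
  obtain ⟨z, hz1, hz2⟩ := Nat.chineseRemainder hPc 0 1
  have hz1' : P ∣ z := (Nat.modEq_zero_iff_dvd).1 hz1
  have hc : ∀ j ∈ J, m j / p ^ (a + 1) * p ^ (a + 1) = m j := fun j hj =>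
    Nat.div_mul_cancel ((pow_dvd_pow p ha).trans (hpm j hj))
  have h5 := rank_bound Λ I J hp a (fun j => m j / p ^ (a + 1))
    (fun j => (z * (m j / p ^ (a + 1))) • ρ j)
    (fun j hj => Λ.nsmul_mem (hρΛ j hj) _) ?_ ?_ hc ?_
  · rw [hJc] at h5
    exact h5
  · -- vanishing on `I`
    intro j hj i hi
    by_cases hib : i ∈ Ib
    · have hij : i ≠ j := by
        rintro rfl
        exact (Finset.mem_sdiff.1 (hJN hj)).2 hi
      rw [Pi.smul_apply, hρ0 j hj i (Finset.mem_union_left _ hib) hij, smul_zero]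
    · have hia : ¬ p ^ (v - a) ∣ m i := by
        intro h
        exact hib (Finset.mem_filter.2 ⟨hi, h⟩)
      -- `m i` divides the multiplier
      have h6 : (m i).factorization p ≤ v - a - 1 := by
        by_contra hcon
        push Not at hcon
        refine hia ((pow_dvd_pow p (by omega)).trans (Nat.ordProj_dvd (m i) p))
      have h7 : p ^ (v - a - 1) ∣ m j / p ^ (a + 1) := by
        obtain ⟨t, ht⟩ := hpm j hj
        have h8 : m j = p ^ (v - a - 1) * t * p ^ (a + 1) := by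
          rw [ht]
          have : v = (v - a - 1) + (a + 1) := by omega
          conv_lhs => rw [this, pow_add]
          ring
        rw [h8, Nat.mul_div_cancel _ (pow_pos hp.pos _)]
        exact dvd_mul_right _ _
      have h9 : m i / p ^ (m i).factorization p ∣ z := by
        refine dvd_trans ?_ hz1'
        rw [hP]
        exact Finset.dvd_prod_of_mem (fun i => m i / p ^ (m i).factorization p)
          (Finset.mem_univ i)
      have h10 : m i ∣ z * (m j / p ^ (a + 1)) := by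
        calc m i = (m i / p ^ (m i).factorization p) * p ^ (m i).factorization p :=
              (Nat.div_mul_cancel (Nat.ordProj_dvd _ _)).symm
          _ ∣ z * (m j / p ^ (a + 1)) :=
              mul_dvd_mul h9 ((pow_dvd_pow p h6).trans h7)
      rw [Pi.smul_apply, nsmul_eq_mul, (ZMod.natCast_eq_zero_iff _ _).2 h10, zero_mul]
  · intro j hj i hi hij
    rw [Pi.smul_apply, hρ0 j hj i (Finset.mem_union_right _ hi) hij, smul_zero]
  · intro j hj
    rw [Pi.smul_apply, hρ1 j hj, nsmul_eq_mul, mul_one, ZMod.natCast_eq_natCast_iff]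
    -- `z ≡ 1` modulo `p ^ (a+1)`
    have h6 : z ≡ 1 [MOD p ^ (a + 1)] := hz2.of_dvd (pow_dvd_pow p ha)
    have h7 := h6.mul_right' (m j / p ^ (a + 1))
    rw [mul_comm (p ^ (a + 1)), hc j hj, one_mul] at h7
    exact h7

/-- the sets of pairs `(p, a)` for which the projections of the `p ^ a`- and the
`p ^ (a - 1)`-torsion differ, along a list of coordinates -/
noncomputable def TT (U : Finset (Σ _ : ℕ, ℕ)) (Λ : AddSubgroup (∀ j, ZMod (m j))) :
    Finset ι → List ι → List (Finset (Σ _ : ℕ, ℕ))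
  | _, [] => []
  | I, j :: l => U.filter (fun u => Nat.card (prj Λ I (u.1 ^ u.2) j) ≠
      Nat.card (prj Λ I (u.1 ^ (u.2 - 1)) j)) :: TT U Λ (insert j I) l

theorem card_TT [Fintype ι] [∀ j, NeZero (m j)] (U : Finset (Σ _ : ℕ, ℕ))
    (Λ : AddSubgroup (∀ j, ZMod (m j))) (u : Σ _ : ℕ, ℕ) (hu : u ∈ U) (hp : u.1.Prime)
    (ha : 1 ≤ u.2) : ∀ (l : List ι) (I : Finset ι), I ∪ l.toFinset = Finset.univ →
      Nat.card (van Λ I (u.1 ^ u.2)) = Nat.card (van Λ I (u.1 ^ (u.2 - 1))) *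
        u.1 ^ ((TT U Λ I l).countP (fun T => decide (u ∈ T))) := by
  intro l
  induction l with
  | nil =>
    intro I hI
    rw [List.toFinset_nil, Finset.union_empty] at hI
    subst hI
    rw [card_van_univ, card_van_univ]
    simp [TT]
  | cons j l ih =>
    intro I hI
    have h1 : insert j I ∪ l.toFinset = Finset.univ := by
      rw [List.toFinset_cons] at hI
      rw [← hI]
      ext x
      simp only [Finset.mem_union, Finset.mem_insert]
      tauto
    have h2 := ih (insert j I) h1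
    rw [card_van Λ I (u.1 ^ u.2) j, card_van Λ I (u.1 ^ (u.2 - 1)) j, h2, TT, List.countP_cons]
    have h3 := prj_step Λ I j hp (u.2 - 1)
    rw [Nat.sub_add_cancel ha] at h3
    by_cases h4 : Nat.card (prj Λ I (u.1 ^ u.2) j) = Nat.card (prj Λ I (u.1 ^ (u.2 - 1)) j)
    · rw [h4, if_neg (by simp [h4])]
      ring
    · have h5 := h3.resolve_left h4
      rw [if_pos (by simp [hu, h4]), h5]
      ring

theorem count_le [Fintype ι] [∀ j, NeZero (m j)] (U : Finset (Σ _ : ℕ, ℕ))
    (Λ : AddSubgroup (∀ j, ZMod (m j))) (n : ℕ)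
    (hS : ∀ I : Finset ι, I.card ≤ n → ∀ i ∈ I, ∃ ρ ∈ Λ, ρ i = 1 ∧ ∀ i' ∈ I, i' ≠ i → ρ i' = 0)
    (p a v : ℕ) (hu : (⟨p, a⟩ : Σ _ : ℕ, ℕ) ∈ U) (hp : p.Prime) (ha : 1 ≤ a) (hav : a ≤ v)
    (hF : n + 1 ≤ (Finset.univ.filter (fun j => p ^ v ∣ m j)).card)
    (I : Finset ι) (hI : I.card ≤ n) (l : List ι) (hl : I ∪ l.toFinset = Finset.univ) :
    (I.filter (fun i => ¬ p ^ (v - (a - 1)) ∣ m i)).card ≤
      (TT U Λ I l).countP (fun T => decide ((⟨p, a⟩ : Σ _ : ℕ, ℕ) ∈ T)) := by
  have h1 := rank_van Λ n hS hp v hF I hI (a - 1) (by omega)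
  rw [Nat.sub_add_cancel ha] at h1
  have h2 := card_TT U Λ ⟨p, a⟩ hu hp ha l I hl
  simp only at h2
  rw [h2] at h1
  have h3 : 0 < Nat.card (van Λ I (p ^ (a - 1))) := Nat.card_pos
  have h4 := Nat.le_of_mul_le_mul_left h1 h3
  exact (Nat.pow_le_pow_iff_right hp.one_lt).1 h4

end Pool.Agent.K3h47.FU
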