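import Pool.Agent.K3h47.FU.EE

/-! Sections of line bundles on an abelian cover: products of coordinates and linear forms. -/

set_option autoImplicit false
set_option linter.unusedSectionVars false

namespace Pool.Agent.K3h47.FU

open MvPolynomial

variable {N r : ℕ}

/-- the character of the torus given by `ρ` -/
def chi (ρ : ℤ × (Fin r → ℤ)) (s : ℂˣ) (t : Fin r → ℂˣ) : ℂˣ := s ^ ρ.1 * ∏ i, t i ^ ρ.2 i

theorem chi_add (ρ σ : ℤ × (Fin r → ℤ)) (s : ℂˣ) (t : Fin r → ℂˣ) :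
    chi (ρ + σ) s t = chi ρ s t * chi σ s t := by
  simp only [chi, Prod.fst_add, Prod.snd_add, Pi.add_apply, zpow_add, Finset.prod_mul_distrib]
  exact mul_mul_mul_comm _ _ _ _

theorem chi_zero (s : ℂˣ) (t : Fin r → ℂˣ) : chi (0 : ℤ × (Fin r → ℤ)) s t = 1 := by
  simp [chi]

theorem chi_neg (ρ : ℤ × (Fin r → ℤ)) (s : ℂˣ) (t : Fin r → ℂˣ) :
    chi (-ρ) s t = (chi ρ s t)⁻¹ := by
  rw [eq_inv_iff_mul_eq_one, ← chi_add, neg_add_cancel, chi_zero]

theorem chi_congr {R : AddSubgroup (ℤ × (Fin r → ℤ))} {s : ℂˣ} {t : Fin r → ℂˣ}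
    (h : ∀ ρ ∈ R, chi ρ s t = 1) {ρ σ : ℤ × (Fin r → ℤ)} (hρ : ρ - σ ∈ R) :
    chi ρ s t = chi σ s t := by
  have h1 := h _ hρ
  rw [sub_eq_add_neg, chi_add, chi_neg] at h1
  exact mul_inv_eq_one.1 h1

/-- `Φ` is multiplied by `s ^ L * ∏ t ^ a` -/
def Bi (L : ℕ) (a : Fin r → ℕ) (Φ : MvPolynomial (Fin (N + 1) ⊕ Fin r) ℂ) : Prop :=
  ∀ (s : ℂ) (t : Fin r → ℂ) (x : Fin (N + 1) → ℂ) (z : Fin r → ℂ),
    eval (Sum.elim (fun k => s * x k) (fun i => t i * z i)) Φ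
      = s ^ L * (∏ i, t i ^ a i) * eval (Sum.elim x z) Φ

theorem Bi.mul {L L' : ℕ} {a a' : Fin r → ℕ} {Φ Ψ : MvPolynomial (Fin (N + 1) ⊕ Fin r) ℂ}
    (h : Bi L a Φ) (h' : Bi L' a' Ψ) : Bi (L + L') (a + a') (Φ * Ψ) := by
  intro s t x z
  rw [map_mul, map_mul, h, h', pow_add]
  simp only [Pi.add_apply, pow_add, Finset.prod_mul_distrib]
  ring

theorem Bi.one : Bi 0 0 (1 : MvPolynomial (Fin (N + 1) ⊕ Fin r) ℂ) := by
  intro s t x z
  simp

theorem Bi.pow {L : ℕ} {Φ : MvPolynomial (Fin (N + 1) ⊕ Fin r) ℂ} (h : Bi L 0 Φ) (k : ℕ) :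
    Bi (L * k) 0 (Φ ^ k) := by
  induction k with
  | zero => simpa using Bi.one
  | succ k ih =>
    have := ih.mul h
    rw [pow_succ, Nat.mul_succ]
    simpa using this

/-- the monomial in the `z` with exponents `a` -/
noncomputable def mono (N : ℕ) (a : Fin r → ℕ) : MvPolynomial (Fin (N + 1) ⊕ Fin r) ℂ :=
  ∏ i, X (Sum.inr i) ^ a i

theorem eval_mono (a : Fin r → ℕ) (x : Fin (N + 1) → ℂ) (z : Fin r → ℂ) :
    eval (Sum.elim x z) (mono N a) = ∏ i, z i ^ a i := by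
  simp [mono]

theorem Bi.mono (a : Fin r → ℕ) : Bi 0 a (mono N a) := by
  intro s t x z
  rw [eval_mono, eval_mono]
  simp [mul_pow, Finset.prod_mul_distrib]

/-- the linear form with coefficients `v` -/
noncomputable def lf (r : ℕ) (v : Fin (N + 1) → ℂ) : MvPolynomial (Fin (N + 1) ⊕ Fin r) ℂ :=
  ∑ k, C (v k) * X (Sum.inl k)

theorem eval_lf (v : Fin (N + 1) → ℂ) (x : Fin (N + 1) → ℂ) (z : Fin r → ℂ) :
    eval (Sum.elim x z) (lf r v) = ∑ k, v k * x k := by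
  simp [lf]

theorem Bi.lf (v : Fin (N + 1) → ℂ) : Bi 1 0 (lf r v) := by
  intro s t x z
  rw [eval_lf, eval_lf]
  simp only [pow_one, Pi.zero_apply, pow_zero, Finset.prod_const_one, mul_one, Finset.mul_sum]
  exact Finset.sum_congr rfl fun k _ => by ring

/-- `Φ` is a section of the line bundle of class `c` -/
def Sec (R : AddSubgroup (ℤ × (Fin r → ℤ))) (c : ℤ × (Fin r → ℤ))
    (Φ : MvPolynomial (Fin (N + 1) ⊕ Fin r) ℂ) : Prop :=
  ∀ (s : ℂˣ) (t : Fin r → ℂˣ), (∀ ρ ∈ R, chi ρ s t = 1) →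
    ∀ (x : Fin (N + 1) → ℂ) (z : Fin r → ℂ),
      eval (Sum.elim (fun k => (s : ℂ) * x k) (fun i => (t i : ℂ) * z i)) Φ
        = (chi c s t : ℂ) * eval (Sum.elim x z) Φ

theorem Bi.sec {R : AddSubgroup (ℤ × (Fin r → ℤ))} {c : ℤ × (Fin r → ℤ)} {L : ℕ}
    {a : Fin r → ℕ} {Φ : MvPolynomial (Fin (N + 1) ⊕ Fin r) ℂ} (h : Bi L a Φ)
    (hc : ((c.1 - L, fun i => c.2 i - (a i : ℤ)) : ℤ × (Fin r → ℤ)) ∈ R) : Sec R c Φ := by
  intro s t hst x z
  rw [h]
  have h1 : chi c s t = chi ((L : ℤ), fun i => (a i : ℤ)) s t := chi_congr hst hc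
  rw [h1, chi]
  congr 1
  push_cast
  simp

theorem Sec.add {R : AddSubgroup (ℤ × (Fin r → ℤ))} {c : ℤ × (Fin r → ℤ)}
    {Φ Ψ : MvPolynomial (Fin (N + 1) ⊕ Fin r) ℂ} (h : Sec R c Φ) (h' : Sec R c Ψ) (u v : ℂ) :
    Sec R c (C u * Φ + C v * Ψ) := by
  intro s t hst x z
  rw [map_add, map_mul, map_mul, h s t hst, h' s t hst, map_add, map_mul, map_mul, eval_C, eval_C,
    eval_C, eval_C]
  ring

/-- the derivative of `Φ` at `p` in the direction `u` -/
noncomputable def dd {σ : Type} [Fintype σ] (p u : σ → ℂ) (Φ : MvPolynomial σ ℂ) : ℂ :=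
  ∑ w, eval p (pderiv w Φ) * u w

theorem dd_mul {σ : Type} [Fintype σ] (p u : σ → ℂ) (Φ Ψ : MvPolynomial σ ℂ) :
    dd p u (Φ * Ψ) = dd p u Φ * eval p Ψ + eval p Φ * dd p u Ψ := by
  simp only [dd, Finset.sum_mul, Finset.mul_sum]
  rw [← Finset.sum_add_distrib]
  refine Finset.sum_congr rfl fun w _ => ?_
  rw [pderiv_mul, map_add, map_mul, map_mul]
  ring

theorem dd_X {σ : Type} [Fintype σ] [DecidableEq σ] (p u : σ → ℂ) (w : σ) :
    dd p u (X w) = u w := by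
  simp only [dd, pderiv_X]
  rw [Finset.sum_eq_single w]
  · simp
  · intro b _ hb
    simp [Pi.single_apply, hb.symm]
  · intro h; exact absurd (Finset.mem_univ w) h

theorem dd_lf (v : Fin (N + 1) → ℂ) (p u : Fin (N + 1) ⊕ Fin r → ℂ) :
    dd p u (lf r v) = ∑ k, v k * u (Sum.inl k) := by
  classical
  simp only [dd, lf, map_sum, Finset.sum_mul]
  rw [Finset.sum_comm]
  refine Finset.sum_congr rfl fun k _ => ?_
  rw [Finset.sum_eq_single (Sum.inl k)]
  · simp [pderiv_mul]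
  · intro b _ hb
    simp [pderiv_mul, pderiv_X, Pi.single_apply, hb.symm]
  · intro h; exact absurd (Finset.mem_univ _) h

theorem dd_elim (x u : Fin (N + 1) → ℂ) (z v : Fin r → ℂ)
    (Φ : MvPolynomial (Fin (N + 1) ⊕ Fin r) ℂ) :
    dd (Sum.elim x z) (Sum.elim u v) Φ = ∑ k, eval (Sum.elim x z) (pderiv (Sum.inl k) Φ) * u k
      + ∑ i, eval (Sum.elim x z) (pderiv (Sum.inr i) Φ) * v i := by
  rw [dd, Fintype.sum_sum_type]
  rfl

theorem exists_lf_one {x : Fin (N + 1) → ℂ} (hx : x ≠ 0) : ∃ v : Fin (N + 1) → ℂ,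
    ∑ k, v k * x k ≠ 0 := by
  classical
  obtain ⟨k, hk⟩ := Function.ne_iff.1 hx
  refine ⟨Pi.single k 1, ?_⟩
  rw [Finset.sum_eq_single k]
  · simpa using hk
  · intro b _ hb
    simp [Pi.single_apply, hb]
  · intro h; exact absurd (Finset.mem_univ k) h

/-- a linear form which vanishes at `x` and not at `y` -/
theorem exists_lf {x y : Fin (N + 1) → ℂ} (h : ¬ ∃ c : ℂ, ∀ k, y k = c * x k) :
    ∃ v : Fin (N + 1) → ℂ, ∑ k, v k * x k = 0 ∧ ∑ k, v k * y k ≠ 0 := by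
  classical
  by_cases hx : x = 0
  · have hy : y ≠ 0 := by
      rintro rfl
      exact h ⟨0, fun k => by simp⟩
    obtain ⟨v, hv⟩ := exists_lf_one hy
    exact ⟨v, by simp [hx], hv⟩
  · obtain ⟨k, hk⟩ := Function.ne_iff.1 hx
    by_contra hcon
    push Not at hcon
    refine h ⟨y k / x k, fun l => ?_⟩
    have hk' : x k ≠ 0 := hk
    by_cases hlk : l = k
    · subst hlk
      field_simp
    · have h1 := hcon (fun i => if i = l then x k else if i = k then - x l else 0) (by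
        rw [← Finset.add_sum_erase _ _ (Finset.mem_univ l), if_pos rfl,
          ← Finset.add_sum_erase _ _ (Finset.mem_erase.2 ⟨Ne.symm hlk, Finset.mem_univ k⟩),
          if_neg (Ne.symm hlk), if_pos rfl, Finset.sum_eq_zero]
        · ring
        · intro i hi
          rw [Finset.mem_erase, Finset.mem_erase] at hi
          rw [if_neg hi.2.1, if_neg hi.1, zero_mul])
      rw [← Finset.add_sum_erase _ _ (Finset.mem_univ l), if_pos rfl,
        ← Finset.add_sum_erase _ _ (Finset.mem_erase.2 ⟨Ne.symm hlk, Finset.mem_univ k⟩),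
        if_neg (Ne.symm hlk), if_pos rfl, Finset.sum_eq_zero] at h1
      · rw [div_mul_eq_mul_div, eq_div_iff hk']
        linear_combination h1
      · intro i hi
        rw [Finset.mem_erase, Finset.mem_erase] at hi
        rw [if_neg hi.2.1, if_neg hi.1, zero_mul]

end Pool.Agent.K3h47.FU
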