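import Mathlib

/-! Finite subgroups of a product of cyclic groups: orders of torsion subgroups and of their
projections. -/

set_option autoImplicit false

namespace Pool.Agent.K3h47.FU

theorem card_split {A D : Type*} [AddCommGroup A] [AddCommGroup D] (B C : AddSubgroup A)
    (f : A →+ D) (hC : ∀ x, x ∈ C ↔ x ∈ B ∧ f x = 0) :
    Nat.card B = Nat.card C * Nat.card (B.map f) := by
  set g : B →+ D := f.comp B.subtype with hg
  have h1 : Nat.card B = Nat.card (B ⧸ g.ker) * Nat.card g.ker :=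
    AddSubgroup.card_eq_card_quotient_mul_card_addSubgroup g.ker
  have h2 : Nat.card (B ⧸ g.ker) = Nat.card g.range :=
    Nat.card_congr (QuotientAddGroup.quotientKerEquivRange g).toEquiv
  have h3 : g.range = B.map f := by
    rw [hg, AddMonoidHom.range_eq_map, ← AddSubgroup.map_map, ← AddMonoidHom.range_eq_map,
      AddSubgroup.range_subtype]
  have h4 : Nat.card g.ker = Nat.card C := by
    refine Nat.card_congr ⟨fun x => ⟨x.1.1, (hC _).2 ⟨x.1.2, ?_⟩⟩,
      fun x => ⟨⟨x.1, ((hC _).1 x.2).1⟩, ?_⟩, fun x => rfl, fun x => rfl⟩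
    · exact x.2
    · exact ((hC _).1 x.2).2
  rw [h1, h2, h3, h4, mul_comm]

set_option linter.unusedSectionVars false

variable {ι : Type} [DecidableEq ι] {m : ι → ℕ}

/-- the elements of `Λ` which vanish on `I` and are killed by `k` -/
def van (Λ : AddSubgroup (∀ j, ZMod (m j))) (I : Finset ι) (k : ℕ) :
    AddSubgroup (∀ j, ZMod (m j)) where
  carrier := {x | x ∈ Λ ∧ (∀ i ∈ I, x i = 0) ∧ k • x = 0}
  zero_mem' := ⟨Λ.zero_mem, fun _ _ => rfl, smul_zero _⟩
  add_mem' := by
    rintro a b ⟨h1, h2, h3⟩ ⟨h4, h5, h6⟩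
    refine ⟨Λ.add_mem h1 h4, fun i hi => ?_, by rw [smul_add, h3, h6, add_zero]⟩
    rw [Pi.add_apply, h2 i hi, h5 i hi, add_zero]
  neg_mem' := by
    rintro a ⟨h1, h2, h3⟩
    refine ⟨Λ.neg_mem h1, fun i hi => ?_, by rw [smul_neg, h3, neg_zero]⟩
    rw [Pi.neg_apply, h2 i hi, neg_zero]

theorem mem_van {Λ : AddSubgroup (∀ j, ZMod (m j))} {I : Finset ι} {k : ℕ}
    {x : ∀ j, ZMod (m j)} : x ∈ van Λ I k ↔ x ∈ Λ ∧ (∀ i ∈ I, x i = 0) ∧ k • x = 0 := Iff.rfl

/-- the projection of `van Λ I k` to the coordinate `j` -/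
def prj (Λ : AddSubgroup (∀ j, ZMod (m j))) (I : Finset ι) (k : ℕ) (j : ι) :
    AddSubgroup (ZMod (m j)) := (van Λ I k).map (Pi.evalAddMonoidHom _ j)

theorem card_van (Λ : AddSubgroup (∀ j, ZMod (m j))) (I : Finset ι) (k : ℕ) (j : ι) :
    Nat.card (van Λ I k) = Nat.card (van Λ (insert j I) k) * Nat.card (prj Λ I k j) := by
  refine card_split _ _ _ fun x => ?_
  simp only [mem_van, Finset.mem_insert, forall_eq_or_imp, Pi.evalAddMonoidHom_apply]
  tauto

theorem card_van_univ [Fintype ι] (Λ : AddSubgroup (∀ j, ZMod (m j))) (k : ℕ) :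
    Nat.card (van Λ Finset.univ k) = 1 := by
  rw [Nat.card_eq_one_iff_unique]
  refine ⟨⟨fun a b => ?_⟩, ⟨0⟩⟩
  ext i
  rw [a.2.2.1 i (Finset.mem_univ _), b.2.2.1 i (Finset.mem_univ _)]

theorem prj_mono (Λ : AddSubgroup (∀ j, ZMod (m j))) (I : Finset ι) {k l : ℕ} (h : k ∣ l) (j : ι) :
    prj Λ I k j ≤ prj Λ I l j := by
  refine AddSubgroup.map_mono ?_
  rintro x ⟨h1, h2, h3⟩
  obtain ⟨c, rfl⟩ := h
  exact ⟨h1, h2, by rw [mul_comm, mul_smul, h3, smul_zero]⟩

/-- In a cyclic group at most `p` elements are killed by `p`. -/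
theorem card_tor_le (n p : ℕ) [NeZero n] (hp : 0 < p) :
    Nat.card {x : ZMod n // p • x = 0} ≤ p := by
  have h := IsAddCyclic.card_nsmul_eq_zero_le (α := ZMod n) hp
  rwa [Nat.card_eq_fintype_card, Fintype.card_subtype]

/-- the orders of the projections of the torsion subgroups for `p^(a+1)` and `p^a` are equal or
differ by a factor `p` -/
theorem prj_step [∀ j, NeZero (m j)] (Λ : AddSubgroup (∀ j, ZMod (m j))) (I : Finset ι) (j : ι)
    {p : ℕ} (hp : p.Prime) (a : ℕ) :
    Nat.card (prj Λ I (p ^ (a + 1)) j) = Nat.card (prj Λ I (p ^ a) j) ∨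
      Nat.card (prj Λ I (p ^ (a + 1)) j) = p * Nat.card (prj Λ I (p ^ a) j) := by
  set H := prj Λ I (p ^ (a + 1)) j
  set H' := prj Λ I (p ^ a) j
  have hle : H' ≤ H := prj_mono Λ I (pow_dvd_pow p (Nat.le_succ a)) j
  -- multiplication by `p` maps `H` to `H'`
  have hmul : ∀ x ∈ H, p • x ∈ H' := by
    rintro _ ⟨x, ⟨h1, h2, h3⟩, rfl⟩
    refine ⟨p • x, ⟨Λ.nsmul_mem h1 p, fun i hi => ?_, ?_⟩, ?_⟩
    · rw [Pi.smul_apply, h2 i hi, smul_zero]
    · rw [← mul_smul, ← pow_succ]
      exact h3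
    · simp
  have h1 : Nat.card H ≤ p * Nat.card H' := by
    let K : AddSubgroup (ZMod (m j)) :=
      { carrier := {x | x ∈ H ∧ p • x = 0}
        zero_mem' := ⟨H.zero_mem, smul_zero _⟩
        add_mem' := by
          rintro a b ⟨h1, h2⟩ ⟨h3, h4⟩
          exact ⟨H.add_mem h1 h3, by rw [smul_add, h2, h4, add_zero]⟩
        neg_mem' := by
          rintro a ⟨h1, h2⟩
          exact ⟨H.neg_mem h1, by rw [smul_neg, h2, neg_zero]⟩ }
    have h2 := card_split H K (nsmulAddMonoidHom p : ZMod (m j) →+ ZMod (m j)) (fun x => Iff.rfl)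
    have h3 : Nat.card K ≤ p := by
      refine le_trans ?_ (card_tor_le (m j) p hp.pos)
      exact Nat.card_le_card_of_injective (fun x : K => (⟨x.1, x.2.2⟩ : {x : ZMod (m j) // p • x = 0}))
        (fun x y h => Subtype.ext (congrArg (fun z => z.1) h))
    have h4 : Nat.card (H.map (nsmulAddMonoidHom p : ZMod (m j) →+ ZMod (m j))) ≤ Nat.card H' := by
      refine Nat.card_mono (Set.toFinite _) ?_
      rintro _ ⟨x, hx, rfl⟩
      exact hmul x hx
    rw [h2]
    exact Nat.mul_le_mul h3 h4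
  obtain ⟨r, hr⟩ : Nat.card H' ∣ Nat.card H := AddSubgroup.card_dvd_of_le hle
  have hpos : 0 < Nat.card H' := Nat.card_pos
  have hrp : r ≤ p := by
    rw [hr, mul_comm] at h1
    exact Nat.le_of_mul_le_mul_right h1 hpos
  by_cases heq : H = H'
  · left; rw [heq]
  · right
    have h5 : ∃ x ∈ H, x ∉ H' := by
      by_contra hcon
      push Not at hcon
      exact heq (le_antisymm hcon hle)
    obtain ⟨x, hx, hx'⟩ := h5
    -- the class of `x` has order `p` in `H/H'`
    have h6 : p ∣ r := by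
      have h7 : Nat.card (H ⧸ H'.addSubgroupOf H) = r := by
        have h7a := AddSubgroup.card_eq_card_quotient_mul_card_addSubgroup (H'.addSubgroupOf H)
        rw [Nat.card_congr (AddSubgroup.addSubgroupOfEquivOfLe hle).toEquiv, hr, mul_comm] at h7a
        exact (Nat.eq_of_mul_eq_mul_right hpos h7a).symm
      have := Fact.mk hp
      have h8 : addOrderOf (QuotientAddGroup.mk (⟨x, hx⟩ : H) : H ⧸ H'.addSubgroupOf H) = p := by
        refine addOrderOf_eq_prime ?_ ?_
        · rw [← QuotientAddGroup.mk_nsmul, QuotientAddGroup.eq_zero_iff,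
            AddSubgroup.mem_addSubgroupOf]
          exact hmul x hx
        · rw [Ne, QuotientAddGroup.eq_zero_iff, AddSubgroup.mem_addSubgroupOf]
          exact hx'
      have h9 := addOrderOf_dvd_natCard (QuotientAddGroup.mk (⟨x, hx⟩ : H) : H ⧸ H'.addSubgroupOf H)
      rw [h8, h7] at h9
      exact h9
    have h10 : r ≠ 0 := by
      rintro rfl
      rw [mul_zero] at hr
      have : 0 < Nat.card H := Nat.card_pos
      omega
    have h11 : r = p := le_antisymm hrp (Nat.le_of_dvd (Nat.pos_of_ne_zero h10) h6)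
    rw [hr, h11, mul_comm]

end Pool.Agent.K3h47.FU
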