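import Pool.Agent.K3h47.FU.Sep

/-! Base points, separation of points and of tangent vectors on an abelian cover. -/

set_option autoImplicit false
set_option linter.unusedSectionVars false

namespace Pool.Agent.K3h47.FU

open MvPolynomial

variable {N r : ℕ} {R : AddSubgroup (ℤ × (Fin r → ℤ))} {δ e : Fin r → ℕ} {n : ℕ}

theorem eval_hom {p : MvPolynomial (Fin (N + 1)) ℂ} {k : ℕ} (hp : p.IsHomogeneous k) (s : ℂ)
    (x : Fin (N + 1) → ℂ) : eval (fun i => s * x i) p = s ^ k * eval x p := by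
  rw [eval_eq, eval_eq, Finset.mul_sum]
  refine Finset.sum_congr rfl fun d hd => ?_
  have h0 : d.degree = k := by
    have := hp (mem_support_iff.1 hd)
    rw [Finsupp.degree_eq_weight_one]; exact this
  have h1 : ∏ i ∈ d.support, s ^ d i = s ^ k := by
    rw [Finset.prod_pow_eq_pow_sum]
    congr 1
  simp only [mul_pow, Finset.prod_mul_distrib, h1]
  ring

/-- The inertia groups are as large as possible if the action is free. -/
theorem sur_of_free (he : ∀ i, e i ≠ 0) (I : Finset (Fin r))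
    (hfree : ∀ t : Fin r → ℂˣ, (∀ i, i ∉ I → t i = 1) → (∀ ρ ∈ R, chi ρ 1 t = 1) →
      ∀ i, t i = 1) :
    ∀ i ∈ I, ∃ ρ ∈ Lam R e, ρ i = 1 ∧ ∀ i' ∈ I, i' ≠ i → ρ i' = 0 := by
  classical
  have hne : ∀ i, NeZero (e i) := fun i => ⟨he i⟩
  let V : AddSubgroup (∀ i, ZMod (e i)) :=
    { carrier := {x | ∀ i ∈ I, x i = 0}
      zero_mem' := fun i _ => rfl
      add_mem' := fun {a b} ha hb i hi => by rw [Pi.add_apply, ha i hi, hb i hi, add_zero]
      neg_mem' := fun {a} ha i hi => by rw [Pi.neg_apply, ha i hi, neg_zero] }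
  have htop : ∀ x : (∀ i, ZMod (e i)), x ∈ Lam R e ⊔ V := by
    intro x
    by_contra hx
    have hx1 : (Multiplicative.ofAdd (QuotientAddGroup.mk x : (∀ i, ZMod (e i)) ⧸ (Lam R e ⊔ V)))
        ≠ 1 := by
      intro h1
      apply hx
      rw [← QuotientAddGroup.eq_zero_iff]
      exact h1
    obtain ⟨φ, hφ⟩ := CommGroup.exists_apply_ne_one_of_hasEnoughRootsOfUnity
      (Multiplicative ((∀ i, ZMod (e i)) ⧸ (Lam R e ⊔ V))) ℂ hx1
    set ψ : (∀ i, ZMod (e i)) →+ Additive ℂˣ :=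
      (MonoidHom.toAdditiveRight φ).comp (QuotientAddGroup.mk' (Lam R e ⊔ V)) with hψ
    have hψ0 : ∀ y ∈ Lam R e ⊔ V, ψ y = 0 := by
      intro y hy
      rw [hψ, AddMonoidHom.comp_apply, QuotientAddGroup.mk'_apply,
        (QuotientAddGroup.eq_zero_iff y).2 hy, map_zero]
    have hψx : ψ x ≠ 0 := hφ
    set t : Fin r → ℂˣ := fun i => Additive.toMul (ψ (Pi.single i 1)) with ht
    have hlift : ∀ (y : ∀ i, ZMod (e i)) (u : Fin r → ℤ), (∀ i, ((u i : ℤ) : ZMod (e i)) = y i) →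
        Additive.toMul (ψ y) = ∏ i, t i ^ u i := by
      intro y u hu
      have h1 : y = ∑ i, u i • (Pi.single i 1 : ∀ i, ZMod (e i)) := by
        funext j
        rw [Finset.sum_apply, Finset.sum_eq_single j]
        · rw [Pi.smul_apply, Pi.single_eq_same, zsmul_eq_mul, mul_one, hu j]
        · intro b _ hb
          rw [Pi.smul_apply, Pi.single_eq_of_ne hb.symm, smul_zero]
        · intro h2
          exact absurd (Finset.mem_univ j) h2
      rw [h1, map_sum, toMul_sum]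
      refine Finset.prod_congr rfl fun i _ => ?_
      rw [map_zsmul, toMul_zsmul]
    have ht1 := hfree t (fun i hi => by
      have h1 : (Pi.single i 1 : ∀ i, ZMod (e i)) ∈ Lam R e ⊔ V := by
        refine AddSubgroup.mem_sup_right ?_
        intro j hj
        have hji : j ≠ i := fun h2 => hi (h2 ▸ hj)
        exact Pi.single_eq_of_ne hji _
      rw [ht]
      change Additive.toMul (ψ (Pi.single i 1)) = 1
      rw [hψ0 _ h1]
      rfl) (fun ρ hρ => by
      rw [chi, one_zpow, one_mul, ← hlift (red e ρ) ρ.2 (fun i => rfl),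
        hψ0 _ (AddSubgroup.mem_sup_left ⟨ρ, hρ, rfl⟩)]
      rfl)
    apply hψx
    have h1 := hlift x (fun i => ((x i).val : ℤ)) (fun i => by
      rw [Int.cast_natCast, ZMod.natCast_zmod_val])
    rw [Finset.prod_eq_one (fun i _ => by rw [ht1 i, one_zpow])] at h1
    exact h1
  intro i hi
  obtain ⟨y, hy, z, hz, hyz⟩ := AddSubgroup.mem_sup.1 (htop (Pi.single i 1))
  refine ⟨y, hy, ?_, ?_⟩
  · have h1 := congrFun hyz i
    rw [Pi.add_apply, hz i hi, add_zero, Pi.single_eq_same] at h1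
    exact h1
  · intro i' hi' hne'
    have h1 := congrFun hyz i'
    rw [Pi.add_apply, hz i' hi', add_zero, Pi.single_eq_of_ne hne'] at h1
    exact h1

section
variable (h : Dat R δ e n) {M : ℕ} (hM : M ≠ 0) (hd : ∀ j, e j ∣ M * δ j)
    (hF : ∀ p : ℕ, p.Prime → p ∣ M →
      n + 1 ≤ (Finset.univ.filter (fun j => p ^ M.factorization p ∣ e j)).card)
    (c : ℤ × (Fin r → ℤ)) (hβ : -(n : ℚ) * M + n + 1 ≤ M * bet δ e c)
include h hM hd hF hβ

theorem prod_ne {z : Fin r → ℂ} {a : Fin r → ℕ}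
    (ha : ∀ i ∈ Finset.univ.filter (fun i => z i = 0), a i = 0) : ∏ i, z i ^ a i ≠ 0 := by
  refine Finset.prod_ne_zero_iff.2 fun i _ => ?_
  by_cases hi : z i = 0
  · rw [ha i (by simp [hi]), pow_zero]
    exact one_ne_zero
  · exact pow_ne_zero _ hi

/-- two linear forms: the first vanishes to the first order -/
theorem exists_sec (z : Fin r → ℂ)
    (hI : (Finset.univ.filter (fun i => z i = 0)).card ≤ n) (v v' : Fin (N + 1) → ℂ) :
    ∃ (L : ℕ) (a : Fin r → ℕ), ∏ i, z i ^ a i ≠ 0 ∧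
      Sec R c (mono N a * (lf r v * lf r v' ^ L)) := by
  obtain ⟨L, a, hL, ha, hR⟩ := h.E1 hM hd hF c hβ _ hI
  lift L to ℕ using (by omega)
  obtain ⟨L, rfl⟩ : ∃ L', L = L' + 1 := ⟨L - 1, by omega⟩
  refine ⟨L, a, prod_ne h hM hd hF c hβ ha, ?_⟩
  refine Bi.sec (L := L + 1) (a := a) ?_ hR
  have := (Bi.mono (N := N) a).mul ((Bi.lf (r := r) v).mul ((Bi.lf (r := r) v').pow L))
  have h1 : 0 + (1 + 1 * L) = L + 1 := by omega
  rw [h1] at this
  simpa using this

theorem bpf (x : Fin (N + 1) → ℂ) (hx : x ≠ 0) (z : Fin r → ℂ)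
    (hI : (Finset.univ.filter (fun i => z i = 0)).card ≤ n) :
    ∃ Φ : MvPolynomial (Fin (N + 1) ⊕ Fin r) ℂ, Sec R c Φ ∧ eval (Sum.elim x z) Φ ≠ 0 := by
  obtain ⟨v, hv⟩ := exists_lf_one hx
  obtain ⟨L, a, ha, hs⟩ := exists_sec h hM hd hF c hβ z hI v v
  refine ⟨_, hs, ?_⟩
  rw [map_mul, map_mul, map_pow, eval_mono, eval_lf]
  exact mul_ne_zero ha (mul_ne_zero hv (pow_ne_zero _ hv))

theorem pts (x x' : Fin (N + 1) → ℂ) (hx : x ≠ 0) (hx' : x' ≠ 0) (z z' : Fin r → ℂ)
    (f : Fin r → MvPolynomial (Fin (N + 1)) ℂ) (hf : ∀ i, (f i).IsHomogeneous (δ i))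
    (hz : ∀ i, z i ^ e i = eval x (f i)) (hz' : ∀ i, z' i ^ e i = eval x' (f i))
    (hI' : (Finset.univ.filter (fun i => z' i = 0)).card ≤ n)
    (hne : ¬ ∃ (s : ℂˣ) (t : Fin r → ℂˣ), (∀ ρ ∈ R, chi ρ s t = 1) ∧
      (∀ k, x' k = s * x k) ∧ ∀ i, z' i = t i * z i) :
    ∃ Φ : MvPolynomial (Fin (N + 1) ⊕ Fin r) ℂ, Sec R c Φ ∧ eval (Sum.elim x z) Φ = 0 ∧
      eval (Sum.elim x' z') Φ ≠ 0 := by
  classical
  by_cases hxx : ∃ s : ℂ, ∀ k, x' k = s * x k
  · obtain ⟨s, hs⟩ := hxx
    have hs0 : s ≠ 0 := by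
      rintro rfl
      exact hx' (funext fun k => by rw [hs k, zero_mul]; rfl)
    obtain ⟨t, ht⟩ := exists_t (fun i => (h.neZero i).ne) h.deg (Units.mk0 s hs0)
    by_contra hcon
    push Not at hcon
    have hxe : (fun k => ((Units.mk0 s hs0 : ℂˣ) : ℂ) * x k) = x' := by
      funext k
      rw [hs k, Units.val_mk0]
    set w : Fin r → ℂ := fun i => (t i : ℂ) * z i with hw
    have hwe : ∀ i, w i ^ e i = eval x' (f i) := by
      intro i
      have h1 := ht _ (h.rel i)
      have h2 : (t i) ^ e i = (Units.mk0 s hs0) ^ δ i := by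
        rw [chi, Finset.prod_eq_single i] at h1
        · simp only [Pi.single_eq_same, zpow_neg, zpow_natCast] at h1
          rw [inv_mul_eq_one] at h1
          exact h1.symm
        · intro j _ hj
          simp only
          rw [Pi.single_eq_of_ne hj, zpow_zero]
        · intro h3
          exact absurd (Finset.mem_univ i) h3
      have h3 : (t i : ℂ) ^ e i = s ^ δ i := by
        have := congrArg (Units.val) h2
        simpa using this
      rw [hw]
      simp only
      rw [mul_pow, h3, hz i]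
      rw [show x' = fun k => s * x k from funext hs, eval_hom (hf i)]
    have hIe : Finset.univ.filter (fun i => w i = 0) = Finset.univ.filter (fun i => z' i = 0) := by
      ext i
      simp only [Finset.mem_filter, Finset.mem_univ, true_and]
      rw [← pow_eq_zero_iff (h.neZero i).ne, hwe i, ← hz' i, pow_eq_zero_iff (h.neZero i).ne]
    obtain ⟨t', ht', hzt⟩ := same_fibre h c x' hx' w z' (fun i => by rw [hz' i, hwe i])
      (by rw [hIe]; exact hI')
      (by
        rw [hIe]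
        exact fun Γ hΓ => h.E3 hM hd hF c hβ _ hI' Γ hΓ)
      (fun Φ hΦ h0 => by
        refine hcon Φ hΦ ?_
        have h1 := hΦ _ _ ht x z
        rw [hxe] at h1
        rw [show (fun i => (t i : ℂ) * z i) = w from rfl, h0] at h1
        exact (mul_eq_zero.1 h1.symm).resolve_left (Units.ne_zero _))
    refine hne ⟨Units.mk0 s hs0, fun i => t' i * t i, ?_, fun k => by rw [hs k, Units.val_mk0], ?_⟩
    · intro ρ hρ
      have h1 := ht ρ hρ
      have h2 := ht' ρ hρ
      rw [chi] at h1 h2 ⊢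
      rw [one_zpow, one_mul] at h2
      simp only [mul_zpow, Finset.prod_mul_distrib]
      rw [h2, one_mul, h1]
    · intro i
      rw [hzt i, hw]
      push_cast
      ring
  · obtain ⟨v, hv0, hv1⟩ := exists_lf hxx
    obtain ⟨L, a, ha, hs⟩ := exists_sec h hM hd hF c hβ z' hI' v v
    refine ⟨_, hs, ?_, ?_⟩
    · rw [map_mul, map_mul, eval_lf, hv0]
      ring
    · rw [map_mul, map_mul, map_pow, eval_mono, eval_lf]
      exact mul_ne_zero ha (mul_ne_zero hv1 (pow_ne_zero _ hv1))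

theorem tan (x u : Fin (N + 1) → ℂ) (hx : x ≠ 0) (z v : Fin r → ℂ)
    (hI : (Finset.univ.filter (fun i => z i = 0)).card ≤ n)
    (f : Fin r → MvPolynomial (Fin (N + 1)) ℂ) (hf : ∀ i, (f i).IsHomogeneous (δ i))
    (hz : ∀ i, z i ^ e i = eval x (f i))
    (hv : ∀ i, e i * z i ^ (e i - 1) * v i = ∑ k, eval x (pderiv k (f i)) * u k)
    (hne : ¬ ∃ σ : ℂ, (∀ k, u k = σ * x k) ∧ ∀ i, v i = σ * (δ i / e i) * z i) :
    ∃ Φ : MvPolynomial (Fin (N + 1) ⊕ Fin r) ℂ, Sec R c Φ ∧ eval (Sum.elim x z) Φ = 0 ∧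
      dd (Sum.elim x z) (Sum.elim u v) Φ ≠ 0 := by
  classical
  by_cases hxu : ∃ σ : ℂ, ∀ k, u k = σ * x k
  · obtain ⟨σ, hσ⟩ := hxu
    obtain ⟨i₀, hi₀⟩ : ∃ i, v i ≠ σ * (δ i / e i) * z i := by
      by_contra hcon
      push Not at hcon
      exact hne ⟨σ, hσ, hcon⟩
    have hz0 : z i₀ = 0 := by
      by_contra h0
      apply hi₀
      have h1 := hv i₀
      have h2 : ∑ k, eval x (pderiv k (f i₀)) * u k = σ * (δ i₀ * z i₀ ^ e i₀) := by
        have h3 := congrArg (eval x) (hf i₀).sum_X_mul_pderiv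
        rw [map_sum, map_nsmul, nsmul_eq_mul, ← hz i₀] at h3
        rw [← h3, Finset.mul_sum]
        refine Finset.sum_congr rfl fun k _ => ?_
        rw [hσ k, map_mul, eval_X]
        ring
      rw [h2] at h1
      have h3 : e i₀ = e i₀ - 1 + 1 := by have := h.two i₀; omega
      have h4 : z i₀ ^ e i₀ = z i₀ ^ (e i₀ - 1) * z i₀ := by rw [← pow_succ, ← h3]
      rw [h4] at h1
      have h5 : (e i₀ : ℂ) ≠ 0 := by exact_mod_cast (h.neZero i₀).ne
      have h6 : z i₀ ^ (e i₀ - 1) ≠ 0 := pow_ne_zero _ h0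
      have h7 : (e i₀ : ℂ) * v i₀ = σ * (δ i₀ * z i₀) := by
        refine mul_left_cancel₀ h6 ?_
        linear_combination h1
      field_simp
      linear_combination h7
    have hv0 : v i₀ ≠ 0 := by
      rw [hz0, mul_zero] at hi₀
      exact hi₀
    obtain ⟨L, a, hL, ha1, ha0, hR⟩ := h.E2 hM hd hF c hβ _ hI i₀ (by simp [hz0])
    lift L to ℕ using hL
    obtain ⟨q, hq⟩ := exists_lf_one hx
    set a' : Fin r → ℕ := Function.update a i₀ 0 with ha'
    have hmono : mono N a = X (Sum.inr i₀) * mono N a' := by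
      rw [mono, mono, ← Finset.mul_prod_erase _ _ (Finset.mem_univ i₀), ha1, pow_one,
        ← Finset.mul_prod_erase _ _ (Finset.mem_univ i₀)]
      rw [ha', Function.update_self, pow_zero, one_mul]
      congr 1
      refine Finset.prod_congr rfl fun i hi => ?_
      rw [Function.update_of_ne (Finset.ne_of_mem_erase hi)]
    have hs : Sec R c (mono N a * lf r q ^ L) := by
      refine Bi.sec (L := L) (a := a) ?_ hR
      have := (Bi.mono (N := N) a).mul ((Bi.lf (r := r) q).pow L)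
      simpa using this
    refine ⟨_, hs, ?_, ?_⟩
    · rw [hmono, map_mul, map_mul, eval_X, Sum.elim_inr, hz0]
      ring
    · rw [hmono, mul_assoc, dd_mul, dd_X, eval_X, Sum.elim_inr, Sum.elim_inr, hz0, zero_mul,
        add_zero, map_mul, map_pow, eval_mono, eval_lf]
      refine mul_ne_zero hv0 (mul_ne_zero ?_ (pow_ne_zero _ hq))
      refine prod_ne h hM hd hF c hβ fun i hi => ?_
      by_cases hii : i = i₀
      · rw [hii, ha', Function.update_self]
      · rw [ha', Function.update_of_ne hii]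
        exact ha0 i hi hii
  · obtain ⟨q, hq0, hq1⟩ := exists_lf hxu
    obtain ⟨q', hq'⟩ := exists_lf_one hx
    obtain ⟨L, a, ha, hs⟩ := exists_sec h hM hd hF c hβ z hI q q'
    refine ⟨_, hs, ?_, ?_⟩
    · rw [map_mul, map_mul, eval_lf, hq0]
      ring
    · rw [dd_mul, dd_mul, map_mul, eval_lf, hq0, dd_lf, map_pow, eval_mono, eval_lf]
      simp only [Sum.elim_inl]
      rw [zero_mul, mul_zero, zero_add, zero_mul, add_zero]
      exact mul_ne_zero ha (mul_ne_zero hq1 (pow_ne_zero _ hq'))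

end

end Pool.Agent.K3h47.FU
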