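import Pool.Agent.K3h47.FU.Grp

/-! A lower bound for the number of cyclic factors of order divisible by `p^(a+1)`. -/

set_option autoImplicit false
set_option linter.unusedSectionVars false

namespace Pool.Agent.K3h47.FU

variable {ι : Type} [DecidableEq ι] {m : ι → ℕ}

theorem card_kernel_ge {A : Type*} [AddCommGroup A] [Finite A] (L : AddSubgroup A) (p N : ℕ)
    {D : Type*} [AddCommGroup D] (ψ : A →+ D) (h0 : ∀ x ∈ L, ψ (p • x) = 0)
    (hN : N ≤ Nat.card (L.map ψ)) (K : AddSubgroup A) (hK : ∀ x, x ∈ K ↔ x ∈ L ∧ p • x = 0) :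
    N ≤ Nat.card K := by
  have h1 := card_split L K (nsmulAddMonoidHom p : A →+ A) hK
  let C : AddSubgroup A := L ⊓ ψ.ker
  have h2 := card_split L C ψ (fun x => by
    simp only [C, AddSubgroup.mem_inf, AddMonoidHom.mem_ker])
  have h3 : Nat.card (L.map (nsmulAddMonoidHom p : A →+ A)) ≤ Nat.card C := by
    refine Nat.card_mono (Set.toFinite _) ?_
    rintro _ ⟨x, hx, rfl⟩
    exact ⟨L.nsmul_mem hx p, h0 x hx⟩
  have h4 : 0 < Nat.card (L.map (nsmulAddMonoidHom p : A →+ A)) := Nat.card_pos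
  by_contra hcon
  push Not at hcon
  have h5 : Nat.card K * Nat.card (L.map (nsmulAddMonoidHom p : A →+ A)) <
      Nat.card (L.map ψ) * Nat.card C := by
    calc Nat.card K * Nat.card (L.map (nsmulAddMonoidHom p : A →+ A))
        < N * Nat.card (L.map (nsmulAddMonoidHom p : A →+ A)) :=
          Nat.mul_lt_mul_of_pos_right hcon h4
      _ ≤ Nat.card (L.map ψ) * Nat.card C := Nat.mul_le_mul hN h3
  rw [← h1, h2, mul_comm] at h5
  exact lt_irrefl _ h5

theorem rank_bound [Fintype ι] [∀ j, NeZero (m j)] (Λ : AddSubgroup (∀ j, ZMod (m j)))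
    (I J : Finset ι) {p : ℕ} (hp : p.Prime) (a : ℕ) (c : ι → ℕ) (lam : ι → ∀ j, ZMod (m j))
    (h1 : ∀ j ∈ J, lam j ∈ Λ) (h2 : ∀ j ∈ J, ∀ i ∈ I, lam j i = 0)
    (h3 : ∀ j ∈ J, ∀ i ∈ J, i ≠ j → lam j i = 0) (h4 : ∀ j ∈ J, c j * p ^ (a + 1) = m j)
    (h5 : ∀ j ∈ J, lam j j = (c j : ZMod (m j))) :
    Nat.card (van Λ I (p ^ a)) * p ^ J.card ≤ Nat.card (van Λ I (p ^ (a + 1))) := by
  classical
  let Φ : (ι → ℤ) →+ (∀ j, ZMod (m j)) :=
    { toFun := fun u => ∑ j ∈ J, u j • lam j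
      map_zero' := by simp
      map_add' := fun u v => by simp [add_smul, Finset.sum_add_distrib] }
  have hΦ : ∀ u, Φ u = ∑ j ∈ J, u j • lam j := fun u => rfl
  have hΦJ : ∀ u, ∀ j ∈ J, Φ u j = ((u j * c j : ℤ) : ZMod (m j)) := by
    intro u j hj
    rw [hΦ, Finset.sum_apply, Finset.sum_eq_single j]
    · rw [Pi.smul_apply, h5 j hj, zsmul_eq_mul]
      push_cast
      ring
    · intro i hi hij
      rw [Pi.smul_apply, h3 i hi j hj hij.symm, smul_zero]
    · intro h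
      exact absurd hj h
  set L := Φ.range with hL
  let ψ : (∀ j, ZMod (m j)) →+ (∀ j, ZMod (m j)) :=
    { toFun := fun x j => if j ∈ J then p ^ a • x j else 0
      map_zero' := by funext j; simp
      map_add' := fun x y => by
        funext j
        by_cases hj : j ∈ J
        · simp [hj, smul_add]
        · simp [hj] }
  have hψ : ∀ x j, ψ x j = if j ∈ J then p ^ a • x j else 0 := fun x j => rfl
  have h0 : ∀ x ∈ L, ψ (p • x) = 0 := by
    rintro _ ⟨u, rfl⟩
    funext j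
    rw [hψ]
    split_ifs with hj
    · rw [Pi.smul_apply, ← mul_smul, ← pow_succ, hΦJ u j hj, nsmul_eq_mul]
      have h6 : ((p ^ (a + 1) : ℕ) : ZMod (m j)) * ((u j * c j : ℤ) : ZMod (m j))
          = ((u j * (m j : ℤ) : ℤ) : ZMod (m j)) := by
        rw [← h4 j hj]
        push_cast
        ring
      rw [h6]
      push_cast
      rw [ZMod.natCast_self, mul_zero]
      rfl
    · rfl
  have hN : p ^ J.card ≤ Nat.card (L.map ψ) := by
    have h6 : p ^ J.card = Nat.card (J → Fin p) := by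
      rw [Nat.card_eq_fintype_card, Fintype.card_fun, Fintype.card_fin, Fintype.card_coe]
    rw [h6]
    refine Nat.card_le_card_of_injective
      (fun f : J → Fin p => (⟨ψ (Φ (fun j => if hj : j ∈ J then ((f ⟨j, hj⟩ : ℕ) : ℤ) else 0)),
        ⟨_, ⟨_, rfl⟩, rfl⟩⟩ : L.map ψ)) ?_
    intro f g hfg
    funext ⟨j, hj⟩
    have h7 := congrFun (congrArg Subtype.val hfg) j
    simp only at h7
    rw [hψ, hψ, if_pos hj, if_pos hj, hΦJ _ j hj, hΦJ _ j hj, dif_pos hj, dif_pos hj,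
      nsmul_eq_mul, nsmul_eq_mul] at h7
    have h8 : ((p ^ a * ((f ⟨j, hj⟩ : ℕ) * c j) : ℕ) : ZMod (m j))
        = ((p ^ a * ((g ⟨j, hj⟩ : ℕ) * c j) : ℕ) : ZMod (m j)) := by
      push_cast at h7 ⊢
      exact h7
    have hlt : ∀ f : J → Fin p, p ^ a * ((f ⟨j, hj⟩ : ℕ) * c j) < m j := by
      intro f
      have h9 : c j ≠ 0 := by
        intro h
        have := h4 j hj
        rw [h, zero_mul] at this
        exact NeZero.ne (m j) this.symm
      calc p ^ a * ((f ⟨j, hj⟩ : ℕ) * c j) = (f ⟨j, hj⟩ : ℕ) * (c j * p ^ a) := by ring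
        _ < p * (c j * p ^ a) := Nat.mul_lt_mul_of_pos_right (f ⟨j, hj⟩).2
            (Nat.mul_pos (Nat.pos_of_ne_zero h9) (pow_pos hp.pos a))
        _ = c j * p ^ (a + 1) := by ring
        _ = m j := h4 j hj
    rw [ZMod.natCast_eq_natCast_iff'] at h8
    rw [Nat.mod_eq_of_lt (hlt f), Nat.mod_eq_of_lt (hlt g)] at h8
    have h9 : 0 < c j := by
      rcases Nat.eq_zero_or_pos (c j) with h | h
      · exfalso
        have := h4 j hj
        rw [h, zero_mul] at this
        exact NeZero.ne (m j) this.symm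
      · exact h
    have h10 := Nat.eq_of_mul_eq_mul_right h9 (Nat.eq_of_mul_eq_mul_left (pow_pos hp.pos a) h8)
    exact Fin.ext h10
  let K : AddSubgroup (∀ j, ZMod (m j)) := L ⊓ (nsmulAddMonoidHom p : _ →+ (∀ j, ZMod (m j))).ker
  have hK := card_kernel_ge L p (p ^ J.card) ψ h0 hN K (fun x => by
    simp only [K, AddSubgroup.mem_inf, AddMonoidHom.mem_ker, nsmulAddMonoidHom_apply])
  have h6 := card_split (van Λ I (p ^ (a + 1))) (van Λ I (p ^ a))
    (nsmulAddMonoidHom (p ^ a) : (∀ j, ZMod (m j)) →+ (∀ j, ZMod (m j))) (fun x => by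
      simp only [mem_van, nsmulAddMonoidHom_apply]
      constructor
      · rintro ⟨ha, hb, hc⟩
        exact ⟨⟨ha, hb, by rw [pow_succ, mul_comm, mul_smul, hc, smul_zero]⟩, hc⟩
      · rintro ⟨⟨ha, hb, _⟩, hc⟩
        exact ⟨ha, hb, hc⟩)
  rw [h6]
  refine Nat.mul_le_mul_left _ (hK.trans ?_)
  refine Nat.card_mono (Set.toFinite _) ?_
  rintro x ⟨⟨u, rfl⟩, hx⟩
  have hx' : p • Φ u = 0 := hx
  have hdvd : ∀ j ∈ J, (p : ℤ) ^ a ∣ u j := by
    intro j hj
    have h7 := congrFun hx' j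
    rw [Pi.smul_apply, hΦJ u j hj, nsmul_eq_mul] at h7
    have h8 : ((p * (u j * c j) : ℤ) : ZMod (m j)) = 0 := by
      push_cast at h7 ⊢
      exact h7
    rw [ZMod.intCast_zmod_eq_zero_iff_dvd] at h8
    obtain ⟨t, ht⟩ := h8
    have h9 : (c j : ℤ) ≠ 0 := by
      intro h
      have := h4 j hj
      rw [Nat.cast_eq_zero.1 h, zero_mul] at this
      exact NeZero.ne (m j) this.symm
    have h10 : (p : ℤ) ≠ 0 := by exact_mod_cast hp.ne_zero
    refine ⟨t, ?_⟩
    have h11 : ((m j : ℕ) : ℤ) = c j * (p : ℤ) ^ (a + 1) := by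
      rw [← h4 j hj]
      push_cast
      ring
    rw [h11] at ht
    have h12 : (p : ℤ) * c j * u j = (p : ℤ) * c j * ((p : ℤ) ^ a * t) := by
      rw [pow_succ] at ht
      linear_combination ht
    exact mul_left_cancel₀ (mul_ne_zero h10 h9) h12
  choose! v hv using hdvd
  have h13 : Φ u = p ^ a • Φ v := by
    rw [hΦ, hΦ, Finset.smul_sum]
    refine Finset.sum_congr rfl fun j hj => ?_
    rw [hv j hj, ← natCast_zsmul, ← mul_smul]
    push_cast
    rfl
  refine ⟨Φ v, ⟨?_, ?_, ?_⟩, ?_⟩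
  · rw [hΦ]
    exact Λ.sum_mem fun j hj => Λ.zsmul_mem (h1 j hj) _
  · intro i hi
    rw [hΦ, Finset.sum_apply]
    refine Finset.sum_eq_zero fun j hj => ?_
    rw [Pi.smul_apply, h2 j hj i hi, smul_zero]
  · rw [pow_succ, mul_comm, mul_smul, ← h13]
    exact hx'
  · rw [nsmulAddMonoidHom_apply, ← h13]

end Pool.Agent.K3h47.FU
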