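import Pool.Agent.K3h47.FU.Main2

/-! Multiplication of a section by a further coordinate. -/

set_option autoImplicit false
set_option linter.unusedSectionVars false

namespace Pool.Agent.K3h47.FU

open MvPolynomial

theorem dd_add {σ : Type} [Fintype σ] (p u : σ → ℂ) (Φ Ψ : MvPolynomial σ ℂ) :
    dd p u (Φ + Ψ) = dd p u Φ + dd p u Ψ := by
  simp only [dd, map_add, add_mul, Finset.sum_add_distrib]

theorem dd_C {σ : Type} [Fintype σ] (p u : σ → ℂ) (a : ℂ) : dd p u (C a) = 0 := by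
  simp [dd]

theorem dd_rename {σ τ : Type} [Fintype σ] [Fintype τ] [DecidableEq σ] [DecidableEq τ]
    (ι : σ → τ) (p u : τ → ℂ) (Φ : MvPolynomial σ ℂ) :
    dd p u (rename ι Φ) = dd (p ∘ ι) (u ∘ ι) Φ := by
  induction Φ using MvPolynomial.induction_on with
  | C a => rw [rename_C, dd_C, dd_C]
  | add Φ Ψ h1 h2 => rw [map_add, dd_add, dd_add, h1, h2]
  | mul_X Φ w h =>
    rw [map_mul, rename_X, dd_mul, dd_mul, dd_X, dd_X, eval_X, eval_X, h, eval_rename]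
    rfl

variable {N N' r : ℕ}

/-- the variables of the old polynomials -/
def emb : Fin (N + 1) ⊕ Fin r → Fin (N + 1) ⊕ (Fin (N' + 1) ⊕ Fin r) := Sum.map id Sum.inr

theorem elim_emb {β : Type} (x : Fin (N + 1) → β) (y : Fin (N' + 1) → β) (z : Fin r → β) :
    Sum.elim x (Sum.elim y z) ∘ (emb : Fin (N + 1) ⊕ Fin r → _) = Sum.elim x z := by
  funext w
  rcases w with k | i <;> rfl

/-- the old section times a coordinate `y` -/
noncomputable def up (j : Fin (N' + 1)) (Φ : MvPolynomial (Fin (N + 1) ⊕ Fin r) ℂ) :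
    MvPolynomial (Fin (N + 1) ⊕ (Fin (N' + 1) ⊕ Fin r)) ℂ :=
  X (Sum.inr (Sum.inl j)) * rename emb Φ

theorem eval_up (j : Fin (N' + 1)) (Φ : MvPolynomial (Fin (N + 1) ⊕ Fin r) ℂ)
    (x : Fin (N + 1) → ℂ) (y : Fin (N' + 1) → ℂ) (z : Fin r → ℂ) :
    eval (Sum.elim x (Sum.elim y z)) (up j Φ) = y j * eval (Sum.elim x z) Φ := by
  rw [up, map_mul, eval_X, eval_rename, elim_emb]
  rfl

theorem dd_up (j : Fin (N' + 1)) (Φ : MvPolynomial (Fin (N + 1) ⊕ Fin r) ℂ)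
    (x u : Fin (N + 1) → ℂ) (y w : Fin (N' + 1) → ℂ) (z v : Fin r → ℂ) :
    dd (Sum.elim x (Sum.elim y z)) (Sum.elim u (Sum.elim w v)) (up j Φ)
      = w j * eval (Sum.elim x z) Φ + y j * dd (Sum.elim x z) (Sum.elim u v) Φ := by
  rw [up, dd_mul, dd_X, eval_X, eval_rename, dd_rename, elim_emb, elim_emb]
  rfl

theorem dd_elim3 (x u : Fin (N + 1) → ℂ) (y w : Fin (N' + 1) → ℂ) (z v : Fin r → ℂ)
    (Φ : MvPolynomial (Fin (N + 1) ⊕ (Fin (N' + 1) ⊕ Fin r)) ℂ) :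
    dd (Sum.elim x (Sum.elim y z)) (Sum.elim u (Sum.elim w v)) Φ
      = ∑ k, eval (Sum.elim x (Sum.elim y z)) (pderiv (Sum.inl k) Φ) * u k
      + (∑ j, eval (Sum.elim x (Sum.elim y z)) (pderiv (Sum.inr (Sum.inl j)) Φ) * w j
      + ∑ i, eval (Sum.elim x (Sum.elim y z)) (pderiv (Sum.inr (Sum.inr i)) Φ) * v i) := by
  rw [dd, Fintype.sum_sum_type, Fintype.sum_sum_type]
  rfl

end Pool.Agent.K3h47.FU
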