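import Pool.Agent.K3h47.FU.Geo

/-! Separation of the points in a fibre of the covering. -/

set_option autoImplicit false
set_option linter.unusedSectionVars false

namespace Pool.Agent.K3h47.FU

open MvPolynomial

variable {N r : ℕ} {R : AddSubgroup (ℤ × (Fin r → ℤ))} {δ e : Fin r → ℕ} {n : ℕ}

theorem exists_root (s : ℂˣ) {k : ℕ} (hk : k ≠ 0) : ∃ σ : ℂˣ, σ ^ k = s := by
  obtain ⟨z, hz⟩ := IsAlgClosed.exists_pow_nat_eq (s : ℂ) (Nat.pos_of_ne_zero hk)
  have hz0 : z ≠ 0 := by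
    rintro rfl
    rw [zero_pow hk] at hz
    exact s.ne_zero hz.symm
  exact ⟨Units.mk0 z hz0, Units.ext hz⟩

/-- The group surjects to the factor `ℂˣ` which acts on the base. -/
theorem exists_t (he : ∀ i, e i ≠ 0)
    (hdeg : ∀ ρ ∈ R, (ρ.1 : ℚ) + ∑ i, (ρ.2 i : ℚ) * (δ i / e i) = 0) (s : ℂˣ) :
    ∃ t : Fin r → ℂˣ, ∀ ρ ∈ R, chi ρ s t = 1 := by
  classical
  set E : ℕ := ∏ i, e i with hE
  have hE0 : E ≠ 0 := Finset.prod_ne_zero_iff.2 fun i _ => he i
  obtain ⟨σ, hσ⟩ := exists_root s hE0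
  refine ⟨fun i => σ ^ ((E / e i) * δ i), fun ρ hρ => ?_⟩
  have h1 : (E : ℤ) * ρ.1 + ∑ i, (((E / e i) * δ i : ℕ) : ℤ) * ρ.2 i = 0 := by
    have h2 := hdeg ρ hρ
    have h3 : (E : ℚ) * ρ.1 + ∑ i, (((E / e i) * δ i : ℕ) : ℚ) * ρ.2 i = 0 := by
      have h4 : ∀ i, (((E / e i) * δ i : ℕ) : ℚ) * ρ.2 i = E * ((ρ.2 i : ℚ) * (δ i / e i)) := by
        intro i
        have h5 : e i ∣ E := Finset.dvd_prod_of_mem e (Finset.mem_univ i)
        have h6 : (e i : ℚ) ≠ 0 := by exact_mod_cast he i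
        rw [Nat.cast_mul, Nat.cast_div h5 h6]
        field_simp
      simp only [h4]
      rw [← Finset.mul_sum, ← mul_add, h2, mul_zero]
    have h7 : (((E : ℤ) * ρ.1 + ∑ i, (((E / e i) * δ i : ℕ) : ℤ) * ρ.2 i : ℤ) : ℚ) = 0 := by
      rw [← h3, Int.cast_add, Int.cast_mul, Int.cast_sum]
      simp only [Int.cast_mul, Int.cast_natCast]
    exact Int.cast_eq_zero.1 h7
  rw [chi, ← hσ]
  have h2 : ∏ i, (σ ^ ((E / e i) * δ i)) ^ ρ.2 i
      = σ ^ ∑ i, (((E / e i) * δ i : ℕ) : ℤ) * ρ.2 i := by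
    have h3 : ∀ S : Finset (Fin r), ∏ i ∈ S, (σ ^ ((E / e i) * δ i)) ^ ρ.2 i
        = σ ^ ∑ i ∈ S, (((E / e i) * δ i : ℕ) : ℤ) * ρ.2 i := by
      intro S
      induction S using Finset.induction_on with
      | empty => simp
      | insert i S hi ih =>
        rw [Finset.prod_insert hi, Finset.sum_insert hi, ih, zpow_add, zpow_mul, zpow_natCast]
    exact h3 Finset.univ
  rw [h2, ← zpow_natCast, ← zpow_mul, ← zpow_add, h1, zpow_zero]

/-- the homomorphism `x ↦ ∏ τ ^ x` -/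
noncomputable def phi (τ : Fin r → ℂˣ) (hτ : ∀ i, τ i ^ e i = 1) :
    (∀ i, ZMod (e i)) →+ Additive ℂˣ :=
  ∑ i, (ZMod.lift (e i) ⟨zmultiplesHom (Additive ℂˣ) (Additive.ofMul (τ i)), by
    rw [zmultiplesHom_apply, natCast_zsmul, ← ofMul_pow, hτ i]
    rfl⟩).comp (Pi.evalAddMonoidHom _ i)

theorem phi_apply (τ : Fin r → ℂˣ) (hτ : ∀ i, τ i ^ e i = 1) (x : ∀ i, ZMod (e i)) (u : Fin r → ℤ)
    (hu : ∀ i, ((u i : ℤ) : ZMod (e i)) = x i) :
    phi τ hτ x = Additive.ofMul (∏ i, τ i ^ u i) := by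
  classical
  rw [phi, AddMonoidHom.finsetSum_apply, ofMul_prod]
  refine Finset.sum_congr rfl fun i _ => ?_
  rw [AddMonoidHom.comp_apply, Pi.evalAddMonoidHom_apply, ← hu i, ZMod.lift_coe,
    zmultiplesHom_apply, ofMul_zpow]

/-- If the monomials do not separate two points over `x`, the points are equal. -/
theorem same_fibre (h : Dat R δ e n) (c : ℤ × (Fin r → ℤ)) (x : Fin (N + 1) → ℂ) (hx : x ≠ 0)
    (z z' : Fin r → ℂ) (hz : ∀ i, z' i ^ e i = z i ^ e i)
    (hI : (Finset.univ.filter (fun i => z i = 0)).card ≤ n)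
    (hE3 : ∀ Γ : AddSubgroup (∀ i, ZMod (e i)),
      (∀ y y', Good R e c (Finset.univ.filter (fun i => z i = 0)) y →
        Good R e c (Finset.univ.filter (fun i => z i = 0)) y' → y - y' ∈ Γ) →
      ∀ w ∈ van (Lam R e) (Finset.univ.filter (fun i => z i = 0)) 0, w ∈ Γ)
    (hsec : ∀ Φ : MvPolynomial (Fin (N + 1) ⊕ Fin r) ℂ, Sec R c Φ → eval (Sum.elim x z) Φ = 0 →
      eval (Sum.elim x z') Φ = 0) :
    ∃ t : Fin r → ℂˣ, (∀ ρ ∈ R, chi ρ 1 t = 1) ∧ ∀ i, z' i = t i * z i := by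
  classical
  have hne := h.neZero
  set I := Finset.univ.filter (fun i => z i = 0) with hIdef
  have hmemI : ∀ i, i ∈ I ↔ z i = 0 := fun i => by simp [hIdef]
  have hz'0 : ∀ i, z i = 0 ↔ z' i = 0 := by
    intro i
    have h1 := hz i
    constructor
    · intro h2
      rw [h2, zero_pow (hne i).ne] at h1
      exact pow_eq_zero_iff (hne i).ne |>.1 h1
    · intro h2
      rw [h2, zero_pow (hne i).ne] at h1
      exact pow_eq_zero_iff (hne i).ne |>.1 h1.symm
  set τ : Fin r → ℂˣ := fun i => if hi : z i = 0 then 1 else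
    Units.mk0 (z' i / z i) (div_ne_zero (fun h2 => hi ((hz'0 i).2 h2)) hi) with hτdef
  have hτz : ∀ i, z' i = τ i * z i := by
    intro i
    by_cases hi : z i = 0
    · rw [hi, mul_zero]
      exact (hz'0 i).1 hi
    · simp only [hτdef, dif_neg hi, Units.val_mk0]
      field_simp
  have hτe : ∀ i, τ i ^ e i = 1 := by
    intro i
    by_cases hi : z i = 0
    · simp [hτdef, dif_pos hi]
    · ext
      simp only [hτdef, dif_neg hi, Units.val_pow_eq_pow_val, Units.val_mk0, Units.val_one]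
      rw [div_pow, hz i, div_self (pow_ne_zero _ hi)]
  have hτI : ∀ i ∈ I, τ i = 1 := fun i hi => by
    simp only [hτdef, dif_pos ((hmemI i).1 hi)]
  obtain ⟨v, hv⟩ := exists_lf_one hx
  -- the homomorphism
  set φ := phi τ hτe with hφ
  have hprod : ∀ a : Fin r → ℕ, ∏ i, z' i ^ a i = (∏ i, (τ i : ℂ) ^ a i) * ∏ i, z i ^ a i := by
    intro a
    rw [← Finset.prod_mul_distrib]
    refine Finset.prod_congr rfl fun i _ => ?_
    rw [← mul_pow, ← hτz i]
  have hker : ∀ y y', Good R e c I y → Good R e c I y' → y - y' ∈ φ.ker := by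
    intro y y' hy hy'
    have hnz : ∀ w, Good R e c I w → ∏ i, z i ^ aOf w i ≠ 0 := by
      intro w hw
      refine Finset.prod_ne_zero_iff.2 fun i _ => ?_
      by_cases hi : z i = 0
      · rw [hw.1 i ((hmemI i).2 hi), pow_zero]
        exact one_ne_zero
      · exact pow_ne_zero _ hi
    obtain ⟨L, hL0, hL⟩ := hy.2
    obtain ⟨L', hL0', hL'⟩ := hy'.2
    lift L to ℕ using hL0
    lift L' to ℕ using hL0'
    set Φ := mono N (aOf y) * lf r v ^ L with hΦ
    set Φ' := mono N (aOf y') * lf r v ^ L' with hΦ'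
    have hsΦ : Sec R c Φ := by
      refine Bi.sec (L := L) (a := aOf y) ?_ hL
      have := (Bi.mono (N := N) (aOf y)).mul ((Bi.lf (r := r) v).pow L)
      simpa using this
    have hsΦ' : Sec R c Φ' := by
      refine Bi.sec (L := L') (a := aOf y') ?_ hL'
      have := (Bi.mono (N := N) (aOf y')).mul ((Bi.lf (r := r) v).pow L')
      simpa using this
    set ℓ := ∑ k, v k * x k with hℓ
    have hev : ∀ (w : Fin r → ℂ) (a : Fin r → ℕ) (K : ℕ), eval (Sum.elim x w) (mono N a * lf r v ^ K)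
        = (∏ i, w i ^ a i) * ℓ ^ K := by
      intro w a K
      rw [map_mul, map_pow, eval_mono, eval_lf]
    have hcomb : ∀ (p : Fin (N + 1) ⊕ Fin r → ℂ) (u u' : ℂ)
        (Ψ Ψ' : MvPolynomial (Fin (N + 1) ⊕ Fin r) ℂ),
        eval p (C u * Ψ + C u' * Ψ') = u * eval p Ψ + u' * eval p Ψ' := by
      intro p u u' Ψ Ψ'
      rw [map_add, map_mul, map_mul, eval_C, eval_C]
    have h1 := hsec _ (hsΦ.add hsΦ' (eval (Sum.elim x z) Φ') (- eval (Sum.elim x z) Φ)) (by
      rw [hcomb]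
      ring)
    rw [hcomb, hΦ, hΦ', hev, hev, hev, hev, hprod, hprod] at h1
    have hA := hnz y hy
    have hA' := hnz y' hy'
    have h2 : (∏ i, (τ i : ℂ) ^ aOf y i) = ∏ i, (τ i : ℂ) ^ aOf y' i := by
      have h3 : ((∏ i, z i ^ aOf y i) * ℓ ^ L * ((∏ i, z i ^ aOf y' i) * ℓ ^ L')) ≠ 0 :=
        mul_ne_zero (mul_ne_zero hA (pow_ne_zero _ hv)) (mul_ne_zero hA' (pow_ne_zero _ hv))
      have h4 : ((∏ i, (τ i : ℂ) ^ aOf y i) - ∏ i, (τ i : ℂ) ^ aOf y' i)
          * ((∏ i, z i ^ aOf y i) * ℓ ^ L * ((∏ i, z i ^ aOf y' i) * ℓ ^ L')) = 0 := by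
        linear_combination h1
      exact sub_eq_zero.1 ((mul_eq_zero.1 h4).resolve_right h3)
    have h3 : ∏ i, τ i ^ aOf y i = ∏ i, τ i ^ aOf y' i := by
      ext
      push_cast
      exact h2
    -- compare with `φ`
    have h4 : ∀ w : ∀ i, ZMod (e i), (∏ i, τ i ^ aOf w i) * ∏ i, τ i ^ (w i).val
        = ∏ i, τ i ^ (e i - 1) := by
      intro w
      rw [← Finset.prod_mul_distrib]
      refine Finset.prod_congr rfl fun i _ => ?_
      rw [← pow_add]
      congr 1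
      have := ZMod.val_lt (w i)
      rw [aOf]
      omega
    have h5 : ∀ w : ∀ i, ZMod (e i), φ w = Additive.ofMul (∏ i, τ i ^ (w i).val) := by
      intro w
      rw [hφ, phi_apply τ hτe w (fun i => ((w i).val : ℤ)) (fun i => by
        rw [Int.cast_natCast, ZMod.natCast_zmod_val])]
      congr 1
    rw [AddMonoidHom.mem_ker, map_sub, h5, h5, sub_eq_zero]
    congr 1
    have h6 := h4 y
    have h7 := h4 y'
    rw [← h7, h3] at h6
    exact mul_left_cancel h6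
  have hvan := hE3 φ.ker hker
  -- the element of the group
  have hsur := h.sur I hI
  choose! ρ hρ hρ1 hρ0 using hsur
  refine ⟨fun i => if i ∈ I then (Additive.toMul (φ (ρ i)))⁻¹ else τ i, ?_, ?_⟩
  · intro σ hσ
    have h1 : red e σ - ∑ i ∈ I, σ.2 i • ρ i ∈ van (Lam R e) I 0 := by
      refine ⟨(Lam R e).sub_mem ⟨σ, hσ, rfl⟩
        ((Lam R e).sum_mem fun i hi => (Lam R e).zsmul_mem (hρ i hi) _), ?_, by rw [zero_smul]⟩
      intro i hi
      rw [Pi.sub_apply, Finset.sum_apply, Finset.sum_eq_single i]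
      · rw [Pi.smul_apply, hρ1 i hi, zsmul_eq_mul, mul_one]
        exact sub_self _
      · intro j hj hji
        rw [Pi.smul_apply, hρ0 j hj i hi hji.symm, smul_zero]
      · intro h2
        exact absurd hi h2
    have h2 := hvan _ h1
    rw [AddMonoidHom.mem_ker, map_sub, map_sum, sub_eq_zero, hφ,
      phi_apply τ hτe (red e σ) σ.2 (fun i => rfl), ← hφ] at h2
    have h3 : ∏ i, τ i ^ σ.2 i = ∏ i ∈ I, (Additive.toMul (φ (ρ i))) ^ σ.2 i := by
      have h4 := congrArg Additive.toMul h2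
      rw [toMul_ofMul] at h4
      rw [h4, toMul_sum]
      refine Finset.prod_congr rfl fun i _ => ?_
      rw [map_zsmul, toMul_zsmul]
    have h4 : ∏ i, τ i ^ σ.2 i = ∏ i ∈ Finset.univ \ I, τ i ^ σ.2 i := by
      rw [← Finset.prod_sdiff (Finset.subset_univ I), Finset.prod_eq_one (s := I), mul_one]
      intro i hi
      rw [hτI i hi, one_zpow]
    rw [chi, one_zpow, one_mul, ← Finset.prod_sdiff (Finset.subset_univ I)]
    have h5 : ∏ i ∈ Finset.univ \ I, (if i ∈ I then (Additive.toMul (φ (ρ i)))⁻¹ else τ i) ^ σ.2 i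
        = ∏ i ∈ Finset.univ \ I, τ i ^ σ.2 i := by
      refine Finset.prod_congr rfl fun i hi => ?_
      rw [if_neg (Finset.mem_sdiff.1 hi).2]
    have h6 : ∏ i ∈ I, (if i ∈ I then (Additive.toMul (φ (ρ i)))⁻¹ else τ i) ^ σ.2 i
        = (∏ i ∈ I, (Additive.toMul (φ (ρ i))) ^ σ.2 i)⁻¹ := by
      rw [← Finset.prod_inv_distrib]
      refine Finset.prod_congr rfl fun i hi => ?_
      rw [if_pos hi, inv_zpow]
    rw [h5, h6, ← h4, h3, mul_inv_cancel]
  · intro i
    by_cases hi : i ∈ I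
    · rw [(hmemI i).1 hi, mul_zero]
      exact (hz'0 i).1 ((hmemI i).1 hi)
    · simp only [if_neg hi]
      exact hτz i

end Pool.Agent.K3h47.FU
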