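import Pool.Agent.K3h47.FU.Comp

/-! Elements of a coset whose coordinates are as large as possible. -/

set_option autoImplicit false
set_option linter.unusedSectionVars false

namespace Pool.Agent.K3h47.FU

/-- a subgroup of order `g` of `ZMod n` contains `n / g` -/
theorem div_mem {n : ℕ} [NeZero n] (H : AddSubgroup (ZMod n)) :
    ((n / Nat.card H : ℕ) : ZMod n) ∈ H := by
  classical
  set g := Nat.card H with hg
  have hgpos : 0 < g := Nat.card_pos
  have hdvd : g ∣ n := by
    have := AddSubgroup.card_addSubgroup_dvd_card H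
    rwa [Nat.card_zmod] at this
  let K : AddSubgroup (ZMod n) := (nsmulAddMonoidHom g : ZMod n →+ ZMod n).ker
  have h1 : H ≤ K := by
    intro x hx
    have h2 : g • (⟨x, hx⟩ : H) = 0 := by
      rw [hg]
      exact card_nsmul_eq_zero'
    exact congrArg Subtype.val h2
  have h2 : Nat.card K ≤ g := by
    refine le_trans ?_ (card_tor_le n g hgpos)
    exact Nat.card_le_card_of_injective (fun x : K => (⟨x.1, x.2⟩ : {x : ZMod n // g • x = 0}))
      (fun x y h => Subtype.ext (congrArg (fun z => z.1) h))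
  have h3 : H = K := AddSubgroup.eq_of_le_of_card_ge h1 h2
  rw [h3]
  change g • ((n / g : ℕ) : ZMod n) = 0
  rw [nsmul_eq_mul, ← Nat.cast_mul, Nat.mul_div_cancel' hdvd, ZMod.natCast_self]

/-- every element of a subgroup of order `g` of `ZMod n` is a multiple of `n / g` -/
theorem exists_mul {n : ℕ} [NeZero n] (H : AddSubgroup (ZMod n)) {x : ZMod n} (hx : x ∈ H) :
    ∃ c : ℕ, x = c • ((n / Nat.card H : ℕ) : ZMod n) := by
  set g := Nat.card H with hg
  have hgpos : 0 < g := Nat.card_pos
  have hdvd : g ∣ n := by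
    have := AddSubgroup.card_addSubgroup_dvd_card H
    rwa [Nat.card_zmod] at this
  have h2 : g • x = 0 := by
    have h3 : g • (⟨x, hx⟩ : H) = 0 := by
      rw [hg]
      exact card_nsmul_eq_zero'
    exact congrArg Subtype.val h3
  have h4 : n ∣ g * x.val := by
    rw [← ZMod.natCast_eq_zero_iff, Nat.cast_mul, ZMod.natCast_zmod_val, ← nsmul_eq_mul]
    exact h2
  obtain ⟨k, hk⟩ := hdvd
  have h4' : g * k ∣ g * x.val := by
    rw [← hk]
    exact h4
  have h5 : k ∣ x.val := Nat.dvd_of_mul_dvd_mul_left hgpos h4'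
  obtain ⟨c, hc⟩ := h5
  refine ⟨c, ?_⟩
  have h6 : n / g = k := by
    rw [hk]
    exact Nat.mul_div_cancel_left _ hgpos
  rw [h6, nsmul_eq_mul, ← Nat.cast_mul, mul_comm, ← hc, ZMod.natCast_zmod_val]

/-- a coset of a subgroup of order `g` of `ZMod n` contains the class of some `v ≥ n - n / g` -/
theorem exists_top {n : ℕ} [NeZero n] (H : AddSubgroup (ZMod n)) (x : ZMod n) :
    ∃ h ∈ H, n ≤ (x + h).val + n / Nat.card H := by
  set d := n / Nat.card H with hd
  have hdpos : 0 < d := Nat.div_pos (by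
    have := AddSubgroup.card_addSubgroup_dvd_card H
    rw [Nat.card_zmod] at this
    exact Nat.le_of_dvd (Nat.pos_of_ne_zero (NeZero.ne n)) this) Nat.card_pos
  have hn : 0 < n := Nat.pos_of_ne_zero (NeZero.ne n)
  set k := (n - 1 - x.val) / d with hk
  refine ⟨k • (d : ZMod n), H.nsmul_mem (div_mem H) k, ?_⟩
  have hlt := ZMod.val_lt x
  have h1 : d * k ≤ n - 1 - x.val := Nat.mul_div_le _ _
  have h2 : n - 1 - x.val < d * k + d := Nat.lt_mul_div_succ _ hdpos |>.trans_eq (by ring)
  have h3 : (x + k • (d : ZMod n)).val = x.val + d * k := by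
    have h4 : x + k • (d : ZMod n) = ((x.val + d * k : ℕ) : ZMod n) := by
      rw [Nat.cast_add, ZMod.natCast_zmod_val, nsmul_eq_mul, Nat.cast_mul]
      ring
    rw [h4, ZMod.val_natCast, Nat.mod_eq_of_lt (by omega)]
  rw [h3]
  omega

variable {ι : Type} [DecidableEq ι] {m : ι → ℕ} [∀ j, NeZero (m j)]

/-- the weight `M / gcd(M, m j)` -/
def wt (m : ι → ℕ) (M : ℕ) (j : ι) : ℕ := M / Nat.gcd M (m j)

/-- `y` is large at the coordinates in the list -/
def TopOn (M : ℕ) (Λ : AddSubgroup (∀ j, ZMod (m j))) (y : ∀ j, ZMod (m j)) :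
    Finset ι → List ι → Prop
  | _, [] => True
  | I, j :: l => (M : ℚ) - M / Nat.card (prj Λ I 0 j) ≤ (y j).val * wt m M j ∧
      TopOn M Λ y (insert j I) l

theorem TopOn.sum {M : ℕ} {Λ : AddSubgroup (∀ j, ZMod (m j))} {y : ∀ j, ZMod (m j)} :
    ∀ (l : List ι) (I : Finset ι), TopOn M Λ y I l →
      tot M Λ I l ≤ (l.map fun j => ((y j).val * wt m M j : ℚ)).sum := by
  intro l
  induction l with
  | nil => intro I _; simp [tot]
  | cons j l ih =>
    intro I h
    rw [tot, List.map_cons, List.sum_cons]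
    exact add_le_add h.1 (ih _ h.2)

theorem TopOn.congr {M : ℕ} {Λ : AddSubgroup (∀ j, ZMod (m j))} {y y' : ∀ j, ZMod (m j)} :
    ∀ (l : List ι) (I : Finset ι), (∀ j ∈ l, y j = y' j) → TopOn M Λ y I l → TopOn M Λ y' I l := by
  intro l
  induction l with
  | nil => intro I _ _; trivial
  | cons j l ih =>
    intro I h h1
    exact ⟨by rw [← h j List.mem_cons_self]; exact h1.1,
      ih _ (fun k hk => h k (List.mem_cons_of_mem _ hk)) h1.2⟩

theorem exists_topOn {M : ℕ} (Λ : AddSubgroup (∀ j, ZMod (m j))) :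
    ∀ (l : List ι) (I : Finset ι) (x : ∀ j, ZMod (m j)),
      ∃ y, y - x ∈ Λ ∧ (∀ i ∈ I, y i = x i) ∧ TopOn M Λ y I l := by
  intro l
  induction l with
  | nil => intro I x; exact ⟨x, by rw [sub_self]; exact Λ.zero_mem, fun _ _ => rfl, trivial⟩
  | cons j l ih =>
    intro I x
    obtain ⟨h, hh, htop⟩ := exists_top (prj Λ I 0 j) (x j)
    obtain ⟨v, hv, hvj⟩ := hh
    obtain ⟨y, hy1, hy2, hy3⟩ := ih (insert j I) (x + v)
    have hvj' : v j = h := hvj
    refine ⟨y, ?_, ?_, ?_, hy3⟩
    · have h1 : y - x = (y - (x + v)) + v := by abel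
      rw [h1]
      exact Λ.add_mem hy1 hv.1
    · intro i hi
      rw [hy2 i (Finset.mem_insert_of_mem hi), Pi.add_apply, hv.2.1 i hi, add_zero]
    · rw [hy2 j (Finset.mem_insert_self _ _), Pi.add_apply, hvj']
      set g := Nat.card (prj Λ I 0 j) with hg
      have hgpos : 0 < g := Nat.card_pos
      have hdvd : g ∣ m j := by
        have := AddSubgroup.card_addSubgroup_dvd_card (prj Λ I 0 j)
        rwa [Nat.card_zmod] at this
      have h1 : (m j : ℚ) - m j / g ≤ (x j + h).val := by
        have h2 : ((m j / g : ℕ) : ℚ) = (m j : ℚ) / g := Nat.cast_div hdvd (by positivity)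
        have h3 : ((m j : ℕ) : ℚ) ≤ ((x j + h).val + m j / g : ℕ) := by exact_mod_cast htop
        rw [Nat.cast_add, h2] at h3
        linarith
      have h4 : (M : ℚ) ≤ m j * wt m M j := by
        have h5 : M ≤ m j * wt m M j := by
          rw [wt]
          have h6 := Nat.div_mul_cancel (Nat.gcd_dvd_left M (m j))
          calc M = (M / Nat.gcd M (m j)) * Nat.gcd M (m j) := h6.symm
            _ ≤ (M / Nat.gcd M (m j)) * m j :=
                Nat.mul_le_mul_left _ (Nat.gcd_le_right _ (Nat.pos_of_ne_zero (NeZero.ne _)))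
            _ = m j * (M / Nat.gcd M (m j)) := mul_comm _ _
        exact_mod_cast h5
      have hg1 : (0 : ℚ) ≤ 1 - 1 / g := by
        have : (1 : ℚ) / g ≤ 1 := by
          rw [div_le_one (by exact_mod_cast hgpos)]
          exact_mod_cast hgpos
        linarith
      calc (M : ℚ) - M / g = M * (1 - 1 / g) := by ring
        _ ≤ (m j * wt m M j) * (1 - 1 / g) := mul_le_mul_of_nonneg_right h4 hg1
        _ = (m j - m j / g) * wt m M j := by ring
        _ ≤ (x j + h).val * wt m M j := mul_le_mul_of_nonneg_right h1 (by positivity)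

/-- The generation lemma. -/
theorem gen [Fintype ι] {M : ℕ} (hM : M ≠ 0) (Λ : AddSubgroup (∀ j, ZMod (m j)))
    (z : ∀ j, ZMod (m j)) (Γ : AddSubgroup (∀ j, ZMod (m j))) :
    ∀ (l : List ι) (I : Finset ι), I ∪ l.toFinset = Finset.univ → TopOn M Λ z I l →
      (∀ y, y - z ∈ Λ → (∀ i ∈ I, y i = z i) →
        tot M Λ I l - M < (l.map fun j => ((y j).val * wt m M j : ℚ)).sum → y - z ∈ Γ) →
      ∀ x ∈ van Λ I 0, x ∈ Γ := by
  intro l
  induction l with
  | nil =>
    intro I hI _ _ x hx
    rw [List.toFinset_nil, Finset.union_empty] at hI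
    have h1 : x = 0 := funext fun i => hx.2.1 i (by rw [hI]; exact Finset.mem_univ i)
    rw [h1]
    exact Γ.zero_mem
  | cons j l ih =>
    intro I hI htop H x hx
    have hM' : (0 : ℚ) < M := by exact_mod_cast Nat.pos_of_ne_zero hM
    set g := Nat.card (prj Λ I 0 j) with hg
    have hgpos : 0 < g := Nat.card_pos
    have hMg : (0 : ℚ) < M / g := by positivity
    -- the generator
    obtain ⟨v, hv, hvj⟩ := div_mem (prj Λ I 0 j)
    have hvj' : v j = ((m j / g : ℕ) : ZMod (m j)) := hvj
    obtain ⟨y, hy1, hy2, hy3⟩ := exists_topOn Λ l (insert j I) (z - v)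
    have hyI : ∀ i ∈ I, y i = z i := fun i hi => by
      rw [hy2 i (Finset.mem_insert_of_mem hi), Pi.sub_apply, hv.2.1 i hi, sub_zero]
    have hyΛ : y - z ∈ Λ := by
      have h1 : y - z = (y - (z - v)) - v := by abel
      rw [h1]
      exact Λ.sub_mem hy1 hv.1
    have hyΓ : y - z ∈ Γ := by
      refine H y hyΛ hyI ?_
      rw [tot, List.map_cons, List.sum_cons]
      have h2 := TopOn.sum l _ hy3
      have h3 : (0 : ℚ) ≤ (y j).val * wt m M j := by positivity
      rw [← hg]
      linarith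
    -- the element `x` minus a multiple
    obtain ⟨c, hc⟩ := exists_mul (prj Λ I 0 j) (x := x j) ⟨x, hx, rfl⟩
    have h4 : x + c • (y - z) ∈ van Λ (insert j I) 0 := by
      refine ⟨Λ.add_mem hx.1 (Λ.nsmul_mem hyΛ c), ?_, by rw [zero_smul]⟩
      intro i hi
      rcases Finset.mem_insert.1 hi with rfl | hi
      · rw [Pi.add_apply, Pi.smul_apply, Pi.sub_apply, hy2 _ (Finset.mem_insert_self _ _),
          Pi.sub_apply, hvj', hc, ← hg]
        simp
      · rw [Pi.add_apply, Pi.smul_apply, Pi.sub_apply, hyI i hi, hx.2.1 i hi]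
        simp
    have h5 := ih (insert j I) (by
        rw [← hI, List.toFinset_cons]
        ext w
        simp only [Finset.mem_union, Finset.mem_insert]
        tauto) htop.2 (fun y' h1 h2 h3 => H y' h1 (fun i hi => h2 i (Finset.mem_insert_of_mem hi))
          (by
            rw [tot, List.map_cons, List.sum_cons]
            have h6 := htop.1
            rw [← h2 j (Finset.mem_insert_self _ _)] at h6
            linarith)) _ h4
    have h6 : x = (x + c • (y - z)) - c • (y - z) := by abel
    rw [h6]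
    exact Γ.sub_mem h5 (Γ.nsmul_mem hyΓ c)

end Pool.Agent.K3h47.FU
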