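import Pool.Agent.K3h47.FU.Comp3

/-! Elements of a coset whose coordinates are as large as possible, and the second best ones. -/

set_option autoImplicit false
set_option linter.unusedSectionVars false

namespace Pool.Agent.K3h47.FU

variable {ι : Type} [DecidableEq ι] {m : ι → ℕ} [∀ j, NeZero (m j)]

/-- `y` is large at the coordinates in the list -/
def TopE (Λ : AddSubgroup (∀ j, ZMod (m j))) (y : ∀ j, ZMod (m j)) :
    Finset ι → List ι → Prop
  | _, [] => True
  | I, j :: l => m j ≤ (y j).val + m j / Nat.card (prj Λ I 0 j) ∧ TopE Λ y (insert j I) l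

theorem card_prj_dvd (Λ : AddSubgroup (∀ j, ZMod (m j))) (I : Finset ι) (j : ι) :
    Nat.card (prj Λ I 0 j) ∣ m j := by
  have := AddSubgroup.card_addSubgroup_dvd_card (prj Λ I 0 j)
  rwa [Nat.card_zmod] at this

/-- the estimate for one coordinate -/
theorem est {M : ℕ} (j : ι) {g : ℕ} (hg : 0 < g) (hd : g ∣ m j) (s x : ℕ) (hs : s ≤ g)
    (hx : m j ≤ x + s * (m j / g)) : (M : ℚ) - s * (M / g) ≤ x * wt m M j := by
  have h1 : (m j : ℚ) - s * (m j / g) ≤ x := by
    have h2 : ((m j / g : ℕ) : ℚ) = (m j : ℚ) / g := Nat.cast_div hd (by positivity)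
    have h3 : ((m j : ℕ) : ℚ) ≤ (x + s * (m j / g) : ℕ) := by exact_mod_cast hx
    rw [Nat.cast_add, Nat.cast_mul, h2] at h3
    linarith
  have h4 : (M : ℚ) ≤ m j * wt m M j := by exact_mod_cast wt_mul_ge (m := m) M j
  have hgq : (0 : ℚ) < g := by exact_mod_cast hg
  have hg1 : (0 : ℚ) ≤ 1 - s / g := by
    have : (s : ℚ) / g ≤ 1 := by
      rw [div_le_one hgq]
      exact_mod_cast hs
    linarith
  calc (M : ℚ) - s * (M / g) = M * (1 - s / g) := by ring
    _ ≤ (m j * wt m M j) * (1 - s / g) := mul_le_mul_of_nonneg_right h4 hg1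
    _ = (m j - s * (m j / g)) * wt m M j := by ring
    _ ≤ x * wt m M j := mul_le_mul_of_nonneg_right h1 (by positivity)

theorem TopE.sum {M : ℕ} {Λ : AddSubgroup (∀ j, ZMod (m j))} {y : ∀ j, ZMod (m j)} :
    ∀ (l : List ι) (I : Finset ι), TopE Λ y I l →
      tot M Λ I l ≤ (l.map fun j => ((y j).val * wt m M j : ℚ)).sum := by
  intro l
  induction l with
  | nil => intro I _; simp [tot]
  | cons j l ih =>
    intro I h
    rw [tot, List.map_cons, List.sum_cons]
    refine add_le_add ?_ (ih _ h.2)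
    have h1 := est (M := M) j (Nat.card_pos (α := prj Λ I 0 j)) (card_prj_dvd Λ I j) 1 (y j).val
      Nat.card_pos (by rw [one_mul]; exact h.1)
    simpa using h1

theorem exists_topE (Λ : AddSubgroup (∀ j, ZMod (m j))) :
    ∀ (l : List ι) (I : Finset ι) (x : ∀ j, ZMod (m j)),
      ∃ y, y - x ∈ Λ ∧ (∀ i ∈ I, y i = x i) ∧ TopE Λ y I l := by
  intro l
  induction l with
  | nil => intro I x; exact ⟨x, by rw [sub_self]; exact Λ.zero_mem, fun _ _ => rfl, trivial⟩
  | cons j l ih =>
    intro I x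
    obtain ⟨h, hh, htop⟩ := exists_top (prj Λ I 0 j) (x j)
    obtain ⟨v, hv, hvj⟩ := hh
    obtain ⟨y, hy1, hy2, hy3⟩ := ih (insert j I) (x + v)
    have hvj' : v j = h := hvj
    refine ⟨y, ?_, ?_, ?_, hy3⟩
    · have h1 : y - x = (y - (x + v)) + v := by abel
      rw [h1]
      exact Λ.add_mem hy1 hv.1
    · intro i hi
      rw [hy2 i (Finset.mem_insert_of_mem hi), Pi.add_apply, hv.2.1 i hi, add_zero]
    · rw [hy2 j (Finset.mem_insert_self _ _), Pi.add_apply, hvj']
      exact htop

/-- The generation lemma. -/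
theorem gen2 [Fintype ι] {M : ℕ} (Λ : AddSubgroup (∀ j, ZMod (m j)))
    (z : ∀ j, ZMod (m j)) (Γ : AddSubgroup (∀ j, ZMod (m j))) :
    ∀ (l : List ι) (I : Finset ι), I ∪ l.toFinset = Finset.univ → TopE Λ z I l →
      (∀ y, y - z ∈ Λ → (∀ i ∈ I, y i = z i) →
        (∃ (l₁ : List ι) (j : ι) (l₂ : List ι), l = l₁ ++ j :: l₂ ∧
          2 ≤ Nat.card (prj Λ (I ∪ l₁.toFinset) 0 j) ∧
          tot M Λ I l₁ + (M - 2 * (M / Nat.card (prj Λ (I ∪ l₁.toFinset) 0 j)))
            + tot M Λ (insert j (I ∪ l₁.toFinset)) l₂ ≤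
            (l.map fun j => ((y j).val * wt m M j : ℚ)).sum) → y - z ∈ Γ) →
      ∀ x ∈ van Λ I 0, x ∈ Γ := by
  intro l
  induction l with
  | nil =>
    intro I hI _ _ x hx
    rw [List.toFinset_nil, Finset.union_empty] at hI
    have h1 : x = 0 := funext fun i => hx.2.1 i (by rw [hI]; exact Finset.mem_univ i)
    rw [h1]
    exact Γ.zero_mem
  | cons j l ih =>
    intro I hI htop H x hx
    set g := Nat.card (prj Λ I 0 j) with hg
    have hgpos : 0 < g := Nat.card_pos
    have hgd : g ∣ m j := card_prj_dvd Λ I j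
    have hI' : insert j I ∪ l.toFinset = Finset.univ := by
      rw [← hI, List.toFinset_cons]
      ext w
      simp only [Finset.mem_union, Finset.mem_insert]
      tauto
    -- the induction hypothesis
    have IH := ih (insert j I) hI' htop.2 (fun y' h1 h2 h3 => by
      refine H y' h1 (fun i hi => h2 i (Finset.mem_insert_of_mem hi)) ?_
      obtain ⟨l₁, j', l₂, hl, hg', hle⟩ := h3
      have hset : I ∪ (j :: l₁).toFinset = insert j I ∪ l₁.toFinset := by
        rw [List.toFinset_cons]
        ext w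
        simp only [Finset.mem_union, Finset.mem_insert]
        tauto
      refine ⟨j :: l₁, j', l₂, by rw [hl]; rfl, by rw [hset]; exact hg', ?_⟩
      rw [hset, tot, List.map_cons, List.sum_cons]
      have h4 := est (M := M) j hgpos hgd 1 (z j).val hgpos (by rw [one_mul]; exact htop.1)
      rw [Nat.cast_one, one_mul, ← h2 j (Finset.mem_insert_self _ _)] at h4
      rw [← hg]
      linarith)
    rcases Nat.lt_or_ge g 2 with hg1 | hg2
    · -- the projection is trivial
      have hg1' : g = 1 := by omega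
      refine IH x ⟨hx.1, ?_, hx.2.2⟩
      intro i hi
      rcases Finset.mem_insert.1 hi with rfl | hi
      · have h1 : prj Λ I 0 i = ⊥ := by
          rw [← AddSubgroup.card_eq_one]
          exact hg1'
        have h2 : x i ∈ prj Λ I 0 i := ⟨x, hx, rfl⟩
        rw [h1, AddSubgroup.mem_bot] at h2
        exact h2
      · exact hx.2.1 i hi
    -- the generator
    obtain ⟨v, hv, hvj⟩ := div_mem (prj Λ I 0 j)
    have hvj' : v j = ((m j / g : ℕ) : ZMod (m j)) := hvj
    obtain ⟨y, hy1, hy2, hy3⟩ := exists_topE Λ l (insert j I) (z - v)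
    have hyI : ∀ i ∈ I, y i = z i := fun i hi => by
      rw [hy2 i (Finset.mem_insert_of_mem hi), Pi.sub_apply, hv.2.1 i hi, sub_zero]
    have hyΛ : y - z ∈ Λ := by
      have h1 : y - z = (y - (z - v)) - v := by abel
      rw [h1]
      exact Λ.sub_mem hy1 hv.1
    have hgm : g * (m j / g) = m j := Nat.mul_div_cancel' hgd
    have htop1 : m j ≤ (z j).val + m j / g := htop.1
    have hdpos : 2 * (m j / g) ≤ m j := by
      calc 2 * (m j / g) ≤ g * (m j / g) := Nat.mul_le_mul_right _ hg2
        _ = m j := hgm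
    have hyj : (y j).val = (z j).val - m j / g := by
      have h1 : y j = (((z j).val - m j / g : ℕ) : ZMod (m j)) := by
        rw [hy2 j (Finset.mem_insert_self _ _), Pi.sub_apply, hvj', Nat.cast_sub (by omega),
          ZMod.natCast_zmod_val]
      have h2 := ZMod.val_lt (z j)
      rw [h1, ZMod.val_natCast, Nat.mod_eq_of_lt (by omega)]
    have hyΓ : y - z ∈ Γ := by
      refine H y hyΛ hyI ⟨[], j, l, rfl, ?_, ?_⟩
      · rw [List.toFinset_nil, Finset.union_empty]
        exact hg2
      · rw [List.toFinset_nil, Finset.union_empty, ← hg, tot, zero_add, List.map_cons,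
          List.sum_cons]
        have h2 := TopE.sum (M := M) l _ hy3
        have h4 := est (M := M) j hgpos hgd 2 (y j).val hg2 (by rw [hyj]; omega)
        push_cast at h4
        linarith
    -- the element `x` minus a multiple
    obtain ⟨c, hc⟩ := exists_mul (prj Λ I 0 j) (x := x j) ⟨x, hx, rfl⟩
    have h4 : x + c • (y - z) ∈ van Λ (insert j I) 0 := by
      refine ⟨Λ.add_mem hx.1 (Λ.nsmul_mem hyΛ c), ?_, by rw [zero_smul]⟩
      intro i hi
      rcases Finset.mem_insert.1 hi with rfl | hi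
      · rw [Pi.add_apply, Pi.smul_apply, Pi.sub_apply, hy2 _ (Finset.mem_insert_self _ _),
          Pi.sub_apply, hvj', hc, ← hg]
        simp
      · rw [Pi.add_apply, Pi.smul_apply, Pi.sub_apply, hyI i hi, hx.2.1 i hi]
        simp
    have h5 := IH _ h4
    have h6 : x = (x + c • (y - z)) - c • (y - z) := by abel
    rw [h6]
    exact Γ.sub_mem h5 (Γ.nsmul_mem hyΓ c)

end Pool.Agent.K3h47.FU
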